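import Pool.Agent.Helper35.SD.Defs

/-!
# Block BIG: the axioms of big intervals
-/

namespace Pool.Agent.H35SD

universe u v

section
variable {T : Type v} [Preorder T] {J : T → T → T → Prop} {L : Type u} [Lattice L]

theorem big_good_sub {μ : T → L} {a b p q : T} (h : Good J μ a b) (hp : a ≤ p) (hq : q ≤ b)
    (_hpq : p ≤ q) : Good J μ p q where
  mono x y hx hxy hy := h.mono x y (hp.trans hx) hxy (hy.trans hq)
  strict x y hx hxy hy := h.strict x y (hp.trans hx) hxy (hy.trans hq)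
  join t₁ t₂ w h1 h1' h2 h2' hw hw' hJ :=
    h.join t₁ t₂ w (hp.trans h1) (h1'.trans hq) (hp.trans h2) (h2'.trans hq) (hp.trans hw)
      (hw'.trans hq) hJ

/-- Joining with a constant, if this is strict. -/
theorem big_sup_good {μ : T → L} {a b : T} (h : Good J μ a b) (c : L)
    (hs : ∀ x y, a ≤ x → x < y → y ≤ b → μ x ⊔ c ≠ μ y ⊔ c) : Good J (fun x => μ x ⊔ c) a b where
  mono x y hx hxy hy := sup_le_sup_right (h.mono x y hx hxy hy) c
  strict x y hx hxy hy :=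
    lt_of_le_of_ne (sup_le_sup_right (h.mono x y hx hxy.le hy) c) (hs x y hx hxy hy)
  join t₁ t₂ w h1 h1' h2 h2' hw hw' hJ := by
    have := h.join t₁ t₂ w h1 h1' h2 h2' hw hw' hJ
    refine sup_le (this.trans (sup_le_sup le_sup_left le_sup_left)) ?_
    exact le_sup_right.trans le_sup_left

/-- Meeting with a constant, if every value is generated by a common part and the meet. -/
theorem big_inf_good [IsModularLattice L] {μ : T → L} {a b : T} (h : Good J μ a b) (c d : L)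
    (hd : ∀ x, a ≤ x → x ≤ b → μ x = d ⊔ (μ x ⊓ c)) : Good J (fun x => μ x ⊓ c) a b where
  mono x y hx hxy hy := inf_le_inf_right c (h.mono x y hx hxy hy)
  strict x y hx hxy hy := by
    refine lt_of_le_of_ne (inf_le_inf_right c (h.mono x y hx hxy.le hy)) fun he => ?_
    have hx' := hd x hx (hxy.le.trans hy)
    have hy' := hd y (hx.trans hxy.le) hy
    have hlt := h.strict x y hx hxy hy
    rw [hx', hy', he] at hlt
    exact lt_irrefl _ hlt
  join t₁ t₂ w h1 h1' h2 h2' hw hw' hJ := by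
    have hj := h.join t₁ t₂ w h1 h1' h2 h2' hw hw' hJ
    have e1 := hd t₁ h1 h1'
    have e2 := hd t₂ h2 h2'
    have hdc : d ⊓ c ≤ μ t₁ ⊓ c := inf_le_inf_right c (by rw [e1]; exact le_sup_left)
    have e3 : μ t₁ ⊔ μ t₂ = ((μ t₁ ⊓ c) ⊔ (μ t₂ ⊓ c)) ⊔ d := by
      conv_lhs => rw [e1, e2]
      rw [sup_sup_sup_comm, sup_idem, sup_comm]
    have hle : (μ t₁ ⊓ c) ⊔ (μ t₂ ⊓ c) ≤ c := sup_le inf_le_right inf_le_right
    show μ w ⊓ c ≤ (μ t₁ ⊓ c) ⊔ (μ t₂ ⊓ c)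
    calc μ w ⊓ c ≤ (μ t₁ ⊔ μ t₂) ⊓ c := inf_le_inf_right c hj
      _ = (((μ t₁ ⊓ c) ⊔ (μ t₂ ⊓ c)) ⊔ d) ⊓ c := by rw [e3]
      _ = ((μ t₁ ⊓ c) ⊔ (μ t₂ ⊓ c)) ⊔ (d ⊓ c) := (sup_inf_assoc_of_le d hle)
      _ ≤ (μ t₁ ⊓ c) ⊔ (μ t₂ ⊓ c) := sup_le le_rfl (hdc.trans le_sup_left)

theorem big_mono {a b a' b' : L} (ha : a' ≤ a) (hb : b ≤ b') (h : Big J a b) : Big J a' b' := by
  obtain ⟨s, t, hst, μ, hμ, h1, h2⟩ := h
  exact ⟨s, t, hst, μ, hμ, ha.trans h1, h2.trans hb⟩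

theorem big_proj [IsModularLattice L] (a b : L) : Big J (a ⊓ b) a ↔ Big J b (a ⊔ b) := by
  constructor
  · rintro ⟨s, t, hst, μ, hμ, h1, h2⟩
    refine ⟨s, t, hst, fun x => μ x ⊔ b, big_sup_good hμ b ?_, le_sup_right,
      sup_le_sup_right h2 b⟩
    intro x y hx hxy hy he
    have hlt := hμ.strict x y hx hxy hy
    have hya : μ y ≤ a := (hμ.mono y t (hx.trans hxy.le) hy le_rfl).trans h2
    have hxa : a ⊓ b ≤ μ x := h1.trans (hμ.mono s x le_rfl hx (hxy.le.trans hy))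
    refine absurd hlt (not_lt_of_ge ?_)
    calc μ y = (μ x ⊔ b) ⊓ μ y := by
          rw [he]; exact (inf_eq_right.2 le_sup_left).symm
      _ = μ x ⊔ b ⊓ μ y := sup_inf_assoc_of_le b hlt.le
      _ ≤ μ x := sup_le le_rfl ((le_inf (inf_le_right.trans hya) inf_le_left).trans hxa)
  · rintro ⟨s, t, hst, μ, hμ, h1, h2⟩
    refine ⟨s, t, hst, fun x => μ x ⊓ a, big_inf_good hμ a b ?_, ?_, inf_le_right⟩
    · intro x hx hy
      have hxb : b ≤ μ x := h1.trans (hμ.mono s x le_rfl hx hy)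
      have hxa : μ x ≤ a ⊔ b := (hμ.mono x t hx hy le_rfl).trans h2
      calc μ x = (b ⊔ a) ⊓ μ x := by
            rw [sup_comm]; exact (inf_eq_right.2 hxa).symm
        _ = b ⊔ a ⊓ μ x := sup_inf_assoc_of_le a hxb
        _ = b ⊔ (μ x ⊓ a) := by rw [inf_comm a]
    · exact le_inf (inf_le_right.trans h1) inf_le_left

end

theorem big_rel {T : Type v} [Preorder T] {J : T → T → T → Prop} (hT : Branching J)
    {L : Type u} [Lattice L] [IsModularLattice L] : BigRel (Big J : L → L → Prop) where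
  lt a b h := by
    obtain ⟨s, t, hst, μ, hμ, h1, h2⟩ := h
    exact (h1.trans_lt (hμ.strict s t le_rfl hst le_rfl)).trans_le h2
  cut a b c hac hcb h := by
    obtain ⟨s, t, hst, μ, hμ, h1, h2⟩ := h
    by_cases hs : ∀ x y, s ≤ x → x < y → y ≤ t → μ x ⊔ c ≠ μ y ⊔ c
    · exact Or.inr ⟨s, t, hst, _, big_sup_good hμ c hs, le_sup_right, sup_le h2 hcb⟩
    · push Not at hs
      obtain ⟨p, q, hp, hpq, hq, he⟩ := hs
      refine Or.inl ⟨p, q, hpq, fun x => μ x ⊓ c,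
        big_inf_good (big_good_sub hμ hp hq hpq.le) c (μ p) ?_, ?_, inf_le_right⟩
      · intro x hx hy
        have hpx : μ p ≤ μ x := hμ.mono p x hp hx (hy.trans hq)
        have hxq : μ x ≤ μ q := hμ.mono x q (hp.trans hx) hy hq
        have hxc : μ x ≤ μ p ⊔ c := by rw [he]; exact hxq.trans le_sup_left
        calc μ x = (μ p ⊔ c) ⊓ μ x := (inf_eq_right.2 hxc).symm
          _ = μ p ⊔ c ⊓ μ x := sup_inf_assoc_of_le c hpx
          _ = μ p ⊔ (μ x ⊓ c) := by rw [inf_comm c]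
      · exact le_inf (h1.trans (hμ.mono s p le_rfl hp (hpq.le.trans hq))) hac
  proj a b := big_proj a b
  split a b h := by
    obtain ⟨s, t, hst, μ, hμ, h1, h2⟩ := h
    obtain ⟨t₁, t₂, u₁, u₂, ht1, ht2, htu1, htu2, hu1, hu2, hJ1, hJ2⟩ := hT s t hst
    have ht1' : t₁ ≤ t := htu1.le.trans hu1
    have ht2' : t₂ ≤ t := htu2.le.trans hu2
    refine ⟨μ t₁, μ t₂, h1.trans (hμ.mono s t₁ le_rfl ht1 ht1'),
      (hμ.mono t₁ t ht1 ht1' le_rfl).trans h2, h1.trans (hμ.mono s t₂ le_rfl ht2 ht2'),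
      (hμ.mono t₂ t ht2 ht2' le_rfl).trans h2, ?_, ?_⟩
    · rw [big_proj]
      exact ⟨t₂, u₂, htu2, μ, big_good_sub hμ ht2 hu2 htu2.le, le_rfl,
        hμ.join t₁ t₂ u₂ ht1 ht1' ht2 ht2' (ht2.trans htu2.le) hu2 hJ2⟩
    · rw [inf_comm, big_proj]
      refine ⟨t₁, u₁, htu1, μ, big_good_sub hμ ht1 hu1 htu1.le, le_rfl, ?_⟩
      rw [sup_comm]
      exact hμ.join t₁ t₂ u₁ ht1 ht1' ht2 ht2' (ht1.trans htu1.le) hu1 hJ1
  mono a b a' b' ha hb h := big_mono ha hb h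

end Pool.Agent.H35SD
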