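import Pool.Agent.Helper35.SD.Defs

/-!
# Block CMOD: the sum of all finitely presented modules
-/

namespace Pool.Agent.H35SD

universe u v

section basic

variable (R : Type u) [Ring R]

theorem cmod_cmp_inc (j : Idx R) (x : Md R j) : cmp R j (inc R j x) = x := by
  classical
  exact DirectSum.component.lof_self R j x

theorem cmod_cmp_inc_ne {i j : Idx R} (h : j ≠ i) (x : Md R j) : cmp R i (inc R j x) = 0 := by
  classical
  have := DirectSum.component.of (R := R) (M := fun j => Md R j) i j x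
  rw [dif_neg h] at this
  exact this

theorem cmod_ext {x y : CC R} (h : ∀ j, cmp R j x = cmp R j y) : x = y :=
  DirectSum.ext_component R h

theorem cmod_pr (j : Idx R) (x : CC R) : pr R j x = inc R j (cmp R j x) := rfl

theorem cmod_cmp_pr (i j : Idx R) (x : CC R) [Decidable (j = i)] :
    cmp R i (pr R j x) = if j = i then cmp R i x else 0 := by
  split_ifs with h
  · subst h
    rw [cmod_pr, cmod_cmp_inc]
  · rw [cmod_pr, cmod_cmp_inc_ne R h]

theorem cmod_support {ι : Type u} {β : ι → Type u} [∀ i, AddCommMonoid (β i)] [DecidableEq ι]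
    (c : DirectSum ι β) : ∃ F : Finset ι, ∀ i, i ∉ F → c i = 0 := by
  classical
  refine ⟨DFinsupp.support c, fun i hi => ?_⟩
  exact DFinsupp.notMem_support_iff.1 hi

theorem CC_sum (R : Type u) [Ring R] (c : CC R) :
    ∃ F : Finset (Idx R), ∀ F' : Finset (Idx R), F ⊆ F' → c = ∑ j ∈ F', pr R j c := by
  classical
  obtain ⟨F, hF⟩ := cmod_support (ι := Idx R) (β := fun j => Md R j) c
  refine ⟨F, fun F' hF' => ?_⟩
  apply cmod_ext
  intro i
  rw [map_sum]
  simp only [cmod_cmp_pr]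
  rw [Finset.sum_ite_eq' F' i (fun j => cmp R i c)]
  split_ifs with h
  · rfl
  · exact hF i (fun h' => h (hF' h'))

theorem CC_countable (R : Type u) [Ring R] [Countable R] : Countable (CC R) := by
  classical
  have h1 : Countable (Idx R) := by
    have : ∀ b : ℕ, Countable {K : Submodule R (Fin b → R) // K.FG} := by
      intro b
      have hs : Function.Surjective
          (fun s : Finset (Fin b → R) => (⟨Submodule.span R (s : Set (Fin b → R)), ⟨s, rfl⟩⟩ :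
            {K : Submodule R (Fin b → R) // K.FG})) := by
        rintro ⟨K, s, hs⟩
        exact ⟨s, Subtype.ext hs⟩
      exact hs.countable
    exact inferInstanceAs (Countable (Σ b : ℕ, {K : Submodule R (Fin b → R) // K.FG}))
  have h2 : ∀ j : Idx R, Countable (Md R j) := by
    intro j
    have hs : Function.Surjective (Submodule.mkQ j.2.1) := Submodule.mkQ_surjective _
    exact hs.countable
  have hs : Function.Surjective (fun l : List (Σ j : Idx R, Md R j) =>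
      (l.map (fun p => inc R p.1 p.2)).sum) := by
    intro c
    obtain ⟨F, hF⟩ := CC_sum R c
    refine ⟨F.toList.map (fun j => ⟨j, cmp R j c⟩), ?_⟩
    have h3 := hF F le_rfl
    rw [← Finset.sum_map_toList] at h3
    conv_rhs => rw [h3]
    simp only [List.map_map]
    rfl
  exact hs.countable

/-- The projection from the free module. -/
noncomputable def cmod_q (j : Idx R) : (Fin j.1 → R) →ₗ[R] Md R j := Submodule.mkQ j.2.1

theorem cmod_q_surj (j : Idx R) (z : Md R j) : ∃ v, cmod_q R j v = z :=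
  Submodule.mkQ_surjective _ z

theorem cmod_q_sum (j : Idx R) (v : Fin j.1 → R) :
    cmod_q R j v = ∑ l, v l • cmod_q R j (Pi.single l 1) := by
  have h : v = ∑ l, v l • (Pi.single l 1 : Fin j.1 → R) := by
    ext i
    simp [Finset.sum_apply, Pi.single_apply]
  conv_lhs => rw [h]
  rw [map_sum]
  simp only [map_smul]

/-- Generators of the relations and the universal property. -/
theorem cmod_gens (j : Idx R) : ∃ (a : ℕ) (κ : Fin a → Fin j.1 → R),
    (∀ t, cmod_q R j (κ t) = 0) ∧ ∀ (N : Type u) [AddCommGroup N] [Module R N] (x : Fin j.1 → N),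
      (∀ t, ∑ l, κ t l • x l = 0) →
        ∃ g : Md R j →ₗ[R] N, ∀ l, g (cmod_q R j (Pi.single l 1)) = x l := by
  obtain ⟨a, κ, hκ⟩ := Submodule.fg_iff_exists_fin_generating_family.1 j.2.2
  refine ⟨a, κ, ?_, ?_⟩
  · intro t
    unfold cmod_q
    rw [Submodule.mkQ_apply, Submodule.Quotient.mk_eq_zero, ← hκ]
    exact Submodule.subset_span ⟨t, rfl⟩
  · intro N _ _ x hx
    let g : (Fin j.1 → R) →ₗ[R] N :=
      ∑ l, (LinearMap.toSpanSingleton R N (x l)).comp (LinearMap.proj l)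
    have hgv : ∀ v, g v = ∑ l, v l • x l := by
      intro v
      simp only [g, LinearMap.sum_apply, LinearMap.comp_apply, LinearMap.proj_apply,
        LinearMap.toSpanSingleton_apply]
    have hg : j.2.1 ≤ LinearMap.ker g := by
      rw [← hκ, Submodule.span_le]
      rintro _ ⟨t, rfl⟩
      show g (κ t) = 0
      rw [hgv, hx]
    refine ⟨Submodule.liftQ j.2.1 g hg, fun l => ?_⟩
    have h1 : Submodule.liftQ j.2.1 g hg (cmod_q R j (Pi.single l 1)) = g (Pi.single l 1) := rfl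
    rw [h1, hgv]
    simp [Pi.single_apply]

end basic

section corner

variable (S : Type u) [Ring S]

/-- The generator of the free module of rank one. -/
noncomputable def cmod_g : Md Sᵐᵒᵖ (j0 Sᵐᵒᵖ) :=
  Submodule.Quotient.mk (p := (⊥ : Submodule Sᵐᵒᵖ (Fin 1 → Sᵐᵒᵖ))) (fun _ => 1)

/-- The generator of the free summand of rank one. -/
noncomputable def cmod_u : CC Sᵐᵒᵖ := inc Sᵐᵒᵖ (j0 Sᵐᵒᵖ) (cmod_g S)

/-- The map from the free module of rank one with given value. -/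
noncomputable def cmod_lift {N : Type u} [AddCommGroup N] [Module Sᵐᵒᵖ N] (x : N) :
    Md Sᵐᵒᵖ (j0 Sᵐᵒᵖ) →ₗ[Sᵐᵒᵖ] N :=
  Submodule.liftQ (⊥ : Submodule Sᵐᵒᵖ (Fin 1 → Sᵐᵒᵖ))
    ((LinearMap.toSpanSingleton Sᵐᵒᵖ N x).comp (LinearMap.proj 0)) bot_le

theorem cmod_lift_g {N : Type u} [AddCommGroup N] [Module Sᵐᵒᵖ N] (x : N) :
    cmod_lift S x (cmod_g S) = x := by
  have h : cmod_lift S x (cmod_g S) = (1 : Sᵐᵒᵖ) • x := rfl
  rw [h, one_smul]

/-- The elements of the free module of rank one. -/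
theorem cmod_exists (z : Md Sᵐᵒᵖ (j0 Sᵐᵒᵖ)) : ∃ a : Sᵐᵒᵖ, z = a • cmod_g S := by
  obtain ⟨f, rfl⟩ := Submodule.Quotient.mk_surjective (⊥ : Submodule Sᵐᵒᵖ (Fin 1 → Sᵐᵒᵖ)) z
  refine ⟨f 0, ?_⟩
  have h : f = f 0 • (fun _ => 1 : Fin 1 → Sᵐᵒᵖ) := by
    ext i
    have : i = 0 := Subsingleton.elim _ _
    subst this
    simp
  conv_lhs => rw [h]
  rfl

theorem cmod_rmulQ_g (s : S) : rmulQ S s (cmod_g S) = MulOpposite.op s • cmod_g S := by
  have h : rmul S s (fun _ => 1) = MulOpposite.op s • (fun _ => 1 : Fin 1 → Sᵐᵒᵖ) := by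
    ext i
    simp [rmul]
  have h2 : rmulQ S s (cmod_g S) =
    Submodule.Quotient.mk (p := (⊥ : Submodule Sᵐᵒᵖ (Fin 1 → Sᵐᵒᵖ))) (rmul S s (fun _ => 1)) := rfl
  rw [h2, h]
  rfl

/-- The endomorphism factoring over the free summand of rank one with a given value at the generator. -/
noncomputable def cmod_h (x : CC Sᵐᵒᵖ) : Module.End Sᵐᵒᵖ (CC Sᵐᵒᵖ) :=
  (cmod_lift S x).comp (cmp Sᵐᵒᵖ (j0 Sᵐᵒᵖ))

theorem cmod_h_apply (x y : CC Sᵐᵒᵖ) (a : Sᵐᵒᵖ) (h : cmp Sᵐᵒᵖ (j0 Sᵐᵒᵖ) y = a • cmod_g S) :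
    cmod_h S x y = a • x := by
  unfold cmod_h
  rw [LinearMap.comp_apply, h, map_smul, cmod_lift_g]

theorem cmod_th (s : S) : th S s = cmod_h S (MulOpposite.op s • cmod_u S) := by
  apply LinearMap.ext
  intro x
  obtain ⟨a, ha⟩ := cmod_exists S (cmp Sᵐᵒᵖ (j0 Sᵐᵒᵖ) x)
  rw [cmod_h_apply S _ _ a ha]
  unfold th
  rw [LinearMap.comp_apply, LinearMap.comp_apply, ha, map_smul, map_smul, cmod_rmulQ_g, map_smul]
  rfl

theorem cmod_h_u (x : CC Sᵐᵒᵖ) : cmod_h S x (cmod_u S) = x := by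
  rw [cmod_h_apply S x _ 1, one_smul]
  unfold cmod_u
  rw [cmod_cmp_inc, one_smul]

theorem cmod_mul_h (l : Module.End Sᵐᵒᵖ (CC Sᵐᵒᵖ)) (x : CC Sᵐᵒᵖ) :
    l * cmod_h S x = cmod_h S (l x) := by
  apply LinearMap.ext
  intro y
  obtain ⟨a, ha⟩ := cmod_exists S (cmp Sᵐᵒᵖ (j0 Sᵐᵒᵖ) y)
  rw [Module.End.mul_apply, cmod_h_apply S _ _ a ha, cmod_h_apply S _ _ a ha, map_smul]

theorem cmod_h_add (x y : CC Sᵐᵒᵖ) : cmod_h S (x + y) = cmod_h S x + cmod_h S y := by
  apply LinearMap.ext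
  intro z
  obtain ⟨a, ha⟩ := cmod_exists S (cmp Sᵐᵒᵖ (j0 Sᵐᵒᵖ) z)
  rw [LinearMap.add_apply, cmod_h_apply S _ _ a ha, cmod_h_apply S _ _ a ha,
    cmod_h_apply S _ _ a ha, smul_add]

theorem cmod_h_zero : cmod_h S 0 = 0 := by
  have := cmod_h_add S 0 0
  rw [add_zero] at this
  exact left_eq_add.1 this

theorem cmod_h_sum {ι : Type*} (s : Finset ι) (f : ι → CC Sᵐᵒᵖ) :
    cmod_h S (∑ i ∈ s, f i) = ∑ i ∈ s, cmod_h S (f i) :=
  map_sum (AddMonoidHom.mk' (cmod_h S) (cmod_h_add S)) f s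

theorem cmod_th_one : th S 1 = pr Sᵐᵒᵖ (j0 Sᵐᵒᵖ) := by
  apply LinearMap.ext
  intro x
  obtain ⟨a, ha⟩ := cmod_exists S (cmp Sᵐᵒᵖ (j0 Sᵐᵒᵖ) x)
  rw [cmod_pr, cmod_th, cmod_h_apply S _ _ a ha, ha, map_smul, MulOpposite.op_one, one_smul]
  rfl

theorem cmod_h_th (x : CC Sᵐᵒᵖ) (s : S) :
    cmod_h S x * th S s = cmod_h S (MulOpposite.op s • x) := by
  rw [cmod_th, cmod_mul_h, map_smul, cmod_h_u]

theorem cmod_h_th_one (x : CC Sᵐᵒᵖ) : cmod_h S x * th S 1 = cmod_h S x := by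
  rw [cmod_h_th, MulOpposite.op_one, one_smul]

theorem cmod_eq_h {c : Module.End Sᵐᵒᵖ (CC Sᵐᵒᵖ)} (h : c * th S 1 = c) :
    c = cmod_h S (c (cmod_u S)) := by
  conv_lhs => rw [← h, cmod_th, MulOpposite.op_one, one_smul, cmod_mul_h]

theorem cmod_pr_mul (j : Idx Sᵐᵒᵖ) : pr Sᵐᵒᵖ j * pr Sᵐᵒᵖ j = pr Sᵐᵒᵖ j := by
  apply LinearMap.ext
  intro x
  rw [Module.End.mul_apply, cmod_pr, cmod_pr, cmod_cmp_inc]

theorem CC_corner (S : Type u) [Ring S] : Corner (th S) (pr Sᵐᵒᵖ) where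
  add := by
    intro s t
    rw [cmod_th, cmod_th, cmod_th, ← cmod_h_add, ← add_smul, MulOpposite.op_add]
  mul := by
    intro s t
    rw [cmod_th S s, cmod_h_th, cmod_th, smul_smul, MulOpposite.op_mul]
  surj := by
    intro l
    obtain ⟨a, ha⟩ := cmod_exists S (cmp Sᵐᵒᵖ (j0 Sᵐᵒᵖ) (l (cmod_u S)))
    refine ⟨a.unop, ?_⟩
    have h1 : th S 1 * l * th S 1 = cmod_h S (th S 1 (l (cmod_u S))) := by
      have h0 : l * th S 1 = cmod_h S (l (cmod_u S)) := by
        rw [cmod_th, MulOpposite.op_one, one_smul, cmod_mul_h]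
      rw [mul_assoc, h0, cmod_mul_h]
    rw [h1, cmod_th, MulOpposite.op_unop, cmod_th_one, cmod_pr, ha, map_smul]
    rfl
  idem := cmod_pr_mul S
  fin := by
    intro c hc
    obtain ⟨F, hF⟩ := CC_sum Sᵐᵒᵖ (c (cmod_u S))
    refine ⟨F, fun F' hF' => ?_⟩
    have h1 := cmod_eq_h S hc
    have h2 : ∀ j, pr Sᵐᵒᵖ j * c = cmod_h S (pr Sᵐᵒᵖ j (c (cmod_u S))) := by
      intro j
      conv_lhs => rw [h1]
      rw [cmod_mul_h]
    simp only [h2]
    rw [← cmod_h_sum, ← hF F' hF']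
    exact h1
  pres := by
    intro j
    obtain ⟨a, κ, hκ, hun⟩ := cmod_gens Sᵐᵒᵖ j
    let e : Fin j.1 → CC Sᵐᵒᵖ := fun l => inc Sᵐᵒᵖ j (cmod_q Sᵐᵒᵖ j (Pi.single l 1))
    have he : ∀ v : Fin j.1 → Sᵐᵒᵖ, ∑ l, v l • e l = inc Sᵐᵒᵖ j (cmod_q Sᵐᵒᵖ j v) := by
      intro v
      rw [cmod_q_sum Sᵐᵒᵖ j v, map_sum]
      simp only [map_smul]
      rfl
    refine ⟨j.1, a, fun l => cmod_h S (e l), fun l t => (κ t l).unop, ?_, ?_, ?_, ?_, ?_⟩
    · intro l
      refine ⟨?_, cmod_h_th_one S _⟩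
      rw [cmod_mul_h, cmod_pr]
      have : cmp Sᵐᵒᵖ j (e l) = cmod_q Sᵐᵒᵖ j (Pi.single l 1) := cmod_cmp_inc _ _ _
      rw [this]
    · intro t
      simp only [cmod_h_th, MulOpposite.op_unop]
      rw [← cmod_h_sum, he, hκ, map_zero, cmod_h_zero]
    · intro c hc hc'
      have h1 := cmod_eq_h S hc'
      have h2 : pr Sᵐᵒᵖ j (c (cmod_u S)) = c (cmod_u S) := by
        conv_rhs => rw [← hc]
        rfl
      obtain ⟨v, hv⟩ := cmod_q_surj Sᵐᵒᵖ j (cmp Sᵐᵒᵖ j (c (cmod_u S)))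
      refine ⟨fun l => (v l).unop, ?_⟩
      simp only [cmod_h_th, MulOpposite.op_unop]
      rw [← cmod_h_sum, he, hv]
      rw [cmod_pr] at h2
      rw [h2]
      exact h1
    · intro c hc hc'
      have h1 : ∀ l, c l = cmod_h S (c l (cmod_u S)) := fun l => cmod_eq_h S (hc l)
      have h2 : ∀ t, ∑ l, κ t l • (c l (cmod_u S)) = 0 := by
        intro t
        have h3 := hc' t
        have h4 : ∀ l, c l * th S (κ t l).unop = cmod_h S (κ t l • (c l (cmod_u S))) := by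
          intro l
          conv_lhs => rw [h1 l]
          rw [cmod_h_th, MulOpposite.op_unop]
        simp only [h4] at h3
        rw [← cmod_h_sum] at h3
        have h5 := congrArg (fun f => f (cmod_u S)) h3
        simp only [cmod_h_u, LinearMap.zero_apply] at h5
        exact h5
      obtain ⟨g, hg⟩ := hun (CC Sᵐᵒᵖ) (fun l => c l (cmod_u S)) h2
      refine ⟨g.comp (cmp Sᵐᵒᵖ j), fun l => ?_⟩
      rw [cmod_mul_h]
      have h6 : (g.comp (cmp Sᵐᵒᵖ j)) (e l) = c l (cmod_u S) := by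
        rw [LinearMap.comp_apply]
        have : cmp Sᵐᵒᵖ j (e l) = cmod_q Sᵐᵒᵖ j (Pi.single l 1) := cmod_cmp_inc _ _ _
        rw [this, hg]
      rw [h6]
      exact h1 l
    · intro l' h1 h2
      have h3 : ∀ l, l' (e l) = 0 := by
        intro l
        have h4 := h2 l
        rw [cmod_mul_h] at h4
        have h5 := congrArg (fun f => f (cmod_u S)) h4
        simp only [cmod_h_u, LinearMap.zero_apply] at h5
        exact h5
      apply LinearMap.ext
      intro x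
      rw [← h1, Module.End.mul_apply, cmod_pr]
      obtain ⟨v, hv⟩ := cmod_q_surj Sᵐᵒᵖ j (cmp Sᵐᵒᵖ j x)
      rw [← hv, ← he, map_sum, LinearMap.zero_apply]
      apply Finset.sum_eq_zero
      intro l _
      rw [map_smul, h3, smul_zero]

end corner

end Pool.Agent.H35SD
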