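import Pool.Agent.Helper35.SD.Defs

/-!
Block COH: the direct sum `CC R` of all finitely presented modules is coherent over its
endomorphism ring.
-/

namespace Pool.Agent.H35SD

universe u v

section
variable (R : Type u) [Ring R]

/-- The submodule `{h n : h ∈ Hom(N, CC R)}` of `CC R` over its endomorphism ring. -/
def cohK (N : Type u) [AddCommGroup N] [Module R N] (n : N) :
    Submodule (Module.End R (CC R)) (CC R) where
  carrier := {c | ∃ h : N →ₗ[R] CC R, c = h n}
  zero_mem' := ⟨0, rfl⟩
  add_mem' := by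
    rintro _ _ ⟨h, rfl⟩ ⟨h', rfl⟩
    exact ⟨h + h', rfl⟩
  smul_mem' := by
    rintro g _ ⟨h, rfl⟩
    exact ⟨g.comp h, rfl⟩

theorem coh_mem (N : Type u) [AddCommGroup N] [Module R N] (n : N) (c : CC R) :
    c ∈ cohK R N n ↔ ∃ h : N →ₗ[R] CC R, c = h n := Iff.rfl

theorem coh_cmp_inc (j : Idx R) (x : Md R j) : cmp R j (inc R j x) = x := by
  classical
  exact DirectSum.component.lof_self (R := R) (M := fun j => Md R j) j x

/-- `K(N, n)` is finitely generated for `N` finitely presented. -/
theorem coh_fg (N : Type u) [AddCommGroup N] [Module R N] [Module.FinitePresentation R N] (n : N) :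
    (cohK R N n).FG := by
  obtain ⟨b, K, e, hK⟩ := Module.FinitePresentation.exists_fin R N
  let j : Idx R := ⟨b, K, hK⟩
  let e' : N ≃ₗ[R] Md R j := e
  have : cohK R N n = Submodule.span (Module.End R (CC R)) {inc R j (e' n)} := by
    apply le_antisymm
    · rintro _ ⟨h, rfl⟩
      rw [Submodule.mem_span_singleton]
      refine ⟨(h.comp e'.symm.toLinearMap).comp (cmp R j), ?_⟩
      change h (e'.symm (cmp R j (inc R j (e' n)))) = h n
      rw [coh_cmp_inc, LinearEquiv.symm_apply_apply]
    · rw [Submodule.span_singleton_le_iff_mem]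
      exact ⟨(inc R j).comp e'.toLinearMap, rfl⟩
  rw [this]
  exact Submodule.fg_span_singleton _

/-- Every cyclic submodule is of the form `K(N, n)`. -/
theorem coh_cyclic (c : CC R) : ∃ (N : Type u) (_ : AddCommGroup N) (_ : Module R N) (n : N),
    Module.FinitePresentation R N ∧
      Submodule.span (Module.End R (CC R)) {c} = cohK R N n := by
  classical
  let F : Finset (Idx R) := DFinsupp.support (β := fun j => Md R j) c
  have hfp : ∀ j : F, Module.FinitePresentation R (Md R j.1) := fun j =>
    Module.finitePresentation_of_surjective (j.1.2.1).mkQ (Submodule.mkQ_surjective _)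
      (by rw [Submodule.ker_mkQ]; exact j.1.2.2)
  let π : CC R →ₗ[R] (∀ j : F, Md R j.1) := LinearMap.pi fun j => cmp R j.1
  let ι : (∀ j : F, Md R j.1) →ₗ[R] CC R := ∑ j : F, (inc R j.1).comp (LinearMap.proj j)
  have hιπ : ι (π c) = c := by
    have h1 : ι (π c) = ∑ j : F, inc R j.1 (cmp R j.1 c) := by
      simp only [ι, π, LinearMap.sum_apply, LinearMap.comp_apply, LinearMap.proj_apply,
        LinearMap.pi_apply]
    rw [h1]
    rw [Finset.sum_coe_sort F (fun j => inc R j (cmp R j c))]
    exact DirectSum.sum_support_of (β := fun j => Md R j) c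
  refine ⟨∀ j : F, Md R j.1, inferInstance, inferInstance, π c, inferInstance, ?_⟩
  apply le_antisymm
  · rw [Submodule.span_singleton_le_iff_mem]
    exact ⟨ι, hιπ.symm⟩
  · rintro _ ⟨h, rfl⟩
    rw [Submodule.mem_span_singleton]
    exact ⟨h.comp π, rfl⟩

theorem coh_sup (N N' : Type u) [AddCommGroup N] [Module R N] [AddCommGroup N'] [Module R N']
    (n : N) (n' : N') : cohK R N n ⊔ cohK R N' n' = cohK R (N × N') (n, n') := by
  apply le_antisymm
  · apply sup_le
    · rintro _ ⟨h, rfl⟩
      exact ⟨h.comp (LinearMap.fst R N N'), rfl⟩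
    · rintro _ ⟨h, rfl⟩
      exact ⟨h.comp (LinearMap.snd R N N'), rfl⟩
  · rintro _ ⟨h, rfl⟩
    rw [Submodule.mem_sup]
    refine ⟨_, ⟨h.comp (LinearMap.inl R N N'), rfl⟩, _, ⟨h.comp (LinearMap.inr R N N'), rfl⟩, ?_⟩
    change h (n, 0) + h (0, n') = h (n, n')
    rw [← map_add]
    simp

/-- Every finitely generated submodule is of the form `K(N, n)`. -/
theorem coh_exists (K : Submodule (Module.End R (CC R)) (CC R)) (hK : K.FG) :
    ∃ (N : Type u) (_ : AddCommGroup N) (_ : Module R N) (n : N),
      Module.FinitePresentation R N ∧ K = cohK R N n := by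
  induction K, hK using Submodule.fg_induction with
  | singleton c => exact coh_cyclic R c
  | sup K K' hK hK' h h' =>
    obtain ⟨N, i1, i2, n, i3, e⟩ := h
    obtain ⟨N', i1', i2', n', i3', e'⟩ := h'
    refine ⟨N × N', inferInstance, inferInstance, (n, n'), inferInstance, ?_⟩
    rw [e, e', coh_sup]

theorem coh_inf (N N' : Type u) [AddCommGroup N] [Module R N] [AddCommGroup N'] [Module R N']
    (n : N) (n' : N') : cohK R N n ⊓ cohK R N' n' =
      cohK R ((N × N') ⧸ Submodule.span R {((n, -n') : N × N')})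
        (Submodule.Quotient.mk (n, 0)) := by
  apply le_antisymm
  · rintro c ⟨⟨h, hc⟩, ⟨h', hc'⟩⟩
    refine ⟨Submodule.liftQ _ (h.coprod h') ?_, ?_⟩
    · rw [Submodule.span_singleton_le_iff_mem, LinearMap.mem_ker]
      simp [← hc, ← hc']
    · change c = h.coprod h' (n, 0)
      simp [hc]
  · rintro _ ⟨f, rfl⟩
    refine ⟨⟨(f.comp (Submodule.mkQ _)).comp (LinearMap.inl R N N'), rfl⟩,
      ⟨(f.comp (Submodule.mkQ _)).comp (LinearMap.inr R N N'), ?_⟩⟩
    change f (Submodule.Quotient.mk (n, 0)) = f (Submodule.Quotient.mk (0, n'))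
    congr 1
    rw [Submodule.Quotient.eq]
    apply Submodule.subset_span
    simp

end

theorem CC_coherent (R : Type u) [Ring R] (K K' : Submodule (Module.End R (CC R)) (CC R))
    (hK : K.FG) (hK' : K'.FG) : (K ⊓ K').FG := by
  obtain ⟨N, i1, i2, n, i3, e⟩ := coh_exists R K hK
  obtain ⟨N', i1', i2', n', i3', e'⟩ := coh_exists R K' hK'
  rw [e, e', coh_inf]
  have : Module.FinitePresentation R
      ((N × N') ⧸ Submodule.span R {((n, -n') : N × N')}) :=
    Module.finitePresentation_of_surjective (Submodule.mkQ _) (Submodule.mkQ_surjective _)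
      (by rw [Submodule.ker_mkQ]; exact Submodule.fg_span_singleton _)
  exact coh_fg R _ _

end Pool.Agent.H35SD
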