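import Pool.Agent.Helper35.SD.Defs

open scoped TensorProduct

namespace Pool.Agent.H35SD

universe u v

section cor

open Classical in
/-- coefficients of an element of `k ⊗ Λ₀` with respect to the chosen basis of `k` -/
noncomputable def corCo (k₀ k Λ₀ : Type u) [Field k₀] [Field k] [Algebra k₀ k] [Ring Λ₀]
    [Algebra k₀ Λ₀] :
    (k ⊗[k₀] Λ₀) ≃ₗ[k₀] (Module.Basis.ofVectorSpaceIndex k₀ k →₀ Λ₀) :=
  TensorProduct.equivFinsuppOfBasisLeft (Module.Basis.ofVectorSpace k₀ k)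

variable {k₀ k Λ₀ : Type u} [Field k₀] [Field k] [Algebra k₀ k] [Ring Λ₀] [Algebra k₀ Λ₀]

theorem corCo_mul (x : k ⊗[k₀] Λ₀) (m : Λ₀) (i : Module.Basis.ofVectorSpaceIndex k₀ k) :
    corCo k₀ k Λ₀ (x * ((1 : k) ⊗ₜ[k₀] m)) i = corCo k₀ k Λ₀ x i * m := by
  induction x using TensorProduct.induction_on with
  | zero => simp
  | tmul a l =>
    rw [Algebra.TensorProduct.tmul_mul_tmul, mul_one]
    have e : ∀ m' : Λ₀, corCo k₀ k Λ₀ (a ⊗ₜ[k₀] m') i
        = (Module.Basis.ofVectorSpace k₀ k).repr a i • m' := fun m' => by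
      classical
      unfold corCo
      exact TensorProduct.equivFinsuppOfBasisLeft_apply_tmul_apply _ _ _ _
    rw [e, e, smul_mul_assoc]
  | add x y hx hy => rw [add_mul, map_add, map_add, Finsupp.add_apply, Finsupp.add_apply, hx, hy,
      add_mul]

theorem corCo_ext {x y : k ⊗[k₀] Λ₀} (h : ∀ i, corCo k₀ k Λ₀ x i = corCo k₀ k Λ₀ y i) :
    x = y := by
  apply (corCo k₀ k Λ₀).injective
  ext i
  exact h i

theorem corCo_sum_apply {ι : Type*} (s : Finset ι) (f : ι → k ⊗[k₀] Λ₀)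
    (i : Module.Basis.ofVectorSpaceIndex k₀ k) :
    corCo k₀ k Λ₀ (∑ j ∈ s, f j) i = ∑ j ∈ s, corCo k₀ k Λ₀ (f j) i := by
  rw [map_sum, Finsupp.finsetSum_apply]

end cor

/-- Base change of the corner conditions. -/
theorem corner_baseChange {k₀ k Λ₀ S₀ : Type u} [Field k₀] [Field k] [Algebra k₀ k]
    [Ring Λ₀] [Algebra k₀ Λ₀] [Ring S₀] [Algebra k₀ S₀] (θ₀ : S₀ →ₗ[k₀] Λ₀) {J : Type v}
    {ε₀ : J → Λ₀} (h : Corner θ₀ ε₀) :
    Corner (TensorProduct.map (LinearMap.id : k →ₗ[k₀] k) θ₀ : k ⊗[k₀] S₀ → k ⊗[k₀] Λ₀)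
      (fun j => (1 : k) ⊗ₜ[k₀] ε₀ j) := by
  classical
  have hΘ : ∀ (a : k) (s : S₀), (TensorProduct.map (LinearMap.id : k →ₗ[k₀] k) θ₀) (a ⊗ₜ[k₀] s)
      = a ⊗ₜ[k₀] θ₀ s := fun a s => by rw [TensorProduct.map_tmul]; rfl
  have hΘ1 : (TensorProduct.map (LinearMap.id : k →ₗ[k₀] k) θ₀) (1 : k ⊗[k₀] S₀)
      = (1 : k) ⊗ₜ[k₀] θ₀ 1 := by
    rw [Algebra.TensorProduct.one_def, hΘ]
  have h11 : θ₀ 1 * θ₀ 1 = θ₀ 1 := by rw [← h.mul, mul_one]
  refine ⟨fun s t => map_add _ _ _, ?_, ?_, ?_, ?_, ?_⟩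
  · intro s t
    induction s using TensorProduct.induction_on with
    | zero => simp
    | tmul a s =>
      induction t using TensorProduct.induction_on with
      | zero => simp
      | tmul b t =>
        rw [Algebra.TensorProduct.tmul_mul_tmul, hΘ, hΘ, hΘ, Algebra.TensorProduct.tmul_mul_tmul,
          h.mul]
      | add x y hx hy => rw [mul_add, map_add, map_add, mul_add, hx, hy]
    | add x y hx hy => rw [add_mul, map_add, map_add, add_mul, hx, hy]
  · intro l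
    rw [hΘ1]
    induction l using TensorProduct.induction_on with
    | zero => exact ⟨0, by simp⟩
    | tmul a l =>
      obtain ⟨s, hs⟩ := h.surj l
      refine ⟨a ⊗ₜ[k₀] s, ?_⟩
      rw [hΘ, hs, Algebra.TensorProduct.tmul_mul_tmul, Algebra.TensorProduct.tmul_mul_tmul,
        one_mul, mul_one]
    | add x y hx hy =>
      obtain ⟨s, hs⟩ := hx
      obtain ⟨t, ht⟩ := hy
      exact ⟨s + t, by rw [map_add, hs, ht, mul_add, add_mul]⟩
  · intro j
    rw [Algebra.TensorProduct.tmul_mul_tmul, one_mul, h.idem]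
  · rw [hΘ1]
    have key : ∀ l : k ⊗[k₀] Λ₀, ∃ F : Finset J, ∀ F' : Finset J, F ⊆ F' →
        l * ((1 : k) ⊗ₜ[k₀] θ₀ 1)
          = ∑ j ∈ F', ((1 : k) ⊗ₜ[k₀] ε₀ j) * (l * ((1 : k) ⊗ₜ[k₀] θ₀ 1)) := by
      intro l
      induction l using TensorProduct.induction_on with
      | zero => exact ⟨∅, fun F' _ => by simp⟩
      | tmul a l =>
        obtain ⟨F, hF⟩ := h.fin (l * θ₀ 1) (by rw [mul_assoc, h11])
        refine ⟨F, fun F' hF' => ?_⟩
        have := hF F' hF'
        rw [Algebra.TensorProduct.tmul_mul_tmul, mul_one]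
        have e1 : ∀ j ∈ F', ((1 : k) ⊗ₜ[k₀] ε₀ j) * (a ⊗ₜ[k₀] (l * θ₀ 1))
            = a ⊗ₜ[k₀] (ε₀ j * (l * θ₀ 1)) := fun j _ => by
          rw [Algebra.TensorProduct.tmul_mul_tmul, one_mul]
        rw [Finset.sum_congr rfl e1, ← TensorProduct.tmul_sum, ← this]
      | add x y hx hy =>
        obtain ⟨F, hF⟩ := hx
        obtain ⟨G, hG⟩ := hy
        refine ⟨F ∪ G, fun F' hF' => ?_⟩
        have h1 := hF F' (Finset.union_subset_left hF')
        have h2 := hG F' (Finset.union_subset_right hF')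
        rw [add_mul]
        conv_lhs => rw [h1, h2, ← Finset.sum_add_distrib]
        exact Finset.sum_congr rfl fun j _ => by rw [mul_add]
    intro c hc
    obtain ⟨F, hF⟩ := key c
    refine ⟨F, fun F' hF' => ?_⟩
    have := hF F' hF'
    rw [hc] at this
    exact this
  · intro j
    obtain ⟨b, a, d, H, p1, p2, p3, p4, p5⟩ := h.pres j
    refine ⟨b, a, fun l => (1 : k) ⊗ₜ[k₀] d l, fun l t => (1 : k) ⊗ₜ[k₀] H l t, ?_, ?_, ?_, ?_, ?_⟩
    · intro l
      rw [hΘ1, Algebra.TensorProduct.tmul_mul_tmul, Algebra.TensorProduct.tmul_mul_tmul, one_mul,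
        (p1 l).1, (p1 l).2]
      exact ⟨rfl, rfl⟩
    · intro t
      have e1 : ∀ l ∈ (Finset.univ : Finset (Fin b)), ((1 : k) ⊗ₜ[k₀] d l) *
          (TensorProduct.map (LinearMap.id : k →ₗ[k₀] k) θ₀) ((1 : k) ⊗ₜ[k₀] H l t)
          = (1 : k) ⊗ₜ[k₀] (d l * θ₀ (H l t)) := fun l _ => by
        rw [hΘ, Algebra.TensorProduct.tmul_mul_tmul, one_mul]
      rw [Finset.sum_congr rfl e1, ← TensorProduct.tmul_sum, p2, TensorProduct.tmul_zero]
    · rw [hΘ1]
      have key : ∀ l : k ⊗[k₀] Λ₀, ∃ r : Fin b → k ⊗[k₀] S₀,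
          ((1 : k) ⊗ₜ[k₀] ε₀ j) * l * ((1 : k) ⊗ₜ[k₀] θ₀ 1)
            = ∑ i, ((1 : k) ⊗ₜ[k₀] d i) *
              (TensorProduct.map (LinearMap.id : k →ₗ[k₀] k) θ₀) (r i) := by
        intro l
        induction l using TensorProduct.induction_on with
        | zero => exact ⟨0, by simp⟩
        | tmul x l =>
          obtain ⟨r, hr⟩ := p3 (ε₀ j * l * θ₀ 1)
            (by rw [← mul_assoc, ← mul_assoc, h.idem]) (by rw [mul_assoc, h11])
          refine ⟨fun i => x ⊗ₜ[k₀] r i, ?_⟩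
          rw [Algebra.TensorProduct.tmul_mul_tmul, Algebra.TensorProduct.tmul_mul_tmul, one_mul,
            mul_one, hr, TensorProduct.tmul_sum]
          refine Finset.sum_congr rfl fun i _ => ?_
          rw [hΘ, Algebra.TensorProduct.tmul_mul_tmul, one_mul]
        | add x y hx hy =>
          obtain ⟨r, hr⟩ := hx
          obtain ⟨s, hs⟩ := hy
          refine ⟨r + s, ?_⟩
          rw [mul_add, add_mul, hr, hs, ← Finset.sum_add_distrib]
          exact Finset.sum_congr rfl fun i _ => by rw [Pi.add_apply, map_add, mul_add]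
      intro c hc1 hc2
      obtain ⟨r, hr⟩ := key c
      rw [hc1, hc2] at hr
      exact ⟨r, hr⟩
    · rw [hΘ1]
      intro c hc hH
      have q1 : ∀ i l, corCo k₀ k Λ₀ (c l) i * θ₀ 1 = corCo k₀ k Λ₀ (c l) i := fun i l => by
        rw [← corCo_mul, hc]
      have q2 : ∀ i t, ∑ l, corCo k₀ k Λ₀ (c l) i * θ₀ (H l t) = 0 := fun i t => by
        have := congrArg (fun x => corCo k₀ k Λ₀ x i) (hH t)
        simp only [corCo_sum_apply, hΘ, corCo_mul, map_zero, Finsupp.coe_zero,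
          Pi.zero_apply] at this
        exact this
      have q3 : ∀ i, ∃ l' : Λ₀, (∀ l, corCo k₀ k Λ₀ (c l) i = l' * d l) ∧
          ((∀ l, corCo k₀ k Λ₀ (c l) i = 0) → l' = 0) := by
        intro i
        by_cases hz : ∀ l, corCo k₀ k Λ₀ (c l) i = 0
        · exact ⟨0, fun l => by rw [hz l, zero_mul], fun _ => rfl⟩
        · obtain ⟨l', hl'⟩ := p4 (fun l => corCo k₀ k Λ₀ (c l) i) (q1 i) (q2 i)
          exact ⟨l', hl', fun h0 => (hz h0).elim⟩
      choose g hg1 hg2 using q3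
      let T : Finset (Module.Basis.ofVectorSpaceIndex k₀ k) :=
        Finset.univ.biUnion fun l => (corCo k₀ k Λ₀ (c l)).support
      have hT : ∀ i, i ∉ T → g i = 0 := by
        intro i hi
        apply hg2
        intro l
        by_contra hne
        exact hi (Finset.mem_biUnion.2 ⟨l, Finset.mem_univ _, Finsupp.mem_support_iff.2 hne⟩)
      let gf : Module.Basis.ofVectorSpaceIndex k₀ k →₀ Λ₀ :=
        Finsupp.onFinset T g (fun i hi => by by_contra h'; exact hi (hT i h'))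
      refine ⟨(corCo k₀ k Λ₀).symm gf, fun l => corCo_ext fun i => ?_⟩
      rw [corCo_mul, LinearEquiv.apply_symm_apply]
      exact hg1 i l
    · intro l' h1 h2
      apply corCo_ext
      intro i
      rw [map_zero, Finsupp.coe_zero, Pi.zero_apply]
      apply p5
      · rw [← corCo_mul, h1]
      · intro l
        rw [← corCo_mul, h2, map_zero, Finsupp.coe_zero, Pi.zero_apply]

end Pool.Agent.H35SD
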