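import Pool.Agent.Helper35.SD.Main

/-!
MP_823891_al, Q2 for all algebras of countable dimension over a field of any cardinality: if the
lattice of pp conditions in one variable contains a wide subposet, then there is a
superdecomposable pure-injective module.

Idea of the proof. Let `k` be a field and `S` a `k`-algebra of countable dimension with a wide
subposet, which may be taken countable. There are a countable existentially closed subfield `k₀`
of `k` and a countable `k₀`-form `S₀` of `S` containing the coefficients of the wide subposet. Let
`C` be the direct sum of all finitely presented `S₀`-modules (on the other side) and `Λ₀` its
endomorphism ring. By elementary duality the wide subposet gives finitely generated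
`Λ₀`-submodules of `C`, and a generic quotient of a submodule of the countable module `C` has no
uniform submodule. This property survives the base change from `k₀` to `k` because `k₀` is
existentially closed in `k`. The injective hull over `k ⊗ Λ₀` has no uniform submodule, and its
part at the free module is a superdecomposable pure-injective `S`-module.
-/

namespace Pool.Agent.Helper35.SD.CountableAlgebras

open Pool.Agent.H35SD

universe u

/-- Every algebra `S` of countable dimension over a field `k` (of any cardinality) such that the
lattice of pp conditions of `S` contains a wide subposet has a superdecomposable pure-injective
(left) module. -/
theorem result (k S : Type u) [Field k] [Ring S] [Algebra k S]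
    (hS : ∃ A : Set S, A.Countable ∧ Submodule.span k A = ⊤) (hw : WidthUndefined S) :
    ∃ (N : Type u) (_ : AddCommGroup N) (_ : Module S N),
      PureInjective S N ∧ Superdecomposable S N :=
  countable_dimension hS hw

end Pool.Agent.Helper35.SD.CountableAlgebras
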