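import Mathlib

/-!
Definitions for the theorem on superdecomposable pure-injective modules over algebras of countable
dimension over a field.
-/

namespace Pool.Agent.H35SD

universe u v

/-! ### pp conditions (positive primitive conditions) in one free variable -/

/-- A pp condition in one free variable over the ring `S`, for left modules:
`∃ y_1 .. y_m, for all j = 1 .. e: r_j x + ∑_l s_{jl} y_l = 0`. -/
structure PP (S : Type u) where
  m : ℕ
  e : ℕ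
  r : Fin e → S
  s : Fin e → Fin m → S

/-- `φ.Sat x`: the element `x` of a module satisfies the pp condition `φ`. -/
def PP.Sat {S : Type u} [Ring S] (φ : PP S) {M : Type v} [AddCommGroup M] [Module S M]
    (x : M) : Prop :=
  ∃ y : Fin φ.m → M, ∀ j, φ.r j • x + ∑ l, φ.s j l • y l = 0

/-- The order of the lattice `pp_S`: `φ ≤ ψ` if `φ(M) ⊆ ψ(M)` for every module `M`. -/
def PP.le {S : Type u} [Ring S] (φ ψ : PP S) : Prop :=
  ∀ (M : Type u) [AddCommGroup M] [Module S M] (x : M), φ.Sat x → ψ.Sat x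

/-- `φ < ψ` in `pp_S`. -/
def PP.Lt {S : Type u} [Ring S] (φ ψ : PP S) : Prop := φ.le ψ ∧ ¬ ψ.le φ

/-- `θ ≤ θ₁ + θ₂`, the join of the lattice `pp_S`: `θ` lies below every upper bound. -/
def PP.LeJoin {S : Type u} [Ring S] (θ θ₁ θ₂ : PP S) : Prop :=
  ∀ χ : PP S, θ₁.le χ → θ₂.le χ → θ.le χ

/-- `θ₁ ∧ θ₂ ≤ θ`, with the meet of the lattice `pp_S`: `θ` lies above every lower bound. -/
def PP.MeetLe {S : Type u} [Ring S] (θ₁ θ₂ θ : PP S) : Prop :=
  ∀ χ : PP S, χ.le θ₁ → χ.le θ₂ → χ.le θ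

/-- A wide subposet of `pp_S` (with at least two comparable elements). -/
def IsWide {S : Type u} [Ring S] (P : Set (PP S)) : Prop :=
  (∃ φ ∈ P, ∃ ψ ∈ P, ψ.Lt φ) ∧
  ∀ φ ∈ P, ∀ ψ ∈ P, ψ.Lt φ →
    ∃ θ₁ ∈ P, ∃ θ₂ ∈ P, ∃ θ₁₁ ∈ P, ∃ θ₁₂ ∈ P, ∃ θ₂₁ ∈ P, ∃ θ₂₂ ∈ P,
      (¬ θ₁.le θ₂ ∧ ¬ θ₂.le θ₁) ∧
      (ψ.Lt θ₁ ∧ θ₁.Lt φ) ∧ (ψ.Lt θ₂ ∧ θ₂.Lt φ) ∧
      (θ₁₁.LeJoin θ₁ θ₂ ∧ θ₁.Lt θ₁₁ ∧ θ₁₂.Lt θ₁ ∧ PP.MeetLe θ₁ θ₂ θ₁₂) ∧
      (θ₂₁.LeJoin θ₁ θ₂ ∧ θ₂.Lt θ₂₁ ∧ θ₂₂.Lt θ₂ ∧ PP.MeetLe θ₁ θ₂ θ₂₂)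

/-- The width of `pp_S` is undefined: `pp_S` contains a wide subposet. -/
def WidthUndefined (S : Type u) [Ring S] : Prop := ∃ P : Set (PP S), IsWide P

/-! ### Modules -/

/-- Pure embeddings: every finite system of linear equations with constants in `A` which has a
solution in `B` has a solution in `A`. -/
def PureEmb {S : Type u} [Ring S] {A B : Type u} [AddCommGroup A] [AddCommGroup B] [Module S A]
    [Module S B] (f : A →ₗ[S] B) : Prop :=
  Function.Injective f ∧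
  ∀ (m n : ℕ) (r : Fin m → Fin n → S) (a : Fin m → A),
    (∃ y : Fin n → B, ∀ i, ∑ j, r i j • y j = f (a i)) →
      ∃ x : Fin n → A, ∀ i, ∑ j, r i j • x j = a i

/-- Pure-injective modules: injective with respect to pure embeddings. -/
def PureInjective (S : Type u) [Ring S] (N : Type u) [AddCommGroup N] [Module S N] : Prop :=
  ∀ (A B : Type u) [AddCommGroup A] [AddCommGroup B] [Module S A] [Module S B] (f : A →ₗ[S] B),
    PureEmb f → ∀ g : A →ₗ[S] N, ∃ h : B →ₗ[S] N, ∀ a, h (f a) = g a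

/-- A submodule is decomposable if it is the internal direct sum of two non-zero submodules. -/
def Decomposable {S : Type u} [Ring S] {N : Type v} [AddCommGroup N] [Module S N]
    (X : Submodule S N) : Prop :=
  ∃ X₁ X₂ : Submodule S N, X₁ ≠ ⊥ ∧ X₂ ≠ ⊥ ∧ X₁ ⊓ X₂ = ⊥ ∧ X₁ ⊔ X₂ = X

/-- Superdecomposable modules: non-zero, and no non-zero direct summand is indecomposable. -/
def Superdecomposable (S : Type u) [Ring S] (N : Type v) [AddCommGroup N] [Module S N] : Prop :=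
  Nontrivial N ∧ ∀ X Y : Submodule S N, IsCompl X Y → X ≠ ⊥ → Decomposable X

/-- No non-zero submodule is uniform. -/
def NoUnif (Λ : Type u) [Ring Λ] (Q : Type v) [AddCommGroup Q] [Module Λ Q] : Prop :=
  ∀ V : Submodule Λ Q, V ≠ ⊥ →
    ∃ V₁ V₂ : Submodule Λ Q, V₁ ≤ V ∧ V₂ ≤ V ∧ V₁ ≠ ⊥ ∧ V₂ ≠ ⊥ ∧ V₁ ⊓ V₂ = ⊥

/-! ### Lattices -/

/-- The axioms for a notion of a big interval in a modular lattice. -/
structure BigRel {L : Type u} [Lattice L] (B : L → L → Prop) : Prop where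
  lt : ∀ a b, B a b → a < b
  cut : ∀ a b c, a ≤ c → c ≤ b → B a b → B a c ∨ B c b
  proj : ∀ a b, B (a ⊓ b) a ↔ B b (a ⊔ b)
  split : ∀ a b, B a b → ∃ c₁ c₂, a ≤ c₁ ∧ c₁ ≤ b ∧ a ≤ c₂ ∧ c₂ ≤ b ∧ B (c₁ ⊓ c₂) c₁ ∧
    B (c₁ ⊓ c₂) c₂
  mono : ∀ a b a' b', a' ≤ a → b ≤ b' → B a b → B a' b'

/-- A poset `T` with a relation `J t₁ t₂ u` (to be read as `u ≤ t₁ ⊔ t₂`) such that below every
interval there are two elements with a join condition (one half of the wide condition). -/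
def Branching {T : Type u} [Preorder T] (J : T → T → T → Prop) : Prop :=
  ∀ a b : T, a < b → ∃ t₁ t₂ u₁ u₂ : T, a ≤ t₁ ∧ a ≤ t₂ ∧ t₁ < u₁ ∧ t₂ < u₂ ∧ u₁ ≤ b ∧ u₂ ≤ b ∧
    J t₁ t₂ u₁ ∧ J t₁ t₂ u₂

/-- `μ` is strictly monotone on `[a, b]` and respects the join condition. -/
structure Good {T : Type u} [Preorder T] (J : T → T → T → Prop) {L : Type v} [Lattice L]
    (μ : T → L) (a b : T) : Prop where
  mono : ∀ x y, a ≤ x → x ≤ y → y ≤ b → μ x ≤ μ y
  strict : ∀ x y, a ≤ x → x < y → y ≤ b → μ x < μ y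
  join : ∀ t₁ t₂ w, a ≤ t₁ → t₁ ≤ b → a ≤ t₂ → t₂ ≤ b → a ≤ w → w ≤ b → J t₁ t₂ w →
    μ w ≤ μ t₁ ⊔ μ t₂

/-- Big intervals: they contain the image of a good map. -/
def Big {T : Type u} [Preorder T] (J : T → T → T → Prop) {L : Type v} [Lattice L]
    (x y : L) : Prop :=
  ∃ a b : T, a < b ∧ ∃ μ : T → L, Good J μ a b ∧ x ≤ μ a ∧ μ b ≤ y

/-! ### Fields -/

/-- `k₀` is existentially closed in `k`. -/
def EC (k₀ : Type u) (k : Type v) [Field k₀] [Field k] [Algebra k₀ k] : Prop :=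
  ∀ (F : Set k), F.Finite → ∀ a : Algebra.adjoin k₀ F, a ≠ 0 →
    ∃ ρ : Algebra.adjoin k₀ F →ₐ[k₀] k₀, ρ a ≠ 0

/-! ### Dual conditions -/

/-- The dual pp condition `Dφ` evaluated in a right module: the set of all `∑ z_j r_j` with
`∑_j z_j s_{jl} = 0` for all `l`. -/
def PP.DSat {S : Type u} [Ring S] (φ : PP S) {C : Type v} [AddCommGroup C] [Module Sᵐᵒᵖ C]
    (c : C) : Prop :=
  ∃ z : Fin φ.e → C, c = ∑ j, MulOpposite.op (φ.r j) • z j ∧
    ∀ l, ∑ j, MulOpposite.op (φ.s j l) • z j = 0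

/-- `Dφ(C)` is a submodule over the endomorphism ring of `C`. -/
def PP.dual {S : Type u} [Ring S] (φ : PP S) (C : Type v) [AddCommGroup C] [Module Sᵐᵒᵖ C] :
    Submodule (Module.End Sᵐᵒᵖ C) C where
  carrier := {c | φ.DSat c}
  zero_mem' := ⟨0, by simp, by simp⟩
  add_mem' := by
    rintro x y ⟨z, hz, hz'⟩ ⟨w, hw, hw'⟩
    refine ⟨z + w, ?_, fun l => ?_⟩
    · simp [hz, hw, Finset.sum_add_distrib, smul_add]
    · simp [Finset.sum_add_distrib, smul_add, hz' l, hw' l]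
  smul_mem' := by
    rintro g x ⟨z, hz, hz'⟩
    refine ⟨fun j => g (z j), ?_, fun l => ?_⟩
    · change g x = _
      rw [hz, map_sum]
      simp
    · have := congrArg g (hz' l)
      rw [map_sum] at this
      simpa using this

/-- Change of coefficients. -/
def PP.map {S : Type u} {S' : Type v} (f : S → S') (φ : PP S) : PP S' where
  m := φ.m
  e := φ.e
  r := fun j => f (φ.r j)
  s := fun j l => f (φ.s j l)

/-- The conjunction of two pp conditions. -/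
def PP.inf {S : Type u} [Ring S] (φ ψ : PP S) : PP S where
  m := φ.m + ψ.m
  e := φ.e + ψ.e
  r := Fin.append φ.r ψ.r
  s := Fin.append (fun j => Fin.append (φ.s j) (fun _ => 0))
    (fun j => Fin.append (fun _ => 0) (ψ.s j))

/-! ### The sum of all finitely presented modules -/

/-- Finite presentations. -/
def Idx (R : Type u) [Ring R] : Type u := Σ b : ℕ, {K : Submodule R (Fin b → R) // K.FG}

/-- The module of a finite presentation. -/
abbrev Md (R : Type u) [Ring R] (j : Idx R) : Type u := (Fin j.1 → R) ⧸ j.2.1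

/-- The direct sum of all finitely presented modules. -/
def CC (R : Type u) [Ring R] : Type u := DirectSum (Idx R) (fun j => Md R j)

noncomputable instance (R : Type u) [Ring R] : AddCommGroup (CC R) :=
  inferInstanceAs (AddCommGroup (DirectSum (Idx R) (fun j => Md R j)))

noncomputable instance (R : Type u) [Ring R] : Module R (CC R) :=
  inferInstanceAs (Module R (DirectSum (Idx R) (fun j => Md R j)))

open Classical in
/-- The inclusions. -/
noncomputable def inc (R : Type u) [Ring R] (j : Idx R) : Md R j →ₗ[R] CC R :=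
  DirectSum.lof R (Idx R) (fun j => Md R j) j

/-- The components. -/
noncomputable def cmp (R : Type u) [Ring R] (j : Idx R) : CC R →ₗ[R] Md R j :=
  DirectSum.component R (Idx R) (fun j => Md R j) j

/-- The projections. -/
noncomputable def pr (R : Type u) [Ring R] (j : Idx R) : Module.End R (CC R) :=
  (inc R j).comp (cmp R j)

/-- The index of the free module of rank one. -/
def j0 (R : Type u) [Ring R] : Idx R := ⟨1, ⊥, Submodule.fg_bot⟩

/-- Right multiplication on `Fin 1 → Sᵐᵒᵖ`. -/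
def rmul (S : Type u) [Ring S] (s : S) : (Fin 1 → Sᵐᵒᵖ) →ₗ[Sᵐᵒᵖ] (Fin 1 → Sᵐᵒᵖ) where
  toFun f i := f i * MulOpposite.op s
  map_add' f g := by ext i; simp [add_mul]
  map_smul' a f := by ext i; simp [mul_assoc]

/-- Right multiplication on the summand `Sᵐᵒᵖ`. -/
def rmulQ (S : Type u) [Ring S] (s : S) : Md Sᵐᵒᵖ (j0 Sᵐᵒᵖ) →ₗ[Sᵐᵒᵖ] Md Sᵐᵒᵖ (j0 Sᵐᵒᵖ) :=
  Submodule.mapQ (⊥ : Submodule Sᵐᵒᵖ (Fin 1 → Sᵐᵒᵖ)) ⊥ (rmul S s) bot_le

/-- The ring `S` acts on `CC Sᵐᵒᵖ` through the summand `Sᵐᵒᵖ`. -/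
noncomputable def th (S : Type u) [Ring S] (s : S) : Module.End Sᵐᵒᵖ (CC Sᵐᵒᵖ) :=
  (inc Sᵐᵒᵖ (j0 Sᵐᵒᵖ)).comp ((rmulQ S s).comp (cmp Sᵐᵒᵖ (j0 Sᵐᵒᵖ)))

section
variable (k : Type u) [Field k] (R : Type u) [Ring R] [Algebra k R]

noncomputable instance : Module k (CC R) :=
  inferInstanceAs (Module k (DirectSum (Idx R) (fun j => Md R j)))

instance : IsScalarTower k R (CC R) :=
  inferInstanceAs (IsScalarTower k R (DirectSum (Idx R) (fun j => Md R j)))

noncomputable example : Algebra k (Module.End R (CC R)) := inferInstance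

end

/-! ### Corner rings -/

/-- `θ` identifies `S` with the corner `θ 1 * Λ * θ 1` of `Λ`, and the idempotents `ε j` are such
that `ε j * Λ * θ 1` is a finitely presented right `S`-module in a functorial way. -/
structure Corner {Λ S : Type u} [Ring Λ] [Ring S] (θ : S → Λ) {J : Type v} (ε : J → Λ) :
    Prop where
  add : ∀ s t, θ (s + t) = θ s + θ t
  mul : ∀ s t, θ (s * t) = θ s * θ t
  surj : ∀ l : Λ, ∃ s, θ s = θ 1 * l * θ 1
  idem : ∀ j, ε j * ε j = ε j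
  fin : ∀ c : Λ, c * θ 1 = c → ∃ F : Finset J, ∀ F' : Finset J, F ⊆ F' → c = ∑ j ∈ F', ε j * c
  pres : ∀ j, ∃ (b a : ℕ) (d : Fin b → Λ) (H : Fin b → Fin a → S),
    (∀ l, ε j * d l = d l ∧ d l * θ 1 = d l) ∧
    (∀ t, ∑ l, d l * θ (H l t) = 0) ∧
    (∀ c, ε j * c = c → c * θ 1 = c → ∃ r : Fin b → S, c = ∑ l, d l * θ (r l)) ∧
    (∀ c : Fin b → Λ, (∀ l, c l * θ 1 = c l) → (∀ t, ∑ l, c l * θ (H l t) = 0) →
      ∃ l' : Λ, ∀ l, c l = l' * d l) ∧
    (∀ l' : Λ, l' * ε j = l' → (∀ l, l' * d l = 0) → l' = 0)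

end Pool.Agent.H35SD
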