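import Pool.Agent.Helper35.SD.Defs

/-!
# Block DUAL: elementary duality of pp conditions
-/

namespace Pool.Agent.H35SD

universe u v

open MulOpposite

/-! ### The matrix condition -/

/-- `φ ≤ ψ` in terms of matrices. -/
def dualMat {S : Type u} [Ring S] (φ ψ : PP S) : Prop :=
  ∃ (g0 : Fin ψ.m → S) (g : Fin ψ.m → Fin φ.m → S) (h : Fin ψ.e → Fin φ.e → S),
    (∀ i, ψ.r i + ∑ l, ψ.s i l * g0 l = ∑ j, h i j * φ.r j) ∧
    ∀ i t, ∑ l, ψ.s i l * g l t = ∑ j, h i j * φ.s j t

/-- The rows of the free realisation. -/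
def dualRow {S : Type u} [Ring S] (φ : PP S) (j : Fin φ.e) : Option (Fin φ.m) → S
  | none => φ.r j
  | some l => φ.s j l

theorem dualMat_of_le {S : Type u} [Ring S] {φ ψ : PP S} (h : φ.le ψ) : dualMat φ ψ := by
  classical
  let K : Submodule S (Option (Fin φ.m) → S) := Submodule.span S (Set.range (dualRow φ))
  let q := K.mkQ
  have hSat : φ.Sat (q (Pi.single none 1)) := by
    refine ⟨fun l => q (Pi.single (some l) 1), fun j => ?_⟩
    have h1 : φ.r j • (Pi.single none 1 : Option (Fin φ.m) → S)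
        + ∑ l, φ.s j l • (Pi.single (some l) 1 : Option (Fin φ.m) → S) = dualRow φ j := by
      ext o
      cases o with
      | none => simp [dualRow, Finset.sum_apply]
      | some l => simp [dualRow, Finset.sum_apply, Pi.single_apply]
    simp only [← map_smul, ← map_sum, ← map_add]
    rw [h1]
    exact (Submodule.Quotient.mk_eq_zero K).2 (Submodule.subset_span ⟨j, rfl⟩)
  obtain ⟨y, hy⟩ := h _ _ hSat
  have hlift : ∀ l, ∃ v : Option (Fin φ.m) → S, q v = y l := fun l => K.mkQ_surjective _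
  choose v hv using hlift
  have hmem : ∀ i, ψ.r i • (Pi.single none 1 : Option (Fin φ.m) → S)
      + ∑ l, ψ.s i l • v l ∈ K := by
    intro i
    rw [← Submodule.Quotient.mk_eq_zero K]
    have := hy i
    simp only [← hv, ← map_smul, ← map_sum, ← map_add] at this
    exact this
  have hco : ∀ i, ∃ c : Fin φ.e → S, ∑ j, c j • dualRow φ j =
      ψ.r i • (Pi.single none 1 : Option (Fin φ.m) → S) + ∑ l, ψ.s i l • v l := fun i =>
    (Submodule.mem_span_range_iff_exists_fun S).1 (hmem i)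
  choose c hc using hco
  refine ⟨fun l => v l none, fun l t => v l (some t), c, fun i => ?_, fun i t => ?_⟩
  · have := congrFun (hc i) none
    simpa [dualRow, Finset.sum_apply] using this.symm
  · have := congrFun (hc i) (some t)
    simpa [dualRow, Finset.sum_apply] using this.symm

theorem dualLe_of_mat {S : Type u} [Ring S] {φ ψ : PP S} (h : dualMat φ ψ) : φ.le ψ := by
  obtain ⟨g0, g, a, h1, h2⟩ := h
  rintro M _ _ x ⟨y, hy⟩
  refine ⟨fun l => g0 l • x + ∑ t, g l t • y t, fun i => ?_⟩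
  have h3 : ψ.r i • x + ∑ l, ψ.s i l • (g0 l • x + ∑ t, g l t • y t)
      = (ψ.r i + ∑ l, ψ.s i l * g0 l) • x + ∑ t, (∑ l, ψ.s i l * g l t) • y t := by
    simp only [add_smul, Finset.sum_smul, smul_add, Finset.sum_add_distrib, mul_smul,
      Finset.smul_sum]
    rw [Finset.sum_comm (f := fun l t => ψ.s i l • g l t • y t)]
    abel
  rw [h3, h1]
  simp only [h2]
  have h4 : (∑ j, a i j * φ.r j) • x + ∑ t, (∑ j, a i j * φ.s j t) • y t
      = ∑ j, a i j • (φ.r j • x + ∑ t, φ.s j t • y t) := by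
    simp only [Finset.sum_smul, smul_add, Finset.sum_add_distrib, mul_smul, Finset.smul_sum]
    rw [Finset.sum_comm (f := fun j t => a i j • φ.s j t • y t)]
  rw [h4]
  exact Finset.sum_eq_zero fun j _ => by rw [hy j, smul_zero]

theorem dualDual_of_mat {S : Type u} [Ring S] {φ ψ : PP S} (h : dualMat φ ψ) (C : Type v)
    [AddCommGroup C] [Module Sᵐᵒᵖ C] : ψ.dual C ≤ φ.dual C := by
  obtain ⟨g0, g, a, h1, h2⟩ := h
  rintro c ⟨z, hz, hz'⟩
  refine ⟨fun j => ∑ i, op (a i j) • z i, ?_, fun t => ?_⟩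
  · have h3 : ∑ j, op (φ.r j) • ∑ i, op (a i j) • z i = ∑ i, op (∑ j, a i j * φ.r j) • z i := by
      simp only [Finset.smul_sum, Finset.op_sum, op_mul, Finset.sum_smul, mul_smul]
      rw [Finset.sum_comm]
    rw [h3]
    simp only [← h1]
    have h4 : ∑ i, op (ψ.r i + ∑ l, ψ.s i l * g0 l) • z i =
        ∑ i, op (ψ.r i) • z i + ∑ l, op (g0 l) • ∑ i, op (ψ.s i l) • z i := by
      simp only [op_add, add_smul, Finset.sum_add_distrib, Finset.op_sum, Finset.sum_smul, op_mul,
        mul_smul, Finset.smul_sum]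
      rw [Finset.sum_comm (f := fun i l => op (g0 l) • op (ψ.s i l) • z i)]
    rw [h4, hz]
    simp only [hz', smul_zero, Finset.sum_const_zero, add_zero]
  · have h3 : ∑ j, op (φ.s j t) • ∑ i, op (a i j) • z i =
        ∑ i, op (∑ j, a i j * φ.s j t) • z i := by
      simp only [Finset.smul_sum, Finset.op_sum, op_mul, Finset.sum_smul, mul_smul]
      rw [Finset.sum_comm]
    rw [h3]
    simp only [← h2]
    have h4 : ∑ i, op (∑ l, ψ.s i l * g l t) • z i =
        ∑ l, op (g l t) • ∑ i, op (ψ.s i l) • z i := by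
      simp only [Finset.op_sum, Finset.sum_smul, op_mul, mul_smul, Finset.smul_sum]
      rw [Finset.sum_comm (f := fun i l => op (g l t) • op (ψ.s i l) • z i)]
    rw [h4]
    simp only [hz', smul_zero, Finset.sum_const_zero]

/-! ### The generic element -/

section generic

variable {S : Type u} [Ring S] (φ : PP S)

/-- The relations of the right module `C_φ`. -/
def dualK : Submodule Sᵐᵒᵖ (Fin φ.e → Sᵐᵒᵖ) :=
  Submodule.span Sᵐᵒᵖ (Set.range fun l => fun j => op (φ.s j l))

/-- The index of `C_φ`. -/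
def dualIdx : Idx Sᵐᵒᵖ := ⟨φ.e, dualK φ, by
  classical
  exact Submodule.fg_span (Set.finite_range _)⟩

/-- The projection to `C_φ`. -/
def dualQ : (Fin φ.e → Sᵐᵒᵖ) →ₗ[Sᵐᵒᵖ] Md Sᵐᵒᵖ (dualIdx φ) := (dualK φ).mkQ

theorem dualQ_eq_zero {x : Fin φ.e → Sᵐᵒᵖ} : dualQ φ x = 0 ↔ x ∈ dualK φ :=
  Submodule.Quotient.mk_eq_zero (dualK φ)

theorem dualQ_surjective : Function.Surjective (dualQ φ) := (dualK φ).mkQ_surjective

/-- The basis vectors of `C_φ`. -/
def dualE (j : Fin φ.e) : Md Sᵐᵒᵖ (dualIdx φ) := dualQ φ (Pi.single j (1 : Sᵐᵒᵖ))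

theorem dualE_rel (l : Fin φ.m) : ∑ j, op (φ.s j l) • dualE φ j = 0 := by
  classical
  unfold dualE
  simp only [← map_smul, ← map_sum]
  rw [dualQ_eq_zero]
  have h1 : ∑ j, op (φ.s j l) • (Pi.single j (1 : Sᵐᵒᵖ) : Fin φ.e → Sᵐᵒᵖ)
      = fun j => op (φ.s j l) := by
    ext i
    simp [Finset.sum_apply, Pi.single_apply]
  rw [h1]
  exact Submodule.subset_span ⟨l, rfl⟩

/-- The generic element of `Dφ` in `CC`. -/
noncomputable def dualGen : CC Sᵐᵒᵖ :=
  inc Sᵐᵒᵖ (dualIdx φ) (∑ j, op (φ.r j) • dualE φ j)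

theorem cmp_inc {R : Type u} [Ring R] (j : Idx R) (x : Md R j) : cmp R j (inc R j x) = x := by
  classical
  exact DirectSum.component.lof_self R j x

theorem dualGen_mem : dualGen φ ∈ φ.dual (CC Sᵐᵒᵖ) := by
  refine ⟨fun j => inc Sᵐᵒᵖ (dualIdx φ) (dualE φ j), ?_, fun l => ?_⟩
  · unfold dualGen
    rw [map_sum]
    simp only [map_smul]
  · simp only [← map_smul, ← map_sum]
    rw [dualE_rel, map_zero]

end generic

theorem dual_fg {S : Type u} [Ring S] (φ : PP S) : (φ.dual (CC Sᵐᵒᵖ)).FG := by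
  classical
  refine ⟨{dualGen φ}, le_antisymm ?_ ?_⟩
  · rw [Submodule.span_le]
    intro x hx
    rw [Finset.coe_singleton, Set.mem_singleton_iff] at hx
    rw [hx]
    exact dualGen_mem φ
  · rintro c ⟨z, hz, hz'⟩
    rw [Finset.coe_singleton, Submodule.mem_span_singleton]
    let f : (Fin φ.e → Sᵐᵒᵖ) →ₗ[Sᵐᵒᵖ] CC Sᵐᵒᵖ := Fintype.linearCombination Sᵐᵒᵖ z
    have hf : dualK φ ≤ LinearMap.ker f := by
      unfold dualK
      rw [Submodule.span_le]
      rintro _ ⟨l, rfl⟩
      rw [SetLike.mem_coe, LinearMap.mem_ker, Fintype.linearCombination_apply]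
      exact hz' l
    let F : Md Sᵐᵒᵖ (dualIdx φ) →ₗ[Sᵐᵒᵖ] CC Sᵐᵒᵖ := (dualK φ).liftQ f hf
    have hF : ∀ j, F (dualE φ j) = z j := by
      intro j
      have : F (dualE φ j) = f (Pi.single j 1) := (dualK φ).liftQ_apply f _
      rw [this, Fintype.linearCombination_apply_single, one_smul]
    refine ⟨F.comp (cmp Sᵐᵒᵖ (dualIdx φ)), ?_⟩
    change F (cmp Sᵐᵒᵖ (dualIdx φ) (dualGen φ)) = c
    unfold dualGen
    rw [cmp_inc, map_sum, hz]
    simp only [map_smul, hF]

theorem dual_inf {S : Type u} [Ring S] (φ ψ : PP S) (C : Type v) [AddCommGroup C]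
    [Module Sᵐᵒᵖ C] : (φ.inf ψ).dual C = φ.dual C ⊔ ψ.dual C := by
  apply le_antisymm
  · rintro c ⟨z, hz, hz'⟩
    have hz1 : c = ∑ j, op (φ.r j) • z (Fin.castAdd _ j)
        + ∑ j, op (ψ.r j) • z (Fin.natAdd _ j) := by
      rw [hz]
      change ∑ j : Fin (φ.e + ψ.e), op (Fin.append φ.r ψ.r j) • z j = _
      rw [Fin.sum_univ_add]
      simp only [Fin.append_left, Fin.append_right]
    rw [hz1]
    refine Submodule.add_mem_sup ⟨fun j => z (Fin.castAdd _ j), rfl, fun l => ?_⟩
      ⟨fun j => z (Fin.natAdd _ j), rfl, fun l => ?_⟩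
    · have := hz' (Fin.castAdd _ l)
      change ∑ j : Fin (φ.e + ψ.e), op ((φ.inf ψ).s j (Fin.castAdd _ l)) • z j = 0 at this
      rw [Fin.sum_univ_add] at this
      simpa [PP.inf, Fin.append_left, Fin.append_right] using this
    · have := hz' (Fin.natAdd _ l)
      change ∑ j : Fin (φ.e + ψ.e), op ((φ.inf ψ).s j (Fin.natAdd _ l)) • z j = 0 at this
      rw [Fin.sum_univ_add] at this
      simpa [PP.inf, Fin.append_left, Fin.append_right] using this
  · rw [sup_le_iff]
    constructor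
    · rintro c ⟨z, hz, hz'⟩
      refine ⟨Fin.append z (fun _ => 0), ?_, fun l => ?_⟩
      · change c = ∑ j : Fin (φ.e + ψ.e), op (Fin.append φ.r ψ.r j) • Fin.append z (fun _ => 0) j
        rw [Fin.sum_univ_add]
        simpa [Fin.append_left, Fin.append_right] using hz
      · change ∑ j : Fin (φ.e + ψ.e), op ((φ.inf ψ).s j l) • Fin.append z (fun _ => 0) j = 0
        rw [Fin.sum_univ_add]
        refine Fin.addCases (fun l => ?_) (fun l => ?_) l
        · simpa [PP.inf, Fin.append_left, Fin.append_right] using hz' l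
        · simp [PP.inf, Fin.append_left, Fin.append_right]
    · rintro c ⟨z, hz, hz'⟩
      refine ⟨Fin.append (fun _ => 0) z, ?_, fun l => ?_⟩
      · change c = ∑ j : Fin (φ.e + ψ.e), op (Fin.append φ.r ψ.r j) • Fin.append (fun _ => 0) z j
        rw [Fin.sum_univ_add]
        simpa [Fin.append_left, Fin.append_right] using hz
      · change ∑ j : Fin (φ.e + ψ.e), op ((φ.inf ψ).s j l) • Fin.append (fun _ => 0) z j = 0
        rw [Fin.sum_univ_add]
        refine Fin.addCases (fun l => ?_) (fun l => ?_) l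
        · simp [PP.inf, Fin.append_left, Fin.append_right]
        · simpa [PP.inf, Fin.append_left, Fin.append_right] using hz' l

theorem inf_le_left {S : Type u} [Ring S] (φ ψ : PP S) : (φ.inf ψ).le φ := by
  rintro M _ _ x ⟨y, hy⟩
  refine ⟨fun l => y (Fin.castAdd _ l), fun j => ?_⟩
  have := hy (Fin.castAdd _ j)
  change Fin.append φ.r ψ.r (Fin.castAdd _ j) • x
    + ∑ l : Fin (φ.m + ψ.m), (φ.inf ψ).s (Fin.castAdd _ j) l • y l = 0 at this
  rw [Fin.sum_univ_add] at this
  simpa [PP.inf, Fin.append_left, Fin.append_right] using this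

theorem inf_le_right {S : Type u} [Ring S] (φ ψ : PP S) : (φ.inf ψ).le ψ := by
  rintro M _ _ x ⟨y, hy⟩
  refine ⟨fun l => y (Fin.natAdd _ l), fun j => ?_⟩
  have := hy (Fin.natAdd _ j)
  change Fin.append φ.r ψ.r (Fin.natAdd _ j) • x
    + ∑ l : Fin (φ.m + ψ.m), (φ.inf ψ).s (Fin.natAdd _ j) l • y l = 0 at this
  rw [Fin.sum_univ_add] at this
  simpa [PP.inf, Fin.append_left, Fin.append_right] using this

theorem map_inf {S S' : Type u} [Ring S] [Ring S'] (f : S →+* S') (φ ψ : PP S) :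
    (φ.inf ψ).map f = (φ.map f).inf (ψ.map f) := by
  have h1 : (fun j : Fin (φ.e + ψ.e) => f (Fin.append φ.r ψ.r j))
      = Fin.append (fun j => f (φ.r j)) (fun j => f (ψ.r j)) := by
    funext j
    refine Fin.addCases (fun j => ?_) (fun j => ?_) j
    · simp [Fin.append_left]
    · simp [Fin.append_right]
  have h2 : (fun (j : Fin (φ.e + ψ.e)) (l : Fin (φ.m + ψ.m)) => f ((φ.inf ψ).s j l))
      = ((φ.map f).inf (ψ.map f)).s := by
    funext j l
    refine Fin.addCases (fun j => ?_) (fun j => ?_) j <;>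
      refine Fin.addCases (fun l => ?_) (fun l => ?_) l <;>
      simp [PP.inf, PP.map, Fin.append_left, Fin.append_right]
  unfold PP.map at h2 ⊢
  change PP.mk (φ.m + ψ.m) (φ.e + ψ.e) _ _ = PP.mk (φ.m + ψ.m) (φ.e + ψ.e) _ _
  congr 1

/-- (alpha) -/
theorem dual_le_of_le {S₀ S : Type u} [Ring S₀] [Ring S] (f : S₀ →+* S) (τ : S →+ S₀)
    (hτ : ∀ a x b, τ (f a * x * f b) = a * τ x * b) (hτ1 : τ 1 = 1) (φ ψ : PP S₀)
    (h : (φ.map f).le (ψ.map f)) (C : Type u) [AddCommGroup C] [Module S₀ᵐᵒᵖ C] :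
    ψ.dual C ≤ φ.dual C := by
  obtain ⟨g0, g, a, h1, h2⟩ := dualMat_of_le h
  have hl : ∀ s x, τ (f s * x) = s * τ x := by
    intro s x
    have := hτ s x 1
    rwa [map_one, mul_one, mul_one] at this
  have hr : ∀ s x, τ (x * f s) = τ x * s := by
    intro s x
    have := hτ 1 x s
    rwa [map_one, one_mul, one_mul] at this
  have hf : ∀ s, τ (f s) = s := by
    intro s
    have := hl s 1
    rwa [mul_one, hτ1, mul_one] at this
  apply dualDual_of_mat
  refine ⟨fun l => τ (g0 l), fun l t => τ (g l t), fun i j => τ (a i j), fun i => ?_,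
    fun i t => ?_⟩
  · have := congrArg τ (h1 i)
    rw [map_add, map_sum, map_sum] at this
    simp only [PP.map, hf, hl, hr] at this
    exact this
  · have := congrArg τ (h2 i t)
    rw [map_sum, map_sum] at this
    simp only [PP.map, hl, hr] at this
    exact this

/-- (beta) -/
theorem le_of_dual_le {S₀ S : Type u} [Ring S₀] [Ring S] (f : S₀ →+* S) (φ ψ : PP S₀)
    (h : ψ.dual (CC S₀ᵐᵒᵖ) ≤ φ.dual (CC S₀ᵐᵒᵖ)) : (φ.map f).le (ψ.map f) := by
  classical
  -- the matrix condition over `S₀`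
  have hmat : dualMat φ ψ := by
    obtain ⟨w, hw, hw'⟩ := h (dualGen_mem ψ)
    have hw1 : ∑ i, op (ψ.r i) • dualE ψ i
        = ∑ j, op (φ.r j) • cmp S₀ᵐᵒᵖ (dualIdx ψ) (w j) := by
      have := congrArg (cmp S₀ᵐᵒᵖ (dualIdx ψ)) hw
      unfold dualGen at this
      rw [cmp_inc, map_sum] at this
      simpa only [map_smul] using this
    have hw2 : ∀ t, ∑ j, op (φ.s j t) • cmp S₀ᵐᵒᵖ (dualIdx ψ) (w j) = 0 := by
      intro t
      have := congrArg (cmp S₀ᵐᵒᵖ (dualIdx ψ)) (hw' t)
      rw [map_sum, map_zero] at this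
      simpa only [map_smul] using this
    have hlift : ∀ j, ∃ v : Fin ψ.e → S₀ᵐᵒᵖ,
        dualQ ψ v = cmp S₀ᵐᵒᵖ (dualIdx ψ) (w j) := fun j => dualQ_surjective ψ _
    choose v hv using hlift
    have hco : ∀ x ∈ dualK ψ, ∃ c : Fin ψ.m → S₀ᵐᵒᵖ, ∀ i, ∑ l, c l * op (ψ.s i l) = x i := by
      intro x hx
      obtain ⟨c, hc⟩ := (Submodule.mem_span_range_iff_exists_fun S₀ᵐᵒᵖ).1 hx
      refine ⟨c, fun i => ?_⟩
      have := congrFun hc i
      simpa [Finset.sum_apply] using this
    obtain ⟨g0, hg0⟩ := hco (∑ j, op (φ.r j) • v j - fun i => op (ψ.r i)) (by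
      rw [← dualQ_eq_zero, map_sub, map_sum]
      simp only [map_smul, hv]
      rw [sub_eq_zero, ← hw1]
      unfold dualE
      simp only [← map_smul, ← map_sum]
      congr 1
      ext i
      simp [Finset.sum_apply, Pi.single_apply])
    have hg : ∀ t, ∃ c : Fin ψ.m → S₀ᵐᵒᵖ, ∀ i, ∑ l, c l * op (ψ.s i l)
        = (∑ j, op (φ.s j t) • v j) i := by
      intro t
      apply hco
      rw [← dualQ_eq_zero, map_sum]
      simp only [map_smul, hv]
      exact hw2 t
    choose g hg using hg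
    refine ⟨fun l => unop (g0 l), fun l t => unop (g t l), fun i j => unop (v j i),
      fun i => ?_, fun i t => ?_⟩
    · have := congrArg unop (hg0 i)
      simp only [Pi.sub_apply, Finset.sum_apply, Pi.smul_apply, smul_eq_mul, unop_sub, Finset.unop_sum,
        unop_mul, unop_op] at this
      rw [this]
      abel
    · have := congrArg unop (hg t i)
      simpa only [Finset.sum_apply, Pi.smul_apply, smul_eq_mul, Finset.unop_sum, unop_mul,
        unop_op] using this
  obtain ⟨g0, g, a, h1, h2⟩ := hmat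
  apply dualLe_of_mat
  refine ⟨fun l => f (g0 l), fun l t => f (g l t), fun i j => f (a i j), fun i => ?_,
    fun i t => ?_⟩
  · have := congrArg f (h1 i)
    rw [map_add, map_sum, map_sum] at this
    simp only [map_mul] at this
    exact this
  · have := congrArg f (h2 i t)
    rw [map_sum, map_sum] at this
    simp only [map_mul] at this
    exact this

end Pool.Agent.H35SD
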