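import Pool.Agent.Helper35.SD.Defs

/-!
Block ECF: countable existentially closed subfields.
-/

namespace Pool.Agent.H35SD

universe u v

section ECF

open MvPolynomial

open Classical in
/-- A chosen common zero of `T` outside the zero set of `g`, if there is one. -/
noncomputable def ecfZero {k : Type u} [Field k] (n : ℕ) (T : Finset (MvPolynomial (Fin n) k))
    (g : MvPolynomial (Fin n) k) : Fin n → k :=
  if h : ∃ z : Fin n → k, (∀ t ∈ T, eval z t = 0) ∧ eval z g ≠ 0 then h.choose else 0

theorem ecfZero_spec {k : Type u} [Field k] (n : ℕ) (T : Finset (MvPolynomial (Fin n) k))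
    (g : MvPolynomial (Fin n) k)
    (h : ∃ z : Fin n → k, (∀ t ∈ T, eval z t = 0) ∧ eval z g ≠ 0) :
    (∀ t ∈ T, eval (ecfZero n T g) t = 0) ∧ eval (ecfZero n T g) g ≠ 0 := by
  unfold ecfZero
  rw [dif_pos h]
  exact h.choose_spec

open Classical in
/-- The zeros added in one step. -/
noncomputable def ecfNew {k : Type u} [Field k] (F : Subfield k) : Set k :=
  Set.range (fun q : (Σ n : ℕ, Finset (MvPolynomial (Fin n) F) × MvPolynomial (Fin n) F × Fin n) =>
    ecfZero q.1 (q.2.1.image (MvPolynomial.map F.subtype)) (MvPolynomial.map F.subtype q.2.2.1)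
      q.2.2.2)

/-- One step of the closure. -/
noncomputable def ecfStep {k : Type u} [Field k] (F : Subfield k) : Subfield k :=
  Subfield.closure ((F : Set k) ∪ ecfNew F)

theorem ecf_le_step {k : Type u} [Field k] (F : Subfield k) : F ≤ ecfStep F :=
  fun _ hx => Subfield.subset_closure (Or.inl hx)

theorem ecf_countable_closure {k : Type u} [Field k] {s : Set k} (hs : s.Countable) :
    Countable (Subfield.closure s) := by
  have h1 := Subfield.cardinalMk_closure_le_max s
  rw [← Cardinal.mk_le_aleph0_iff]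
  exact h1.trans (max_le (Cardinal.mk_le_aleph0_iff.mpr hs) le_rfl)

theorem ecf_countable_mvPolynomial {F : Type u} [Field F] [Countable F] (n : ℕ) :
    Countable (MvPolynomial (Fin n) F) := by
  rw [← Cardinal.mk_le_aleph0_iff]
  have h1 := MvPolynomial.cardinalMk_le_max_lift (σ := Fin n) (R := F)
  refine h1.trans (max_le (max_le ?_ ?_) le_rfl)
  · simp
  · simp

theorem ecf_countable_step {k : Type u} [Field k] (F : Subfield k) (hF : Countable F) :
    Countable (ecfStep F) := by
  apply ecf_countable_closure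
  apply Set.Countable.union
  · exact hF
  · unfold ecfNew
    have : ∀ n, Countable (MvPolynomial (Fin n) F) := fun n => ecf_countable_mvPolynomial n
    exact Set.countable_range _

/-- The chain of subfields. -/
noncomputable def ecfChain {k : Type u} [Field k] (A : Set k) : ℕ → Subfield k
  | 0 => Subfield.closure A
  | n + 1 => ecfStep (ecfChain A n)

theorem ecfChain_mono {k : Type u} [Field k] (A : Set k) : Monotone (ecfChain A) :=
  monotone_nat_of_le_succ (fun _ => ecf_le_step _)

theorem ecfChain_countable {k : Type u} [Field k] (A : Set k) (hA : A.Countable) (n : ℕ) :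
    Countable (ecfChain A n) := by
  induction n with
  | zero => exact ecf_countable_closure hA
  | succ n ih => exact ecf_countable_step _ ih

theorem ecf_mem {k : Type u} [Field k] (A : Set k) (x : k) :
    x ∈ (⨆ n, ecfChain A n) ↔ ∃ n, x ∈ ecfChain A n :=
  Subfield.mem_iSup_of_directed (ecfChain_mono A).directed_le

/-- Lifting polynomials to a member of the chain. -/
theorem ecf_lift {k : Type u} [Field k] (A : Set k) (n : ℕ)
    (p : MvPolynomial (Fin n) (⨆ n, ecfChain A n : Subfield k)) :
    ∃ m, ∀ m' ≥ m, ∃ q : MvPolynomial (Fin n) (ecfChain A m'),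
      MvPolynomial.map (ecfChain A m').subtype q =
        MvPolynomial.map (⨆ n, ecfChain A n : Subfield k).subtype p := by
  induction p using MvPolynomial.induction_on with
  | C a =>
    obtain ⟨m, hm⟩ := (ecf_mem A a.1).mp a.2
    refine ⟨m, fun m' hm' => ⟨C ⟨a.1, ecfChain_mono A hm' hm⟩, ?_⟩⟩
    rw [map_C, map_C]
    rfl
  | add p q hp hq =>
    obtain ⟨m₁, h₁⟩ := hp
    obtain ⟨m₂, h₂⟩ := hq
    refine ⟨max m₁ m₂, fun m' hm' => ?_⟩
    obtain ⟨p', hp'⟩ := h₁ m' (le_trans (le_max_left _ _) hm')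
    obtain ⟨q', hq'⟩ := h₂ m' (le_trans (le_max_right _ _) hm')
    exact ⟨p' + q', by rw [map_add, map_add, hp', hq']⟩
  | mul_X p i hp =>
    obtain ⟨m, h⟩ := hp
    refine ⟨m, fun m' hm' => ?_⟩
    obtain ⟨p', hp'⟩ := h m' hm'
    exact ⟨p' * X i, by rw [map_mul, map_mul, hp', map_X, map_X]⟩

theorem ecf_lift_finset {k : Type u} [Field k] (A : Set k) (n : ℕ)
    (T : Finset (MvPolynomial (Fin n) (⨆ n, ecfChain A n : Subfield k))) :
    ∃ m, ∀ m' ≥ m, ∀ p ∈ T, ∃ q : MvPolynomial (Fin n) (ecfChain A m'),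
      MvPolynomial.map (ecfChain A m').subtype q =
        MvPolynomial.map (⨆ n, ecfChain A n : Subfield k).subtype p := by
  choose M hM using ecf_lift A n
  refine ⟨T.sup M, fun m' hm' p hp => hM p m' (le_trans (Finset.le_sup hp) hm')⟩

/-- The key property of the union of the chain. -/
theorem ecf_key {k : Type u} [Field k] (A : Set k) (n : ℕ)
    (T : Finset (MvPolynomial (Fin n) (⨆ n, ecfChain A n : Subfield k)))
    (g : MvPolynomial (Fin n) (⨆ n, ecfChain A n : Subfield k)) (x : Fin n → k)
    (hx : ∀ t ∈ T, aeval x t = 0) (hg : aeval x g ≠ 0) :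
    ∃ z : Fin n → (⨆ n, ecfChain A n : Subfield k),
      (∀ t ∈ T, aeval z t = 0) ∧ aeval z g ≠ 0 := by
  classical
  obtain ⟨m, hm⟩ := ecf_lift_finset A n (insert g T)
  have hm' := hm m le_rfl
  choose! L hL using hm'
  have hev : ∀ (y : Fin n → k) (p : MvPolynomial (Fin n) (⨆ n, ecfChain A n : Subfield k)),
      eval y (MvPolynomial.map (⨆ n, ecfChain A n : Subfield k).subtype p) = aeval y p := by
    intro y p
    rw [eval_map, aeval_def]
    rfl
  have hzero := ecfZero_spec n ((T.image L).image (MvPolynomial.map (ecfChain A m).subtype))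
    (MvPolynomial.map (ecfChain A m).subtype (L g)) ⟨x, by
      intro t ht
      obtain ⟨q, hq, rfl⟩ := Finset.mem_image.mp ht
      obtain ⟨p, hp, rfl⟩ := Finset.mem_image.mp hq
      rw [hL p (Finset.mem_insert_of_mem hp), hev]
      exact hx p hp, by
      rw [hL g (Finset.mem_insert_self _ _), hev]
      exact hg⟩
  set z := ecfZero n ((T.image L).image (MvPolynomial.map (ecfChain A m).subtype))
    (MvPolynomial.map (ecfChain A m).subtype (L g)) with hz
  have hzm : ∀ i, z i ∈ (⨆ n, ecfChain A n : Subfield k) := by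
    intro i
    rw [ecf_mem]
    refine ⟨m + 1, ?_⟩
    change _ ∈ ecfStep (ecfChain A m)
    apply Subfield.subset_closure
    right
    exact ⟨⟨n, T.image L, L g, i⟩, rfl⟩
  refine ⟨fun i => ⟨z i, hzm i⟩, ?_, ?_⟩
  · intro t ht
    have h1 := hzero.1 (MvPolynomial.map (ecfChain A m).subtype (L t))
      (Finset.mem_image_of_mem _ (Finset.mem_image_of_mem _ ht))
    rw [hL t (Finset.mem_insert_of_mem ht), hev] at h1
    have h2 : aeval z t = (⨆ n, ecfChain A n : Subfield k).subtype
        (aeval (fun i => (⟨z i, hzm i⟩ : (⨆ n, ecfChain A n : Subfield k))) t) := by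
      rw [aeval_def, aeval_def, hom_eval₂]
      rfl
    rw [h1] at h2
    exact Subtype.ext h2.symm
  · intro h
    have h1 := hzero.2
    rw [hL g (Finset.mem_insert_self _ _), hev] at h1
    have h2 : aeval z g = (⨆ n, ecfChain A n : Subfield k).subtype
        (aeval (fun i => (⟨z i, hzm i⟩ : (⨆ n, ecfChain A n : Subfield k))) g) := by
      rw [aeval_def, aeval_def, hom_eval₂]
      rfl
    rw [h, map_zero] at h2
    exact h1 h2

theorem ecf_of_key {k : Type u} [Field k] (k₀ : Subfield k)
    (key : ∀ (n : ℕ) (T : Finset (MvPolynomial (Fin n) k₀)) (g : MvPolynomial (Fin n) k₀)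
      (x : Fin n → k), (∀ t ∈ T, aeval x t = 0) → aeval x g ≠ 0 →
      ∃ z : Fin n → k₀, (∀ t ∈ T, aeval z t = 0) ∧ aeval z g ≠ 0) : EC k₀ k := by
  intro F hF a ha
  obtain ⟨n, x, -, rfl⟩ := hF.fin_param
  let x' : Fin n → Algebra.adjoin k₀ (Set.range x) :=
    fun i => ⟨x i, Algebra.subset_adjoin ⟨i, rfl⟩⟩
  let φ : MvPolynomial (Fin n) k₀ →ₐ[k₀] Algebra.adjoin k₀ (Set.range x) :=
    MvPolynomial.aeval x'
  have hφ : ∀ p, ((φ p : Algebra.adjoin k₀ (Set.range x)) : k) = MvPolynomial.aeval x p := by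
    intro p
    have := MvPolynomial.comp_aeval_apply (φ := (Algebra.adjoin k₀ (Set.range x)).val) (f := x') p
    exact this
  have hsurj : Function.Surjective φ := by
    rintro ⟨y, hy⟩
    have hy' : y ∈ (MvPolynomial.aeval (R := k₀) x).range := by
      rw [← Algebra.adjoin_range_eq_range_aeval]
      exact hy
    obtain ⟨p, hp⟩ := hy'
    exact ⟨p, Subtype.ext ((hφ p).trans hp)⟩
  obtain ⟨g, rfl⟩ := hsurj a
  obtain ⟨T, hT⟩ := (isNoetherianRing_iff_ideal_fg _).mp
    (inferInstance : IsNoetherianRing (MvPolynomial (Fin n) k₀)) (RingHom.ker φ)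
  obtain ⟨z, hz1, hz2⟩ := key n T g x (by
    intro t ht
    have h1 : t ∈ RingHom.ker φ := by
      rw [← hT]
      exact Ideal.subset_span ht
    have h2 : φ t = 0 := h1
    rw [← hφ, h2]
    rfl) (by
    intro h
    apply ha
    apply Subtype.ext
    rw [hφ]
    exact h)
  have hker : ∀ p : MvPolynomial (Fin n) k₀, p ∈ RingHom.ker φ →
      MvPolynomial.aeval (R := k₀) z p = 0 := by
    intro p hp
    rw [← hT] at hp
    have h1 : Ideal.span (T : Set (MvPolynomial (Fin n) k₀)) ≤
        RingHom.ker (MvPolynomial.aeval (R := k₀) z) :=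
      Ideal.span_le.mpr (fun t ht => hz1 t ht)
    exact h1 hp
  let ρ : Algebra.adjoin k₀ (Set.range x) →ₐ[k₀] k₀ :=
    (Ideal.Quotient.liftₐ (RingHom.ker φ) (MvPolynomial.aeval (R := k₀) z) hker).comp
      (Ideal.quotientKerAlgEquivOfSurjective hsurj).symm.toAlgHom
  refine ⟨ρ, ?_⟩
  have h3 : ρ (φ g) = MvPolynomial.aeval (R := k₀) z g := by
    have h4 : (Ideal.quotientKerAlgEquivOfSurjective hsurj).symm (φ g) =
        Ideal.Quotient.mk (RingHom.ker φ) g := by
      rw [AlgEquiv.symm_apply_eq]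
      rfl
    change (Ideal.Quotient.liftₐ (RingHom.ker φ) (MvPolynomial.aeval (R := k₀) z) hker)
      ((Ideal.quotientKerAlgEquivOfSurjective hsurj).symm (φ g)) = _
    rw [h4]
    rfl
  rw [h3]
  exact hz2

end ECF

/-- Countable existentially closed subfields. -/
theorem exists_EC_subfield {k : Type u} [Field k] (A : Set k) (hA : A.Countable) :
    ∃ k₀ : Subfield k, A ⊆ k₀ ∧ Countable k₀ ∧ EC k₀ k := by
  refine ⟨⨆ n, ecfChain A n, ?_, ?_, ?_⟩
  · intro x hx
    exact (ecf_mem A x).mpr ⟨0, Subfield.subset_closure hx⟩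
  · have h1 : (((⨆ n, ecfChain A n : Subfield k) : Set k)).Countable := by
      rw [Subfield.coe_iSup_of_directed (ecfChain_mono A).directed_le]
      exact Set.countable_iUnion (fun n => (ecfChain_countable A hA n))
    exact h1
  · exact ecf_of_key _ (ecf_key A)

end Pool.Agent.H35SD
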