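import Pool.Agent.Helper35.SD.ECfield

/-!
# MP_823891_al, block RED1: forms over countable existentially closed subfields
-/

open scoped TensorProduct

namespace Pool.Agent.H35SD

universe u v

/-- Forms over countable existentially closed subfields. -/
theorem exists_form {k S : Type u} [Field k] [Ring S] [Algebra k S]
    (hS : ∃ A : Set S, A.Countable ∧ Submodule.span k A = ⊤) (A : Set S) (hA : A.Countable) :
    ∃ (k₀ : Subfield k) (S₀ : Subalgebra k₀ S), Countable k₀ ∧ EC k₀ k ∧ Countable S₀ ∧
      A ⊆ (S₀ : Set S) ∧ ∃ e : k ⊗[k₀] S₀ ≃+* S, ∀ (a : k) (s : S₀), e (a ⊗ₜ s) = a • (s : S) := by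
  classical
  obtain ⟨A', hA', hspan⟩ := hS
  obtain ⟨b, hbA, hbs, hbli⟩ := exists_linearIndependent k A'
  have hbc : b.Countable := hA'.mono hbA
  have hb : ⊤ ≤ Submodule.span k (Set.range ((↑) : b → S)) := by
    rw [Subtype.range_coe, hbs, hspan]
  let v : Module.Basis b k S := Module.Basis.mk hbli hb
  have hbcount : Countable b := hbc.to_subtype
  -- the set of coefficients
  let Z : Set k := (⋃ i : b, ⋃ j : b, ⋃ l : b, {v.repr (v i * v j) l}) ∪ (⋃ l : b, {v.repr 1 l}) ∪
    (⋃ a ∈ A, ⋃ l : b, {v.repr a l})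
  have hZ : Z.Countable := by
    refine Set.Countable.union (Set.Countable.union ?_ ?_) ?_
    · exact Set.countable_iUnion fun i => Set.countable_iUnion fun j =>
        Set.countable_iUnion fun l => Set.countable_singleton _
    · exact Set.countable_iUnion fun l => Set.countable_singleton _
    · exact hA.biUnion fun a _ => Set.countable_iUnion fun l => Set.countable_singleton _
  obtain ⟨k₀, hZk, hk₀, hEC⟩ := exists_EC_subfield Z hZ
  have hmul : ∀ i j l : b, v.repr (v i * v j) l ∈ k₀ := fun i j l => hZk (Or.inl (Or.inl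
    (Set.mem_iUnion.2 ⟨i, Set.mem_iUnion.2 ⟨j, Set.mem_iUnion.2 ⟨l, rfl⟩⟩⟩)))
  have hone : ∀ l : b, v.repr 1 l ∈ k₀ := fun l => hZk (Or.inl (Or.inr
    (Set.mem_iUnion.2 ⟨l, rfl⟩)))
  have hAk : ∀ a ∈ A, ∀ l : b, v.repr a l ∈ k₀ := fun a ha l => hZk (Or.inr
    (Set.mem_iUnion₂.2 ⟨a, ha, Set.mem_iUnion.2 ⟨l, rfl⟩⟩))
  let S₀ : Subalgebra k₀ S :=
    { carrier := {s | ∀ l, v.repr s l ∈ k₀}
      mul_mem' := fun {x y} hx hy l => by
        have h1 : x * y = ∑ i ∈ (v.repr x).support, ∑ j ∈ (v.repr y).support,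
            (v.repr x i * v.repr y j) • (v i * v j) := by
          conv_lhs => rw [← v.linearCombination_repr x, ← v.linearCombination_repr y]
          rw [Finsupp.linearCombination_apply, Finsupp.linearCombination_apply, Finsupp.sum,
            Finsupp.sum, Finset.sum_mul_sum]
          refine Finset.sum_congr rfl fun i _ => Finset.sum_congr rfl fun j _ => ?_
          rw [smul_mul_smul_comm]
        rw [h1, map_sum, Finsupp.finsetSum_apply]
        refine k₀.sum_mem fun i _ => ?_
        rw [map_sum, Finsupp.finsetSum_apply]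
        refine k₀.sum_mem fun j _ => ?_
        rw [map_smul, Finsupp.smul_apply, smul_eq_mul]
        exact k₀.mul_mem (k₀.mul_mem (hx i) (hy j)) (hmul i j l)
      add_mem' := fun {x y} hx hy l => by
        rw [map_add, Finsupp.add_apply]
        exact k₀.add_mem (hx l) (hy l)
      algebraMap_mem' := fun c l => by
        have h1 : algebraMap k₀ S c = (c : k) • (1 : S) := by
          rw [← Algebra.algebraMap_eq_smul_one]
          rfl
        rw [h1, map_smul, Finsupp.smul_apply, smul_eq_mul]
        exact k₀.mul_mem c.2 (hone l) }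
  have hmem : ∀ s : S, s ∈ S₀ ↔ ∀ l, v.repr s l ∈ k₀ := fun s => Iff.rfl
  -- `S₀` is countable
  have hcount : Countable S₀ := by
    let F : S₀ → (b →₀ k₀) := fun s => Finsupp.onFinset (v.repr (s : S)).support
      (fun l => ⟨v.repr (s : S) l, s.2 l⟩) (fun l hl => by
        rw [Finsupp.mem_support_iff]
        intro h0
        exact hl (Subtype.ext h0))
    have hF : Function.Injective F := by
      intro s s' hss
      apply Subtype.ext
      apply v.repr.injective
      ext l
      have := congrArg (fun f : b →₀ k₀ => ((f l : k₀) : k)) hss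
      exact this
    exact hF.countable
  refine ⟨k₀, S₀, hk₀, hEC, hcount, fun a ha => hAk a ha, ?_⟩
  -- the map
  let f : k ⊗[k₀] S₀ →ₐ[k] S := Algebra.TensorProduct.lift (Algebra.ofId k S) S₀.val
    (fun x y => Algebra.commutes x (y : S))
  have hf : ∀ (a : k) (s : S₀), f (a ⊗ₜ s) = a • (s : S) := fun a s => by
    rw [Algebra.smul_def]
    rfl
  have hv : ∀ i, v i ∈ S₀ := by
    intro i
    rw [hmem]
    intro l
    rw [v.repr_self, Finsupp.single_apply]
    split_ifs
    · exact k₀.one_mem
    · exact k₀.zero_mem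
  have hsurj : Function.Surjective f := by
    intro s
    refine ⟨∑ i ∈ (v.repr s).support, (v.repr s i) ⊗ₜ ⟨v i, hv i⟩, ?_⟩
    rw [map_sum]
    conv_rhs => rw [← v.linearCombination_repr s]
    rw [Finsupp.linearCombination_apply, Finsupp.sum]
    refine Finset.sum_congr rfl fun i _ => ?_
    rw [hf]
  -- the basis of `S₀`
  have hli₀ : LinearIndependent k₀ (fun i : b => (⟨v i, hv i⟩ : S₀)) := by
    have h1 : LinearIndependent k₀ v := v.linearIndependent.restrict_scalars (by
      intro x y hxy
      have : (x : k) • (1 : k) = (y : k) • (1 : k) := hxy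
      rw [smul_eq_mul, smul_eq_mul, mul_one, mul_one] at this
      exact Subtype.ext this)
    exact LinearIndependent.of_comp (Subalgebra.toSubmodule S₀).subtype h1
  have hsp₀ : ⊤ ≤ Submodule.span k₀ (Set.range fun i : b => (⟨v i, hv i⟩ : S₀)) := by
    rintro s -
    have h1 : s = ∑ i ∈ (v.repr (s : S)).support, (⟨v.repr (s : S) i, s.2 i⟩ : k₀) •
        (⟨v i, hv i⟩ : S₀) := by
      apply Subtype.ext
      rw [AddSubmonoidClass.coe_finsetSum]
      conv_lhs => rw [← v.linearCombination_repr (s : S)]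
      rw [Finsupp.linearCombination_apply, Finsupp.sum]
      rfl
    rw [h1]
    exact Submodule.sum_mem _ fun i _ => Submodule.smul_mem _ _ (Submodule.subset_span ⟨i, rfl⟩)
  let v₀ : Module.Basis b k₀ S₀ := Module.Basis.mk hli₀ hsp₀
  let w : Module.Basis b k (k ⊗[k₀] S₀) := Algebra.TensorProduct.basis k v₀
  have hfw : ∀ i, f (w i) = v i := by
    intro i
    rw [Algebra.TensorProduct.basis_apply, hf, one_smul]
    change ((Module.Basis.mk hli₀ hsp₀ i : S₀) : S) = v i
    rw [Module.Basis.mk_apply]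
  have hinj : Function.Injective f := by
    have h1 : f.toLinearMap = (w.equiv v (Equiv.refl b)).toLinearMap := by
      apply w.ext
      intro i
      change f (w i) = (w.equiv v (Equiv.refl b)) (w i)
      rw [hfw, Module.Basis.equiv_apply]
      rfl
    intro x y hxy
    have h2 : (w.equiv v (Equiv.refl b)) x = (w.equiv v (Equiv.refl b)) y := by
      have := fun z => LinearMap.congr_fun h1 z
      change f.toLinearMap x = f.toLinearMap y at hxy
      rw [this x, this y] at hxy
      exact hxy
    exact (w.equiv v (Equiv.refl b)).injective h2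
  exact ⟨RingEquiv.ofBijective f.toRingHom ⟨hinj, hsurj⟩, hf⟩

/-- A retraction of `k₀`-forms. -/
theorem exists_retraction {k₀ k S₀ : Type u} [Field k₀] [Field k] [Algebra k₀ k] [Ring S₀]
    [Algebra k₀ S₀] : ∃ τ : k ⊗[k₀] S₀ →+ S₀, τ 1 = 1 ∧
      ∀ (a b : S₀) (x : k ⊗[k₀] S₀), τ ((1 ⊗ₜ a) * x * (1 ⊗ₜ b)) = a * τ x * b := by
  obtain ⟨t, ht⟩ := LinearMap.exists_leftInverse_of_injective (Algebra.linearMap k₀ k)
    (LinearMap.ker_eq_bot.2 (algebraMap k₀ k).injective)
  have ht1 : t 1 = 1 := by
    have := LinearMap.congr_fun ht 1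
    simpa using this
  let τ : k ⊗[k₀] S₀ →ₗ[k₀] S₀ :=
    (TensorProduct.lid k₀ S₀).toLinearMap.comp (TensorProduct.map t LinearMap.id)
  have hτ : ∀ (a : k) (s : S₀), τ (a ⊗ₜ s) = t a • s := fun a s => by
    simp [τ]
  refine ⟨τ.toAddMonoidHom, ?_, ?_⟩
  · change τ 1 = 1
    rw [Algebra.TensorProduct.one_def, hτ, ht1, one_smul]
  · intro a b x
    change τ ((1 ⊗ₜ a) * x * (1 ⊗ₜ b)) = a * τ x * b
    induction x using TensorProduct.induction_on with
    | zero => simp
    | tmul c s =>
      rw [Algebra.TensorProduct.tmul_mul_tmul, Algebra.TensorProduct.tmul_mul_tmul, hτ, hτ,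
        one_mul, mul_one, mul_smul_comm, smul_mul_assoc]
    | add x y hx hy =>
      rw [mul_add, add_mul, map_add, hx, hy, map_add, mul_add, add_mul]

end Pool.Agent.H35SD
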