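import Pool.Agent.Helper35.SD.Defs

namespace Pool.Agent.H35SD

universe u v

/-- Injective hulls inside injective modules. -/
theorem exists_hull {Λ : Type u} [Ring Λ] {E : Type u} [AddCommGroup E] [Module Λ E]
    (hE : Module.Injective Λ E) (V : Submodule Λ E) :
    ∃ W W' : Submodule Λ E, V ≤ W ∧ (∀ X ≤ W, X ⊓ V = ⊥ → X = ⊥) ∧ IsCompl W W' := by
  classical
  -- a maximal essential extension of `V`
  obtain ⟨W, hVW, hW⟩ := zorn_le_nonempty₀
    {W : Submodule Λ E | V ≤ W ∧ ∀ X ≤ W, X ⊓ V = ⊥ → X = ⊥} (by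
      intro c hc hchain y hy
      refine ⟨sSup c, ⟨(hc hy).1.trans (le_sSup hy), ?_⟩, fun z hz => le_sSup hz⟩
      intro X hX hXV
      rw [Submodule.eq_bot_iff]
      intro x hx
      have hx' : x ∈ sSup c := hX hx
      rw [Submodule.mem_sSup_of_directed ⟨y, hy⟩ hchain.directedOn] at hx'
      obtain ⟨W₁, hW₁, hxW⟩ := hx'
      have h1 : Submodule.span Λ {x} ≤ W₁ := (Submodule.span_singleton_le_iff_mem x W₁).2 hxW
      have h2 : Submodule.span Λ {x} ⊓ V = ⊥ := by
        rw [eq_bot_iff, ← hXV]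
        exact inf_le_inf_right V ((Submodule.span_singleton_le_iff_mem x X).2 hx)
      have h3 := (hc hW₁).2 _ h1 h2
      rw [Submodule.span_singleton_eq_bot] at h3
      exact h3) V ⟨le_refl V, fun X hX hXV => by rwa [inf_eq_left.2 hX] at hXV⟩
  have hWV : V ≤ W := hVW
  have hWess : ∀ X ≤ W, X ⊓ V = ⊥ → X = ⊥ := hW.prop.2
  -- a maximal submodule with trivial intersection with `W`
  obtain ⟨W', -, hW'⟩ := zorn_le_nonempty₀ {W' : Submodule Λ E | Disjoint W W'} (by
      intro c hc hchain y hy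
      refine ⟨sSup c, ?_, fun z hz => le_sSup hz⟩
      change Disjoint W (sSup c)
      rw [hchain.directedOn.disjoint_sSup_right]
      exact fun b hb => hc hb) ⊥ disjoint_bot_right
  have hdis : Disjoint W W' := hW'.prop
  refine ⟨W, W', hWV, hWess, hdis, ?_⟩
  -- `W → E / W'` is an essential monomorphism
  let π : E →ₗ[Λ] E ⧸ W' := W'.mkQ
  let i : W →ₗ[Λ] E ⧸ W' := π.comp W.subtype
  have hi : Function.Injective i := by
    rw [← LinearMap.ker_eq_bot, LinearMap.ker_eq_bot']
    intro m hm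
    have h1 : (m : E) ∈ W' := (Submodule.Quotient.mk_eq_zero W').1 hm
    have h2 : (m : E) ∈ W ⊓ W' := ⟨m.2, h1⟩
    rw [disjoint_iff.1 hdis, Submodule.mem_bot] at h2
    exact Subtype.ext h2
  have hess : ∀ X : Submodule Λ (E ⧸ W'), X ⊓ LinearMap.range i = ⊥ → X = ⊥ := by
    intro X hX
    have h1 : Disjoint W (X.comap π) := by
      rw [Submodule.disjoint_def]
      intro x hx hx'
      have h2 : π x ∈ X ⊓ LinearMap.range i := ⟨hx', ⟨⟨x, hx⟩, rfl⟩⟩
      rw [hX, Submodule.mem_bot] at h2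
      have h3 : x ∈ W' := (Submodule.Quotient.mk_eq_zero W').1 h2
      exact (Submodule.disjoint_def.1 hdis) x hx h3
    have h2 : W' ≤ X.comap π := by
      intro x hx
      change π x ∈ X
      have : π x = 0 := (Submodule.Quotient.mk_eq_zero W').2 hx
      rw [this]
      exact X.zero_mem
    have h3 : X.comap π ≤ W' := hW'.le_of_ge h1 h2
    rw [Submodule.eq_bot_iff]
    intro q hq
    obtain ⟨x, rfl⟩ := Submodule.mkQ_surjective W' q
    exact (Submodule.Quotient.mk_eq_zero W').2 (h3 hq)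
  obtain ⟨ψ, hψ⟩ := hE.out i hi W.subtype
  have hψinj : Function.Injective ψ := by
    rw [← LinearMap.ker_eq_bot]
    apply hess
    rw [Submodule.eq_bot_iff]
    rintro q ⟨hq1, ⟨w, rfl⟩⟩
    have h1 : ψ (i w) = 0 := hq1
    rw [hψ] at h1
    have h2 : w = 0 := Subtype.ext h1
    rw [h2, map_zero]
  -- the range of `ψ` is an essential extension of `V` containing `W`
  have hrW : W ≤ LinearMap.range ψ := fun w hw => ⟨i ⟨w, hw⟩, hψ ⟨w, hw⟩⟩
  have hrange : LinearMap.range ψ ≤ W := by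
    apply hW.le_of_ge _ hrW
    refine ⟨hWV.trans hrW, ?_⟩
    intro X hX hXV
    have h1 : X ⊓ W = ⊥ := by
      apply hWess _ inf_le_right
      rw [eq_bot_iff, ← hXV]
      exact inf_le_inf_right V inf_le_left
    have h2 : X.comap ψ = ⊥ := by
      apply hess
      rw [Submodule.eq_bot_iff]
      rintro q ⟨hq1, ⟨w, rfl⟩⟩
      have h3 : ψ (i w) ∈ X ⊓ W := ⟨hq1, by rw [hψ]; exact w.2⟩
      rw [h1, Submodule.mem_bot] at h3
      exact hψinj (by rw [h3, map_zero])
    rw [Submodule.eq_bot_iff]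
    intro x hx
    obtain ⟨q, rfl⟩ := hX hx
    have h3 : q ∈ X.comap ψ := hx
    rw [h2, Submodule.mem_bot] at h3
    rw [h3, map_zero]
  rw [codisjoint_iff, eq_top_iff]
  intro x _
  have h1 : ψ (π x) ∈ W := hrange ⟨π x, rfl⟩
  have h2 : i ⟨ψ (π x), h1⟩ = π x := by
    apply hψinj
    rw [hψ]
    rfl
  have h3 : π (ψ (π x)) = π x := h2
  have h4 : x - ψ (π x) ∈ W' := by
    rw [← Submodule.Quotient.mk_eq_zero W', Submodule.Quotient.mk_sub]
    exact sub_eq_zero.2 h3.symm
  rw [Submodule.mem_sup]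
  exact ⟨ψ (π x), h1, x - ψ (π x), h4, by abel⟩

/-- Every module embeds in an injective module (enough injectives in `ModuleCat`). -/
theorem exists_injective {Λ : Type u} [Ring Λ] (Q : Type u) [AddCommGroup Q] [Module Λ Q] :
    ∃ (E : Type u) (_ : AddCommGroup E) (_ : Module Λ E) (i : Q →ₗ[Λ] E),
      Module.Injective Λ E ∧ Function.Injective i := by
  obtain ⟨⟨J, hJ, f, hf⟩⟩ := CategoryTheory.EnoughInjectives.presentation (ModuleCat.of Λ Q)
  refine ⟨J, inferInstance, inferInstance, f.hom, ?_, ?_⟩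
  · exact Module.injective_module_of_injective_object Λ J
  · exact (ModuleCat.mono_iff_injective f).1 hf

end Pool.Agent.H35SD
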