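import Pool.Agent.Helper35.SD.Hull

/-!
Corner modules of injective modules: pure-injectivity and superdecomposability.
-/

namespace Pool.Agent.H35SD

universe u v w

variable {Λ S : Type u} [Ring Λ] [Ring S] {θ : S → Λ} {J : Type v} {ε : J → Λ}

lemma map_eq_bot_of_inj {E F : Type*} [AddCommGroup E] [Module Λ E] [AddCommGroup F]
    [Module Λ F] {f : E →ₗ[Λ] F} (hf : Function.Injective f) (U : Submodule Λ E) :
    U.map f = ⊥ ↔ U = ⊥ := by
  constructor
  · intro h
    apply Submodule.map_injective_of_injective hf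
    rw [h, Submodule.map_bot]
  · rintro rfl
    exact Submodule.map_bot f

namespace Corner

section basic

variable (h : Corner θ ε)
include h

lemma one_one : θ 1 * θ 1 = θ 1 := by rw [← h.mul, one_mul]

lemma map_zero' : θ 0 = 0 := by
  have h1 := h.add 0 0
  rw [add_zero] at h1
  simpa using h1

lemma one_mul' (s : S) : θ 1 * θ s = θ s := by rw [← h.mul, one_mul]

lemma mul_one' (s : S) : θ s * θ 1 = θ s := by rw [← h.mul, mul_one]

lemma map_sum' {ι : Type w} (t : Finset ι) (f : ι → S) : θ (∑ i ∈ t, f i) = ∑ i ∈ t, θ (f i) := by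
  classical
  induction t using Finset.induction_on with
  | empty => simp [h.map_zero']
  | insert a s ha ih => rw [Finset.sum_insert ha, Finset.sum_insert ha, h.add, ih]

end basic

/-- The corner module. -/
def cor (_h : Corner θ ε) (E : Type u) [AddCommGroup E] [Module Λ E] : AddSubgroup E where
  carrier := {v | θ 1 • v = v}
  zero_mem' := by simp
  add_mem' := by
    intro a b ha hb
    have ha' : θ 1 • a = a := ha
    have hb' : θ 1 • b = b := hb
    change θ 1 • (a + b) = a + b
    rw [smul_add, ha', hb']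
  neg_mem' := by
    intro a ha
    have ha' : θ 1 • a = a := ha
    change θ 1 • (-a) = -a
    rw [smul_neg, ha']

section mod

variable (h : Corner θ ε) (E : Type u) [AddCommGroup E] [Module Λ E]

lemma mem_cor {v : E} : v ∈ h.cor E ↔ θ 1 • v = v := Iff.rfl

lemma smul_mem_cor (s : S) (v : E) : θ s • v ∈ h.cor E := by
  rw [mem_cor, ← mul_smul, h.one_mul']

lemma one_smul_cor (v : h.cor E) : θ 1 • (v : E) = v := v.2

instance : SMul S (h.cor E) := ⟨fun s v => ⟨θ s • (v : E), h.smul_mem_cor E s v⟩⟩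

lemma coe_smul (s : S) (v : h.cor E) : ((s • v : h.cor E) : E) = θ s • (v : E) := rfl

noncomputable instance instModuleCor : Module S (h.cor E) where
  one_smul v := Subtype.ext (h.one_smul_cor E v)
  mul_smul s t v := Subtype.ext (by
    rw [coe_smul, coe_smul, coe_smul, h.mul, mul_smul])
  smul_zero s := Subtype.ext (by rw [coe_smul]; simp)
  smul_add s v w := Subtype.ext (by
    rw [coe_smul]
    simp only [AddSubgroup.coe_add, coe_smul, smul_add])
  add_smul s t v := Subtype.ext (by
    simp only [AddSubgroup.coe_add, coe_smul, h.add, add_smul])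
  zero_smul v := Subtype.ext (by
    rw [coe_smul, h.map_zero', zero_smul]
    rfl)

end mod

/-! ### Pure-injectivity -/

section pure

lemma PureEmb.solve {A B : Type u} [AddCommGroup A] [AddCommGroup B] [Module S A]
    [Module S B] {f : A →ₗ[S] B} (hf : PureEmb f) {ι : Type w} {κ : Type*} [Fintype ι] [Fintype κ]
    (r : ι → κ → S) (a : ι → A) (y : κ → B) (hy : ∀ i, ∑ j, r i j • y j = f (a i)) :
    ∃ x : κ → A, ∀ i, ∑ j, r i j • x j = a i := by
  obtain ⟨x, hx⟩ := hf.2 (Fintype.card ι) (Fintype.card κ)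
    (fun i j => r ((Fintype.equivFin ι).symm i) ((Fintype.equivFin κ).symm j))
    (fun i => a ((Fintype.equivFin ι).symm i))
    ⟨fun j => y ((Fintype.equivFin κ).symm j), fun i => by
      rw [← hy]
      exact Equiv.sum_comp (Fintype.equivFin κ).symm
        (fun j => r ((Fintype.equivFin ι).symm i) j • y j)⟩
  refine ⟨fun j => x (Fintype.equivFin κ j), fun i => ?_⟩
  have h1 := hx (Fintype.equivFin ι i)
  simp only [Equiv.symm_apply_apply] at h1
  rw [← h1, ← Equiv.sum_comp (Fintype.equivFin κ).symm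
    (fun j => r i j • x (Fintype.equivFin κ j))]
  simp

theorem pureInjective_cor (h : Corner θ ε) {E : Type u} [AddCommGroup E] [Module Λ E]
    (hE : Module.Injective Λ E) : PureInjective S (h.cor E) := by
  classical
  intro A B _ _ _ _ f hf g
  -- relations
  let R : Type u := {w : (B →₀ S) × A // Finsupp.linearCombination S id w.1 = f w.2}
  let Φ₁ : (R →₀ Λ) →ₗ[Λ] (B →₀ Λ) :=
    Finsupp.linearCombination Λ (fun w : R => w.1.1.mapRange θ h.map_zero')
  let Φ₂ : (R →₀ Λ) →ₗ[Λ] E := Finsupp.linearCombination Λ (fun w : R => ((g w.1.2 : h.cor E) : E))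
  have hker : LinearMap.ker Φ₁ ≤ LinearMap.ker Φ₂ := by
    intro c hc
    rw [LinearMap.mem_ker] at hc ⊢
    -- the finite set of variables
    let F : Finset B := c.support.biUnion fun w => w.1.1.support
    obtain ⟨x, hx⟩ := PureEmb.solve hf (ι := c.support) (κ := F)
      (fun w b => w.1.1.1 b.1) (fun w => w.1.1.2) (fun b => b.1) (by
        intro w
        rw [← w.1.2, Finsupp.linearCombination_apply,
          Finsupp.sum_of_support_subset (s := F) _ _ _ (by simp)]
        · rw [← Finset.sum_coe_sort F]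
          rfl
        · exact Finset.subset_biUnion_of_mem (fun w : R => w.1.1.support) w.2)
    have h1 : Φ₂ c = ∑ w : c.support, c w.1 • ((g w.1.1.2 : h.cor E) : E) := by
      change Finsupp.linearCombination Λ _ c = _
      rw [Finsupp.linearCombination_apply, Finsupp.sum,
        ← Finset.sum_coe_sort c.support]
    rw [h1]
    have h2 : ∀ w : c.support, ((g w.1.1.2 : h.cor E) : E) =
        ∑ b : F, θ (w.1.1.1 b.1) • ((g (x b) : h.cor E) : E) := by
      intro w
      rw [← hx w, map_sum, AddSubgroup.val_finsetSum]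
      refine Finset.sum_congr rfl fun b _ => ?_
      rw [map_smul, coe_smul]
    simp_rw [h2, Finset.smul_sum, ← mul_smul]
    rw [Finset.sum_comm]
    refine Finset.sum_eq_zero fun b _ => ?_
    rw [← Finset.sum_smul]
    have h3 : ∑ w : c.support, c w.1 * θ (w.1.1.1 b.1) = 0 := by
      have h4 := DFunLike.congr_fun hc b.1
      change (Finsupp.linearCombination Λ (fun w : R => w.1.1.mapRange θ h.map_zero') c) b.1 = 0
        at h4
      rw [Finsupp.linearCombination_apply, Finsupp.sum, Finsupp.finsetSum_apply,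
        ← Finset.sum_coe_sort c.support] at h4
      simpa using h4
    rw [h3, zero_smul]
  obtain ⟨ψ, hψ⟩ := hE.out ((LinearMap.ker Φ₁).liftQ Φ₁ le_rfl)
    (by rw [← LinearMap.ker_eq_bot, Submodule.ker_liftQ_eq_bot _ _ _ le_rfl])
    ((LinearMap.ker Φ₁).liftQ Φ₂ hker)
  have hψ' : ∀ w : R, ψ (w.1.1.mapRange θ h.map_zero') = ((g w.1.2 : h.cor E) : E) := by
    intro w
    have h1 := hψ (Submodule.Quotient.mk (Finsupp.single w 1))
    rw [Submodule.liftQ_apply, Submodule.liftQ_apply] at h1
    simpa [Φ₁, Φ₂] using h1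
  have hdef : ∀ b : B, ψ (Finsupp.single b (θ 1)) ∈ h.cor E := by
    intro b
    rw [mem_cor, ← map_smul, Finsupp.smul_single, smul_eq_mul, h.one_one]
  have hsm : ∀ (b : B) (s : S), ψ (Finsupp.single b (θ s)) = θ s • ψ (Finsupp.single b (θ 1)) := by
    intro b s
    rw [← map_smul, Finsupp.smul_single, smul_eq_mul, h.mul_one']
  -- relations of the form `∑ s_i b_i = f a`
  refine ⟨{ toFun := fun b => ⟨ψ (Finsupp.single b (θ 1)), hdef b⟩
            map_add' := ?_
            map_smul' := ?_ }, ?_⟩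
  · intro b b'
    apply Subtype.ext
    have h1 := hψ' ⟨(Finsupp.single (b + b') 1 - Finsupp.single b 1 - Finsupp.single b' 1, 0), by
      simp⟩
    have h2 : (Finsupp.single (b + b') (1 : S) - Finsupp.single b 1
        - Finsupp.single b' 1).mapRange θ h.map_zero' =
        Finsupp.single (b + b') (θ 1) - Finsupp.single b (θ 1) - Finsupp.single b' (θ 1) := by
      have hadd : ∀ x y, θ (x - y) = θ x - θ y := by
        intro x y
        rw [eq_sub_iff_add_eq, ← h.add, sub_add_cancel]
      rw [Finsupp.mapRange_sub hadd, Finsupp.mapRange_sub hadd, Finsupp.mapRange_single,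
        Finsupp.mapRange_single, Finsupp.mapRange_single]
    rw [h2] at h1
    simp only [map_sub, map_zero, ZeroMemClass.coe_zero] at h1
    change ψ (Finsupp.single (b + b') (θ 1)) =
      ψ (Finsupp.single b (θ 1)) + ψ (Finsupp.single b' (θ 1))
    rw [sub_sub, sub_eq_zero] at h1
    exact h1
  · intro s b
    apply Subtype.ext
    have h1 := hψ' ⟨(Finsupp.single (s • b) 1 - Finsupp.single b s, 0), by simp⟩
    have h2 : (Finsupp.single (s • b) (1 : S) - Finsupp.single b s).mapRange θ h.map_zero' =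
        Finsupp.single (s • b) (θ 1) - Finsupp.single b (θ s) := by
      have hadd : ∀ x y, θ (x - y) = θ x - θ y := by
        intro x y
        rw [eq_sub_iff_add_eq, ← h.add, sub_add_cancel]
      rw [Finsupp.mapRange_sub hadd, Finsupp.mapRange_single, Finsupp.mapRange_single]
    rw [h2] at h1
    simp only [map_sub, map_zero, ZeroMemClass.coe_zero] at h1
    change ψ (Finsupp.single (s • b) (θ 1)) = θ s • ψ (Finsupp.single b (θ 1))
    rw [← hsm, ← sub_eq_zero]
    exact h1
  · intro a
    apply Subtype.ext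
    have h1 := hψ' ⟨(Finsupp.single (f a) 1, a), by simp⟩
    rw [Finsupp.mapRange_single] at h1
    exact h1

end pure


/-! ### Superdecomposability -/

section gen

/-- Elements of `ε j • E` are generated by the corner. -/
lemma exists_cor_ne_zero (h : Corner θ ε) {E : Type u} [AddCommGroup E] [Module Λ E]
    (hE : Module.Injective Λ E) {v : E} {j : J} (hv : ε j • v = v) (hv0 : v ≠ 0) :
    ∃ y : E, θ 1 • y = y ∧ y ≠ 0 := by
  classical
  obtain ⟨b, a, d, H, hd, -, -, -, hinj⟩ := h.pres j
  -- the left ideal `Λ ε_j`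
  let X : Submodule Λ Λ :=
    { carrier := {l | l * ε j = l}
      zero_mem' := by simp
      add_mem' := by
        intro x y hx hy
        have hx' : x * ε j = x := hx
        have hy' : y * ε j = y := hy
        change (x + y) * ε j = x + y
        rw [add_mul, hx', hy']
      smul_mem' := by
        intro c x hx
        have hx' : x * ε j = x := hx
        change (c • x) * ε j = c • x
        rw [smul_eq_mul, mul_assoc, hx'] }
  let f : X →ₗ[Λ] (Fin b → Λ) :=
    { toFun := fun l i => l.1 * d i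
      map_add' := by intro x y; ext i; simp [add_mul]
      map_smul' := by intro c x; ext i; simp [mul_assoc] }
  have hf : Function.Injective f := by
    rw [← LinearMap.ker_eq_bot, LinearMap.ker_eq_bot']
    intro l hl
    apply Subtype.ext
    exact hinj l.1 l.2 fun i => congrFun hl i
  let g : X →ₗ[Λ] E :=
    { toFun := fun l => l.1 • v
      map_add' := by intro x y; simp [add_smul]
      map_smul' := by intro c x; simp [mul_smul] }
  obtain ⟨ψ, hψ⟩ := hE.out f hf g
  by_contra hcon
  push Not at hcon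
  apply hv0
  have h1 := hψ ⟨ε j, h.idem j⟩
  have h2 : g ⟨ε j, h.idem j⟩ = v := hv
  have h3 : f ⟨ε j, h.idem j⟩ = ∑ i, Pi.single i (d i) := by
    rw [Finset.univ_sum_single]
    ext i
    exact (hd i).1
  rw [h2, h3, map_sum] at h1
  rw [← h1]
  refine Finset.sum_eq_zero fun i _ => ?_
  have h4 : (Pi.single i (d i) : Fin b → Λ) = d i • Pi.single i (θ 1) := by
    rw [← Pi.single_smul, smul_eq_mul, (hd i).2]
  have h5 : ψ (Pi.single i (θ 1)) = 0 := by
    by_contra h6
    refine h6 (hcon _ ?_)
    rw [← map_smul, ← Pi.single_smul, smul_eq_mul, h.one_one]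
  rw [h4, map_smul, h5, smul_zero]

/-- The relations over `Λ` between elements of the corner come from relations over `S`. -/
lemma rel (h : Corner θ ε) {E : Type u} [AddCommGroup E] [Module Λ E]
    (hE : Module.Injective Λ E) (π : h.cor E →ₗ[S] h.cor E) {ι : Type*} [Fintype ι]
    (c : ι → Λ) (x : ι → h.cor E) (h0 : ∑ i, c i • (x i : E) = 0) :
    ∑ i, c i • (π (x i) : E) = 0 := by
  classical
  -- reduce to `c i * θ 1 = c i`
  wlog hc : ∀ i, c i * θ 1 = c i generalizing c with H
  · have h1 : ∀ (i : ι) (y : h.cor E), (c i * θ 1) • (y : E) = c i • (y : E) := by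
      intro i y
      rw [mul_smul, h.one_smul_cor]
    have h2 := H (fun i => c i * θ 1) (by simpa only [h1] using h0)
      (fun i => by simp only [mul_assoc, h.one_one])
    simpa only [h1] using h2
  have key : ∀ j, ∑ i, (ε j * c i) • (π (x i) : E) = 0 := by
    intro j
    obtain ⟨b, a, d, H, hd, hdH, hgen, hker, -⟩ := h.pres j
    have hr : ∀ i, ∃ r : Fin b → S, ε j * c i = ∑ l, d l * θ (r l) := fun i =>
      hgen _ (by rw [← mul_assoc, h.idem]) (by rw [mul_assoc, hc i])
    choose r hr using hr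
    let y : Fin b → h.cor E := fun l => ∑ i, r i l • x i
    have hy : ∀ (ρ : h.cor E →ₗ[S] h.cor E), ∑ i, (ε j * c i) • (ρ (x i) : E) =
        ∑ l, d l • (ρ (y l) : E) := by
      intro ρ
      simp only [y, map_sum, AddSubgroup.val_finsetSum, map_smul, coe_smul, hr, Finset.sum_smul,
        Finset.smul_sum, mul_smul]
      rw [Finset.sum_comm]
    have hy0 : ∑ l, d l • (y l : E) = 0 := by
      have h1 := hy LinearMap.id
      simp only [LinearMap.id_apply] at h1
      rw [← h1]
      simp only [mul_smul]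
      rw [← Finset.smul_sum, h0, smul_zero]
    -- the submodule of `c` with `c θ 1 = c`
    let D : Submodule Λ (Fin b → Λ) :=
      { carrier := {c | ∀ l, c l * θ 1 = c l}
        zero_mem' := by intro l; simp
        add_mem' := by
          intro x y hx hy l
          rw [Pi.add_apply, add_mul, hx l, hy l]
        smul_mem' := by
          intro c x hx l
          rw [Pi.smul_apply, smul_eq_mul, mul_assoc, hx l] }
    let f : D →ₗ[Λ] (Fin a → Λ) :=
      { toFun := fun c t => ∑ l, c.1 l * θ (H l t)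
        map_add' := by intro x y; ext t; simp [add_mul, Finset.sum_add_distrib]
        map_smul' := by intro c x; ext t; simp [mul_assoc, Finset.mul_sum] }
    let g : D →ₗ[Λ] E :=
      { toFun := fun c => ∑ l, c.1 l • (y l : E)
        map_add' := by intro x y; simp [add_smul, Finset.sum_add_distrib]
        map_smul' := by intro c x; simp [mul_smul, Finset.smul_sum] }
    have hfg : LinearMap.ker f ≤ LinearMap.ker g := by
      intro c hcf
      rw [LinearMap.mem_ker] at hcf ⊢
      obtain ⟨l', hl'⟩ := hker c.1 c.2 fun t => congrFun hcf t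
      change ∑ l, c.1 l • (y l : E) = 0
      simp only [hl', mul_smul]
      rw [← Finset.smul_sum, hy0, smul_zero]
    obtain ⟨ψ, hψ⟩ := hE.out ((LinearMap.ker f).liftQ f le_rfl)
      (by rw [← LinearMap.ker_eq_bot, Submodule.ker_liftQ_eq_bot _ _ _ le_rfl])
      ((LinearMap.ker f).liftQ g hfg)
    have hψ' : ∀ c : D, ψ (f c) = g c := by
      intro c
      have h1 := hψ (Submodule.Quotient.mk c)
      rw [Submodule.liftQ_apply, Submodule.liftQ_apply] at h1
      exact h1
    let z : Fin a → h.cor E := fun t => ⟨ψ (Pi.single t (θ 1)), by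
      rw [mem_cor, ← map_smul, ← Pi.single_smul, smul_eq_mul, h.one_one]⟩
    have hyz : ∀ l, y l = ∑ t, H l t • z t := by
      intro l
      apply Subtype.ext
      have h1 := hψ' ⟨Pi.single l (θ 1), by
        intro l'
        rcases eq_or_ne l' l with rfl | hne
        · rw [Pi.single_eq_same, h.one_one]
        · rw [Pi.single_eq_of_ne hne, zero_mul]⟩
      have h2 : g ⟨Pi.single l (θ 1), by
        intro l'
        rcases eq_or_ne l' l with rfl | hne
        · rw [Pi.single_eq_same, h.one_one]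
        · rw [Pi.single_eq_of_ne hne, zero_mul]⟩ = (y l : E) := by
        change ∑ l', (Pi.single l (θ 1) : Fin b → Λ) l' • (y l' : E) = _
        rw [Finset.sum_eq_single l]
        · rw [Pi.single_eq_same, h.one_smul_cor]
        · intro l' _ hne
          rw [Pi.single_eq_of_ne hne, zero_smul]
        · simp
      have h3 : f ⟨Pi.single l (θ 1), by
        intro l'
        rcases eq_or_ne l' l with rfl | hne
        · rw [Pi.single_eq_same, h.one_one]
        · rw [Pi.single_eq_of_ne hne, zero_mul]⟩ = ∑ t, Pi.single t (θ (H l t)) := by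
        rw [Finset.univ_sum_single]
        ext t
        change ∑ l', (Pi.single l (θ 1) : Fin b → Λ) l' * θ (H l' t) = _
        rw [Finset.sum_eq_single l]
        · rw [Pi.single_eq_same, h.one_mul']
        · intro l' _ hne
          rw [Pi.single_eq_of_ne hne, zero_mul]
        · simp
      rw [h2, h3, map_sum] at h1
      rw [← h1, AddSubgroup.val_finsetSum]
      refine Finset.sum_congr rfl fun t _ => ?_
      rw [coe_smul]
      change ψ (Pi.single t (θ (H l t))) = θ (H l t) • ψ (Pi.single t (θ 1))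
      rw [← map_smul, ← Pi.single_smul, smul_eq_mul, h.mul_one']
    rw [hy π]
    have h4 : ∀ l, d l • (π (y l) : E) = ∑ t, (d l * θ (H l t)) • (π (z t) : E) := by
      intro l
      rw [hyz l, map_sum, AddSubgroup.val_finsetSum, Finset.smul_sum]
      refine Finset.sum_congr rfl fun t _ => ?_
      rw [map_smul, coe_smul, mul_smul]
    simp_rw [h4]
    rw [Finset.sum_comm]
    refine Finset.sum_eq_zero fun t _ => ?_
    rw [← Finset.sum_smul, hdH, zero_smul]
  have hF : ∀ i, ∃ F : Finset J, ∀ F' : Finset J, F ⊆ F' → c i = ∑ j ∈ F', ε j * c i :=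
    fun i => h.fin (c i) (hc i)
  choose F hF using hF
  let G : Finset J := Finset.univ.biUnion F
  have hG : ∀ i, c i = ∑ j ∈ G, ε j * c i := fun i =>
    hF i G (Finset.subset_biUnion_of_mem F (Finset.mem_univ i))
  have h5 : ∀ i, c i • (π (x i) : E) = ∑ j ∈ G, (ε j * c i) • (π (x i) : E) := by
    intro i
    rw [← Finset.sum_smul, ← hG i]
  rw [Finset.sum_congr rfl fun i _ => h5 i, Finset.sum_comm]
  exact Finset.sum_eq_zero fun j _ => key j

end gen

/-- Direct summands of injective modules are injective. -/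
lemma injective_of_isCompl {E : Type u} [AddCommGroup E] [Module Λ E]
    (hE : Module.Injective Λ E) {W W' : Submodule Λ E} (hW : IsCompl W W') :
    Module.Injective Λ W := by
  refine ⟨fun X Y _ _ _ _ f hf g => ?_⟩
  obtain ⟨k, hk⟩ := hE.out f hf (W.subtype.comp g)
  refine ⟨(Submodule.projectionOnto W W' hW).comp k, fun x => ?_⟩
  rw [LinearMap.comp_apply, hk]
  exact Submodule.projectionOnto_apply_left hW (g x)

/-- The submodule over `Λ` generated by a set of elements of the corner. -/
lemma mem_span_cor (h : Corner θ ε) {E : Type u} [AddCommGroup E] [Module Λ E]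
    (X : Submodule S (h.cor E)) {v : E}
    (hv : v ∈ Submodule.span Λ ((fun x : h.cor E => (x : E)) '' (X : Set (h.cor E)))) :
    ∃ (n : ℕ) (c : Fin n → Λ) (x : Fin n → h.cor E), (∀ i, x i ∈ X) ∧
      v = ∑ i, c i • (x i : E) := by
  rw [Submodule.mem_span_set'] at hv
  obtain ⟨n, c, g, hg⟩ := hv
  have hg' : ∀ i, ∃ x : h.cor E, x ∈ X ∧ (x : E) = g i := fun i => (g i).2
  choose x hx hxg using hg'
  refine ⟨n, c, x, hx, ?_⟩
  rw [← hg]
  exact Finset.sum_congr rfl fun i _ => by rw [hxg]

theorem superdecomposable_cor (h : Corner θ ε) {E : Type u} [AddCommGroup E] [Module Λ E]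
    (hE : Module.Injective Λ E) (Q : Submodule Λ E) (hQ0 : Q ≠ ⊥)
    (hess : ∀ X : Submodule Λ E, X ⊓ Q = ⊥ → X = ⊥)
    (hQ : ∀ V : Submodule Λ E, V ≤ Q → V ≠ ⊥ →
      ∃ V₁ V₂ : Submodule Λ E, V₁ ≤ V ∧ V₂ ≤ V ∧ V₁ ≠ ⊥ ∧ V₂ ≠ ⊥ ∧ V₁ ⊓ V₂ = ⊥)
    (hε : ∀ q ∈ Q, q ≠ 0 → ∃ j, ε j • q ≠ 0) :
    Superdecomposable S (h.cor E) := by
  classical
  -- non-zero submodules of `E` which are injective meet the corner
  have hgen : ∀ (W : Submodule Λ E), Module.Injective Λ W → ∀ U : Submodule Λ W,
      Module.Injective Λ U → (∃ q ∈ Q, q ≠ 0 ∧ ∃ hq : q ∈ W, (⟨q, hq⟩ : W) ∈ U) →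
      ∃ y : h.cor E, y ≠ 0 ∧ ∃ hy : (y : E) ∈ W, (⟨(y : E), hy⟩ : W) ∈ U := by
    rintro W - U hU ⟨q, hqQ, hq0, hqW, hqU⟩
    obtain ⟨j, hj⟩ := hε q hqQ hq0
    obtain ⟨y, hy1, hy0⟩ := h.exists_cor_ne_zero hU
      (v := (⟨ε j • ⟨q, hqW⟩, U.smul_mem _ hqU⟩ : U)) (j := j)
      (by
        apply Subtype.ext
        apply Subtype.ext
        change ε j • (ε j • q) = ε j • q
        rw [← mul_smul, h.idem])
      (by
        intro h0
        apply hj
        have h1 := congrArg (fun x : U => ((x : W) : E)) h0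
        exact h1)
    refine ⟨⟨((y : W) : E), ?_⟩, ?_, (y : W).2, y.2⟩
    · have h1 := congrArg (fun x : U => ((x : W) : E)) hy1
      exact h1
    · intro h0
      apply hy0
      apply Subtype.ext
      apply Subtype.ext
      exact congrArg (fun x : h.cor E => (x : E)) h0
  constructor
  · -- non-trivial
    obtain ⟨q, hq, hq0⟩ := (Submodule.ne_bot_iff Q).mp hQ0
    have htop : IsCompl (⊤ : Submodule Λ E) ⊥ := isCompl_top_bot
    have h1 := injective_of_isCompl hE htop
    have htop' : IsCompl (⊤ : Submodule Λ (⊤ : Submodule Λ E)) ⊥ := isCompl_top_bot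
    have h2 := injective_of_isCompl h1 htop'
    obtain ⟨y, hy, -⟩ := hgen ⊤ h1 ⊤ h2 ⟨q, hq, hq0, Submodule.mem_top, Submodule.mem_top⟩
    exact ⟨⟨y, 0, hy⟩⟩
  · intro X Y hXY hX0
    let sp : Submodule S (h.cor E) → Submodule Λ E := fun Z =>
      Submodule.span Λ ((fun x : h.cor E => (x : E)) '' (Z : Set (h.cor E)))
    have hsub : ∀ (Z : Submodule S (h.cor E)) (z : h.cor E), z ∈ Z → (z : E) ∈ sp Z :=
      fun Z z hz => Submodule.subset_span ⟨z, hz, rfl⟩
    -- disjointness
    have hdisj : sp X ⊓ sp Y = ⊥ := by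
      rw [Submodule.eq_bot_iff]
      rintro v ⟨hv1, hv2⟩
      obtain ⟨n, c, x, hx, hvx⟩ := h.mem_span_cor X hv1
      obtain ⟨m, c', y, hy, hvy⟩ := h.mem_span_cor Y hv2
      have h1 := h.rel hE (Submodule.projection X Y hXY)
        (Sum.elim c (fun i => - c' i) : Fin n ⊕ Fin m → Λ) (Sum.elim x y) (by
          rw [Fintype.sum_sum_type]
          simp only [Sum.elim_inl, Sum.elim_inr, neg_smul, Finset.sum_neg_distrib]
          rw [← hvx, ← hvy, add_neg_cancel])
      rw [Fintype.sum_sum_type] at h1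
      simp only [Sum.elim_inl, Sum.elim_inr] at h1
      have h2 : ∀ i, Submodule.projection X Y hXY (x i) = x i := fun i =>
        Submodule.projection_apply_of_mem_left hXY (hx i)
      have h3 : ∀ i, Submodule.projection X Y hXY (y i) = 0 := fun i =>
        (Submodule.projection_apply_eq_zero_iff hXY).mpr (hy i)
      simp only [h2, h3, ZeroMemClass.coe_zero, smul_zero, Finset.sum_const_zero, add_zero] at h1
      rw [hvx, h1]
    have hV0 : sp X ≠ ⊥ := by
      obtain ⟨x, hx, hx0⟩ := (Submodule.ne_bot_iff X).mp hX0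
      intro h0
      have h1 := hsub X x hx
      rw [h0, Submodule.mem_bot] at h1
      exact hx0 (Subtype.ext h1)
    have hVQ : sp X ⊓ Q ≠ ⊥ := fun h0 => hV0 (hess _ h0)
    obtain ⟨V₁, V₂, hV1, hV2, hV10, hV20, hV12⟩ := hQ _ inf_le_right hVQ
    obtain ⟨W, W', hVW, hWess, hWW'⟩ := exists_hull hE (sp X)
    have hWinj := injective_of_isCompl hE hWW'
    have hWY : W ⊓ sp Y = ⊥ := by
      refine hWess _ inf_le_left ?_
      rw [eq_bot_iff]
      refine le_trans ?_ hdisj.le
      exact le_inf inf_le_right (inf_le_left.trans inf_le_right)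
    have hXW : ∀ n : h.cor E, (n : E) ∈ W → n ∈ X := by
      intro n hn
      obtain ⟨x, hx, y, hy, rfl⟩ := Submodule.mem_sup.mp
        ((hXY.sup_eq_top ▸ Submodule.mem_top : n ∈ X ⊔ Y))
      have h1 : (y : E) ∈ W := by
        have h2 : (y : E) = ((x + y : h.cor E) : E) - (x : E) := by
          rw [AddSubgroup.coe_add]; abel
        rw [h2]
        exact W.sub_mem hn (hVW (hsub X x hx))
      have h3 : (y : E) ∈ W ⊓ sp Y := ⟨h1, hsub Y y hy⟩
      rw [hWY, Submodule.mem_bot] at h3
      have h4 : y = 0 := Subtype.ext h3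
      rw [h4, add_zero]
      exact hx
    -- the hull of `V₁` in `W`
    obtain ⟨U₁, U₂, hU1, hU1ess, hU12⟩ := exists_hull hWinj (V₁.comap W.subtype)
    have hU1inj := injective_of_isCompl hWinj hU12
    have hU2inj := injective_of_isCompl hWinj hU12.symm
    have hV1W : V₁ ≤ W := (hV1.trans inf_le_left).trans hVW
    have hV2W : V₂ ≤ W := (hV2.trans inf_le_left).trans hVW
    let K : Submodule Λ W → Submodule S (h.cor E) := fun U =>
      { carrier := {n | ∃ hn : (n : E) ∈ W, (⟨(n : E), hn⟩ : W) ∈ U}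
        zero_mem' := ⟨W.zero_mem, U.zero_mem⟩
        add_mem' := by
          rintro a b ⟨ha, ha'⟩ ⟨hb, hb'⟩
          exact ⟨W.add_mem ha hb, U.add_mem ha' hb'⟩
        smul_mem' := by
          rintro s a ⟨ha, ha'⟩
          exact ⟨W.smul_mem (θ s) ha, U.smul_mem (θ s) ha'⟩ }
    refine ⟨K U₁, K U₂, ?_, ?_, ?_, ?_⟩
    · -- `U₁` meets the corner
      obtain ⟨q, hq, hq0⟩ := (Submodule.ne_bot_iff V₁).mp hV10
      obtain ⟨y, hy0, hyW, hyU⟩ := hgen W hWinj U₁ hU1inj
        ⟨q, (hV1 hq).2, hq0, hV1W hq, hU1 (by exact hq)⟩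
      intro h0
      apply hy0
      have h1 : y ∈ K U₁ := ⟨hyW, hyU⟩
      rwa [h0, Submodule.mem_bot] at h1
    · -- `U₂` is not zero
      have hU20 : U₂ ≠ ⊥ := by
        rintro rfl
        have h1 : U₁ = ⊤ := by
          have := hU12.sup_eq_top
          rwa [sup_bot_eq] at this
        have h2 : V₂.comap W.subtype = ⊥ := by
          refine hU1ess _ (by rw [h1]; exact le_top) ?_
          rw [← Submodule.comap_inf, inf_comm, hV12]
          exact Submodule.ker_subtype W
        apply hV20
        rw [Submodule.eq_bot_iff]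
        intro v hv
        have h3 : (⟨v, hV2W hv⟩ : W) ∈ V₂.comap W.subtype := hv
        rw [h2, Submodule.mem_bot] at h3
        exact congrArg (fun x : W => (x : E)) h3
      have h1 : U₂.map W.subtype ⊓ Q ≠ ⊥ := by
        intro h0
        have h2 := hess _ h0
        exact hU20 ((map_eq_bot_of_inj W.injective_subtype _).mp h2)
      obtain ⟨q, ⟨⟨w, hw, hwq⟩, hqQ⟩, hq0⟩ := (Submodule.ne_bot_iff _).mp h1
      obtain ⟨y, hy0, hyW, hyU⟩ := hgen W hWinj U₂ hU2inj
        ⟨q, hqQ, hq0, by rw [← hwq]; exact w.2, by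
          have : (⟨q, by rw [← hwq]; exact w.2⟩ : W) = w := Subtype.ext hwq.symm
          rw [this]; exact hw⟩
      intro h0
      apply hy0
      have h2 : y ∈ K U₂ := ⟨hyW, hyU⟩
      rwa [h0, Submodule.mem_bot] at h2
    · rw [Submodule.eq_bot_iff]
      rintro n ⟨⟨hn, hn1⟩, ⟨hn', hn2⟩⟩
      have h1 : (⟨(n : E), hn⟩ : W) ∈ U₁ ⊓ U₂ := ⟨hn1, hn2⟩
      rw [hU12.inf_eq_bot, Submodule.mem_bot] at h1
      exact Subtype.ext (congrArg (fun x : W => (x : E)) h1)
    · apply le_antisymm
      · rw [sup_le_iff]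
        exact ⟨fun n hn => hXW n hn.1, fun n hn => hXW n hn.1⟩
      · intro n hn
        have hnW : (n : E) ∈ W := hVW (hsub X n hn)
        obtain ⟨u₁, hu₁, u₂, hu₂, hu⟩ := Submodule.mem_sup.mp
          ((hU12.sup_eq_top ▸ Submodule.mem_top : (⟨(n : E), hnW⟩ : W) ∈ U₁ ⊔ U₂))
        have hu' : (u₁ : E) + u₂ = n := congrArg (fun x : W => (x : E)) hu
        have h1 : θ 1 • (u₁ : E) + θ 1 • (u₂ : E) = n := by
          rw [← smul_add, hu', h.one_smul_cor]
        rw [Submodule.mem_sup]
        refine ⟨⟨θ 1 • (u₁ : E), h.smul_mem_cor E 1 _⟩, ⟨W.smul_mem _ u₁.2, ?_⟩,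
          ⟨θ 1 • (u₂ : E), h.smul_mem_cor E 1 _⟩, ⟨W.smul_mem _ u₂.2, ?_⟩, Subtype.ext h1⟩
        · exact U₁.smul_mem (θ 1) hu₁
        · exact U₂.smul_mem (θ 1) hu₂

end Corner

theorem exists_sd {Λ S : Type u} [Ring Λ] [Ring S] {θ : S → Λ} {J : Type v} {ε : J → Λ}
    (h : Corner θ ε) (Q : Type u) [AddCommGroup Q] [Module Λ Q] [Nontrivial Q]
    (hQ : NoUnif Λ Q) (hε : ∀ q : Q, q ≠ 0 → ∃ j, ε j • q ≠ 0) :
    ∃ (N : Type u) (_ : AddCommGroup N) (_ : Module S N),
      PureInjective S N ∧ Superdecomposable S N := by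
  obtain ⟨E, _, _, i, hE, hi⟩ := exists_injective (Λ := Λ) Q
  obtain ⟨W, W', hVW, hWess, hWW'⟩ := exists_hull hE (LinearMap.range i)
  have hW := Corner.injective_of_isCompl hE hWW'
  refine ⟨h.cor W, inferInstance, inferInstance, h.pureInjective_cor hW, ?_⟩
  let i' : Q →ₗ[Λ] W := LinearMap.codRestrict W i fun q => hVW (LinearMap.mem_range_self i q)
  have hi' : Function.Injective i' := by
    intro a b hab
    exact hi (congrArg (fun x : W => (x : E)) hab)
  refine h.superdecomposable_cor hW (LinearMap.range i') ?_ ?_ ?_ ?_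
  · obtain ⟨q, hq⟩ := exists_ne (0 : Q)
    intro h0
    apply hq
    have h1 : i' q ∈ LinearMap.range i' := LinearMap.mem_range_self i' q
    rw [h0, Submodule.mem_bot] at h1
    exact hi' (h1.trans (map_zero i').symm)
  · intro X hX
    have h1 : X.map W.subtype = ⊥ := by
      refine hWess _ (Submodule.map_subtype_le W X) ?_
      rw [Submodule.eq_bot_iff]
      rintro v ⟨⟨x, hx, hxv⟩, ⟨q, hq⟩⟩
      have h2 : x ∈ X ⊓ LinearMap.range i' := by
        refine ⟨hx, ⟨q, Subtype.ext ?_⟩⟩
        rw [← hxv] at hq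
        exact hq
      rw [hX, Submodule.mem_bot] at h2
      rw [← hxv, h2, map_zero]
    exact (map_eq_bot_of_inj W.injective_subtype _).mp h1
  · intro V hV hV0
    obtain ⟨V₁, V₂, h1, h2, h3, h4, h5⟩ := hQ (V.comap i') (by
      intro h0
      apply hV0
      rw [Submodule.eq_bot_iff]
      intro v hv
      obtain ⟨q, hq⟩ := hV hv
      have h6 : q ∈ V.comap i' := by
        rw [Submodule.mem_comap, hq]; exact hv
      rw [h0, Submodule.mem_bot] at h6
      rw [← hq, h6, map_zero])
    refine ⟨V₁.map i', V₂.map i', Submodule.map_le_iff_le_comap.mpr h1,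
      Submodule.map_le_iff_le_comap.mpr h2, ?_, ?_, ?_⟩
    · rwa [Ne, map_eq_bot_of_inj hi']
    · rwa [Ne, map_eq_bot_of_inj hi']
    · rw [← Submodule.map_inf i' hi', h5, Submodule.map_bot]
  · rintro _ ⟨q, rfl⟩ hq0
    obtain ⟨j, hj⟩ := hε q (by rintro rfl; exact hq0 (map_zero i'))
    refine ⟨j, ?_⟩
    rw [← map_smul]
    intro h0
    exact hj (hi' (h0.trans (map_zero i').symm))

end Pool.Agent.H35SD
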