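import Pool.Agent.Helper35.SD.Defs

/-!
Generic filters and generic ideals in countable modular lattices.
-/

namespace Pool.Agent.H35SD

universe u

namespace LatAux

variable {M : Type u} [Lattice M] [IsModularLattice M] [OrderBot M] {B : M → M → Prop}

/-! ### Families of big intervals which are independent -/

/-- An independent family of big intervals `[e i, A i]`. -/
def Ok (B : M → M → Prop) (I : Finset ℕ) (A e : ℕ → M) : Prop :=
  ∀ i ∈ I, e i ≤ A i ∧ B (e i) (A i) ∧ A i ⊓ (I.erase i).sup A ≤ e i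

/-- The new family arises from the old one by shrinking the intervals. -/
def Upd (B : M → M → Prop) (I : Finset ℕ) (A e A' e' : ℕ → M) : Prop :=
  ∀ i ∈ I, A' i ≤ A i ∧ e i ⊓ A' i ≤ e' i ∧ e' i ≤ A' i ∧ B (e' i) (A' i)

theorem sup_mono_of {I : Finset ℕ} {A A' : ℕ → M} (h : ∀ i ∈ I, A' i ≤ A i) :
    I.sup A' ≤ I.sup A := Finset.sup_mono_fun h

theorem Upd.ok {I : Finset ℕ} {A e A' e' : ℕ → M} (h : Upd B I A e A' e') (hO : Ok B I A e) :
    Ok B I A' e' := by
  intro i hi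
  obtain ⟨h1, h2, h3, h4⟩ := h i hi
  refine ⟨h3, h4, le_trans ?_ h2⟩
  refine le_inf (le_trans ?_ (hO i hi).2.2) inf_le_left
  exact inf_le_inf h1 (sup_mono_of fun j hj => (h j (Finset.mem_of_mem_erase hj)).1)

theorem Upd.trans {I : Finset ℕ} {A e A' e' A'' e'' : ℕ → M} (h : Upd B I A e A' e')
    (h' : Upd B I A' e' A'' e'') : Upd B I A e A'' e'' := by
  intro i hi
  obtain ⟨h1, h2, _, _⟩ := h i hi
  obtain ⟨h5, h6, h7, h8⟩ := h' i hi
  refine ⟨h5.trans h1, le_trans ?_ h6, h7, h8⟩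
  exact le_inf (le_trans (inf_le_inf_left _ h5) h2) inf_le_right

theorem Upd.refl {I : Finset ℕ} {A e : ℕ → M} (hO : Ok B I A e) : Upd B I A e A e :=
  fun i hi => ⟨le_rfl, inf_le_left, (hO i hi).1, (hO i hi).2.1⟩

theorem Ok.mono {I J : Finset ℕ} (hJ : J ⊆ I) {A e : ℕ → M} (hO : Ok B I A e) : Ok B J A e := by
  intro i hi
  obtain ⟨h1, h2, h3⟩ := hO i (hJ hi)
  exact ⟨h1, h2, le_trans (inf_le_inf_left _ (Finset.sup_mono (Finset.erase_subset_erase i hJ))) h3⟩

theorem sup_erase {I : Finset ℕ} {i : ℕ} (hi : i ∈ I) (A : ℕ → M) :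
    I.sup A = A i ⊔ (I.erase i).sup A := by
  conv_lhs => rw [← Finset.insert_erase hi, Finset.sup_insert]

theorem inf_b {a e o : M} (h1 : e ≤ a) (h2 : a ⊓ o ≤ e) : a ⊓ (e ⊔ o) = e := by
  rw [inf_comm, sup_inf_assoc_of_le o h1, inf_comm o a]
  exact sup_eq_left.2 h2

theorem Ok.not_le (hB : BigRel B) {I : Finset ℕ} {A e : ℕ → M} (hO : Ok B I A e) {i : ℕ}
    (hi : i ∈ I) : ¬ I.sup A ≤ e i ⊔ (I.erase i).sup A := by
  intro h
  obtain ⟨h1, h2, h3⟩ := hO i hi
  have h4 := inf_b h1 h3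
  have h5 : A i ≤ e i := by
    rw [← h4]
    exact le_inf le_rfl ((Finset.le_sup hi).trans h)
  exact absurd (hB.lt _ _ h2) (not_lt_of_ge h5)

/-- The elements `b i` are preserved by updates. -/
theorem Upd.b_inf {I : Finset ℕ} {A e A' e' : ℕ → M} (h : Upd B I A e A' e')
    (hO : Ok B I A e) {i : ℕ} (hi : i ∈ I) :
    (e i ⊔ (I.erase i).sup A) ⊓ I.sup A' ≤ e' i ⊔ (I.erase i).sup A' := by
  obtain ⟨h1, h2, h3, h4⟩ := h i hi
  obtain ⟨g1, g2, g3⟩ := hO i hi
  have hle : (I.erase i).sup A' ≤ e i ⊔ (I.erase i).sup A :=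
    le_trans (sup_mono_of fun j hj => (h j (Finset.mem_of_mem_erase hj)).1) le_sup_right
  rw [sup_erase hi A', sup_comm (A' i), inf_comm, sup_inf_assoc_of_le _ hle,
    sup_comm _ (A' i ⊓ _)]
  refine sup_le_sup_right (le_trans ?_ h2) _
  refine le_inf ?_ inf_le_left
  exact le_trans (inf_le_inf_right _ h1) (inf_b g1 g3).le

/-- Smallness of `x ⊓ A i` is inherited by updates. -/
theorem small_upd (hB : BigRel B) {a e a' e' x : M} (h1 : a' ≤ a) (h2 : e ⊓ a' ≤ e') (he : e ≤ a)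
    (hs : ¬ B (e ⊓ x) (a ⊓ x)) : ¬ B (e' ⊓ x) (a' ⊓ x) := by
  intro h
  apply hs
  have h3 : B ((a' ⊓ x) ⊓ e) (a' ⊓ x) := hB.mono _ _ _ _ (by
    refine le_inf (le_trans ?_ h2) (inf_le_left.trans inf_le_right)
    exact le_inf inf_le_right (inf_le_left.trans inf_le_left)) le_rfl h
  rw [hB.proj] at h3
  have h4 : B e ((a ⊓ x) ⊔ e) := hB.mono _ _ _ _ le_rfl
    (sup_le_sup_right (inf_le_inf_right _ h1) _) h3
  rw [← hB.proj] at h4
  have h5 : (a ⊓ x) ⊓ e = e ⊓ x := by
    apply le_antisymm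
    · exact le_inf inf_le_right (inf_le_left.trans inf_le_right)
    · exact le_inf (le_inf (inf_le_left.trans he) inf_le_right) inf_le_left
  rwa [h5] at h4

/-- Lemma D3. -/
theorem lemmaD3 (hB : BigRel B) (x : M) (I : Finset ℕ) (hI : I.Nonempty) :
    ∀ A e : ℕ → M, Ok B I A e → (∀ i ∈ I, ¬ B (e i ⊓ x) (A i ⊓ x)) →
      ∃ A' e', Upd B I A e A' e' ∧ ∃ i ∈ I, x ⊓ I.sup A' ≤ e' i ⊔ (I.erase i).sup A' := by
  classical
  induction hI using Finset.Nonempty.cons_induction with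
  | singleton a =>
    intro A e hO hs
    obtain ⟨h1, h2, h3⟩ := hO a (Finset.mem_singleton_self a)
    have hs1 := hs a (Finset.mem_singleton_self a)
    have hle : e a ⊔ (A a ⊓ x) ≤ A a := sup_le h1 inf_le_left
    have h4 : B (e a ⊔ (A a ⊓ x)) (A a) := by
      rcases hB.cut _ _ _ le_sup_left hle h2 with h | h
      · exfalso
        apply hs1
        rw [sup_comm, ← hB.proj] at h
        have h5 : (A a ⊓ x) ⊓ e a = e a ⊓ x := by
          apply le_antisymm
          · exact le_inf inf_le_right (inf_le_left.trans inf_le_right)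
          · exact le_inf (le_inf (inf_le_left.trans h1) inf_le_right) inf_le_left
        rwa [h5] at h
      · exact h
    refine ⟨A, fun _ => e a ⊔ (A a ⊓ x), ?_, a, Finset.mem_singleton_self a, ?_⟩
    · intro i hi
      rw [Finset.mem_singleton] at hi
      subst hi
      exact ⟨le_rfl, inf_le_left.trans le_sup_left, hle, h4⟩
    · rw [Finset.sup_singleton]
      refine le_trans ?_ le_sup_left
      rw [inf_comm]
      exact le_sup_right
  | cons a J ha hJ ih =>
    intro A e hO hs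
    rw [Finset.cons_eq_insert] at hO hs ⊢
    have hJI : J ⊆ insert a J := Finset.subset_insert a J
    have haI : a ∈ insert a J := Finset.mem_insert_self a J
    obtain ⟨A1, e1, hU, i2, hi2, hle⟩ := ih A e (hO.mono hJI) (fun i hi => hs i (hJI hi))
    have hO1 := hU.ok (hO.mono hJI)
    obtain ⟨p1, p2, p3⟩ := hO a haI
    obtain ⟨q1, q2, q3⟩ := hO1 i2 hi2
    have hs1 := hs a haI
    have hai : i2 ≠ a := fun h => ha (h ▸ hi2)
    have her : (insert a J).erase a = J := Finset.erase_insert ha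
    have her2 : (insert a J).erase i2 = insert a (J.erase i2) :=
      Finset.erase_insert_of_ne hai.symm
    have hane : a ∉ J.erase i2 := fun h => ha (Finset.mem_of_mem_erase h)
    have hne : ∀ j ∈ J, j ≠ a := fun j hj h => ha (h ▸ hj)
    set R := (J.erase i2).sup A1 with hR
    set Bs := J.sup A1 with hBs
    have hBsR : Bs = A1 i2 ⊔ R := sup_erase hi2 A1
    set T := e1 i2 ⊔ R with hT
    have hTB : T ≤ Bs := by rw [hBsR]; exact sup_le_sup_right q1 _
    have hRT : R ≤ T := le_sup_right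
    set Y := x ⊔ T with hY
    set K := A a ⊓ Y with hK
    have hKY : K ≤ Y := inf_le_right
    have hYB : Y ⊓ Bs ≤ T := by
      rw [hY, sup_comm x T, sup_inf_assoc_of_le x hTB]
      exact sup_le le_rfl hle
    have hBsO : Bs ≤ ((insert a J).erase a).sup A := by
      rw [her]
      exact sup_mono_of fun j hj => (hU j hj).1
    -- (i)
    by_cases hi : B (e a ⊓ K) K
    · refine ⟨fun j => if j = a then K else A1 j, fun j => if j = a then e a ⊓ K else e1 j, ?_,
        i2, hJI hi2, ?_⟩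
      · intro j hj
        by_cases hja : j = a
        · subst hja
          simp only [if_true]
          exact ⟨inf_le_left, le_rfl, inf_le_right, hi⟩
        · simp only [if_neg hja]
          exact hU j ((Finset.mem_insert.1 hj).resolve_left hja)
      · have e1' : (insert a J).sup (fun j => if j = a then K else A1 j) = K ⊔ Bs := by
          rw [Finset.sup_insert, if_pos rfl]
          congr 1
          exact Finset.sup_congr rfl fun j hj => if_neg (hne j hj)
        have e2' : ((insert a J).erase i2).sup (fun j => if j = a then K else A1 j) = K ⊔ R := by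
          rw [her2, Finset.sup_insert, if_pos rfl]
          congr 1
          exact Finset.sup_congr rfl fun j hj => if_neg (hne j (Finset.mem_of_mem_erase hj))
        beta_reduce
        rw [e1', e2', if_neg hai]
        calc x ⊓ (K ⊔ Bs) ≤ Y ⊓ (K ⊔ Bs) := inf_le_inf_right _ le_sup_left
          _ = K ⊔ (Y ⊓ Bs) := by rw [inf_comm, sup_inf_assoc_of_le Bs hKY, inf_comm Bs Y]
          _ ≤ K ⊔ T := sup_le_sup_left hYB _
          _ ≤ e1 i2 ⊔ (K ⊔ R) := sup_le (le_sup_left.trans le_sup_right)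
            (sup_le le_sup_left (le_sup_right.trans le_sup_right))
    set P := A a ⊓ (x ⊔ Bs) with hP
    have hKP : K ≤ P := inf_le_inf_left _ (sup_le_sup_left hTB _)
    -- (ii)
    by_cases hii : B (e a ⊔ P) (A a)
    · refine ⟨fun j => if j = a then A a else A1 j, fun j => if j = a then e a ⊔ P else e1 j, ?_,
        a, haI, ?_⟩
      · intro j hj
        by_cases hja : j = a
        · subst hja
          simp only [if_true]
          exact ⟨le_rfl, inf_le_left.trans le_sup_left, sup_le p1 inf_le_left, hii⟩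
        · simp only [if_neg hja]
          exact hU j ((Finset.mem_insert.1 hj).resolve_left hja)
      · have e2' : J.sup (fun j => if j = a then A a else A1 j) = Bs :=
          Finset.sup_congr rfl fun j hj => if_neg (hne j hj)
        beta_reduce
        rw [her, Finset.sup_insert, if_pos rfl, if_pos rfl, e2']
        calc x ⊓ (A a ⊔ Bs) ≤ (Bs ⊔ A a) ⊓ (x ⊔ Bs) :=
              le_inf (by rw [sup_comm]; exact inf_le_right) (inf_le_left.trans le_sup_left)
          _ = Bs ⊔ P := by rw [sup_inf_assoc_of_le (A a) (le_sup_right : Bs ≤ x ⊔ Bs)]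
          _ ≤ e a ⊔ P ⊔ Bs := sup_le le_sup_right (le_sup_right.trans le_sup_left)
    -- (iii)
    have h1 : B (e a) (e a ⊔ P) :=
      (hB.cut _ _ _ le_sup_left (sup_le p1 inf_le_left) p2).resolve_right hii
    have h2 : B (e a ⊔ K) (e a ⊔ P) := by
      refine (hB.cut _ _ _ le_sup_left (sup_le_sup_left hKP _) h1).resolve_left ?_
      intro h
      apply hi
      rw [inf_comm, hB.proj, sup_comm]
      exact h
    have h3 : B (P ⊓ (e a ⊔ K)) P := by
      rw [hB.proj]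
      have : P ⊔ (e a ⊔ K) = e a ⊔ P := by
        apply le_antisymm
        · exact sup_le le_sup_right (sup_le_sup_left hKP _)
        · exact sup_le (le_sup_left.trans le_sup_right) le_sup_left
      rw [this]
      exact h2
    obtain ⟨c1, c2, hc1, hc1', hc2, hc2', hb1, hb2⟩ := hB.split _ _ h3
    have hKK' : K ≤ P ⊓ (e a ⊔ K) := le_inf hKP le_sup_right
    have heK' : e a ⊓ P ≤ P ⊓ (e a ⊔ K) := le_inf inf_le_right (inf_le_left.trans le_sup_left)
    have hPA : P ≤ A a := inf_le_left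
    set A2 := A1 i2 ⊓ (c2 ⊔ Y) with hA2
    have heY : e1 i2 ≤ Y := le_sup_left.trans le_sup_right
    have he2 : e1 i2 ≤ A2 := le_inf q1 (heY.trans le_sup_right)
    have hc2A : c2 ⊔ Y ≤ A1 i2 ⊔ Y := by
      refine sup_le (hc2'.trans (inf_le_right.trans ?_)) le_sup_right
      refine sup_le (le_sup_left.trans le_sup_right) ?_
      rw [hBsR]
      exact sup_le_sup_left (hRT.trans le_sup_right) _
    have hAY : A2 ⊔ Y = c2 ⊔ Y := by
      rw [hA2, sup_comm, ← sup_inf_assoc_of_le (A1 i2) (le_sup_right : Y ≤ c2 ⊔ Y),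
        sup_comm Y (A1 i2)]
      exact inf_eq_right.2 hc2A
    have hcY : c2 ⊓ Y = K := by
      apply le_antisymm
      · exact inf_le_inf_right _ (hc2'.trans hPA)
      · exact le_inf (hKK'.trans hc2) hKY
    have hAY2 : A2 ⊓ Y = e1 i2 := by
      apply le_antisymm
      · have h5 : A2 ⊓ Y ≤ T := by
          refine le_trans ?_ hYB
          refine le_inf inf_le_right (inf_le_left.trans (inf_le_left.trans ?_))
          rw [hBsR]
          exact le_sup_left
        refine le_trans (le_inf (inf_le_left.trans inf_le_left) h5) ?_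
        exact (inf_b q1 q3).le
      · exact le_inf he2 heY
    have hbig2 : B (e1 i2) A2 := by
      have h4 : B K c2 := hB.mono _ _ _ _ (le_inf (hKK'.trans hc1) (hKK'.trans hc2)) le_rfl hb2
      rw [← hcY, hB.proj, ← hAY, ← hB.proj, hAY2] at h4
      exact h4
    have hR2 : (J.erase i2).sup (fun j => if j = a then c1 else if j = i2 then A2 else A1 j) = R :=
      Finset.sup_congr rfl fun j hj => by
        rw [if_neg (hne j (Finset.mem_of_mem_erase hj)), if_neg (Finset.ne_of_mem_erase hj)]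
    have hB2 : J.sup (fun j => if j = a then c1 else if j = i2 then A2 else A1 j) = A2 ⊔ R := by
      rw [sup_erase hi2, hR2, if_neg hai, if_pos rfl]
    refine ⟨fun j => if j = a then c1 else if j = i2 then A2 else A1 j,
      fun j => if j = a then c1 ⊓ c2 else e1 j, ?_, a, haI, ?_⟩
    · intro j hj
      by_cases hja : j = a
      · subst hja
        simp only [if_true]
        refine ⟨hc1'.trans hPA, ?_, inf_le_left, hb1⟩
        refine le_inf inf_le_right (le_trans ?_ hc2)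
        exact le_trans (inf_le_inf_left _ hc1') heK'
      · simp only [if_neg hja]
        have hjJ := (Finset.mem_insert.1 hj).resolve_left hja
        by_cases hj2 : j = i2
        · subst hj2
          simp only [if_true]
          obtain ⟨u1, u2, u3, u4⟩ := hU j hjJ
          refine ⟨inf_le_left.trans u1, ?_, he2, hbig2⟩
          exact le_trans (inf_le_inf_left _ inf_le_left) u2
        · simp only [if_neg hj2]
          exact hU j hjJ
    · beta_reduce
      rw [her, Finset.sup_insert, if_pos rfl, if_pos rfl, hB2]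
      have hxB : x ⊔ (A2 ⊔ R) ≤ c2 ⊔ Y :=
        sup_le (le_sup_left.trans le_sup_right) (sup_le inf_le_right
          (hRT.trans (le_sup_right.trans le_sup_right)))
      have hc : c1 ⊓ (x ⊔ (A2 ⊔ R)) ≤ c1 ⊓ c2 := by
        refine le_inf inf_le_left ?_
        have h6 : (c2 ⊔ Y) ⊓ A a = c2 := by
          rw [sup_inf_assoc_of_le Y (hc2'.trans hPA), inf_comm Y, ← hK]
          exact sup_eq_left.2 (hKK'.trans hc2)
        rw [← h6]
        exact le_inf (inf_le_right.trans hxB) (inf_le_left.trans (hc1'.trans hPA))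
      calc x ⊓ (c1 ⊔ (A2 ⊔ R)) ≤ ((A2 ⊔ R) ⊔ c1) ⊓ (x ⊔ (A2 ⊔ R)) :=
            le_inf (by rw [sup_comm c1]; exact inf_le_right) (inf_le_left.trans le_sup_left)
        _ = (A2 ⊔ R) ⊔ c1 ⊓ (x ⊔ (A2 ⊔ R)) :=
            sup_inf_assoc_of_le c1 (le_sup_right : A2 ⊔ R ≤ x ⊔ (A2 ⊔ R))
        _ ≤ c1 ⊓ c2 ⊔ (A2 ⊔ R) := sup_le le_sup_right (hc.trans le_sup_left)

/-- Lemma D. -/
theorem lemmaD (hB : BigRel B) (x : M) (I : Finset ℕ) (A e : ℕ → M) (hO : Ok B I A e) :
    ∃ A' e', Upd B I A e A' e' ∧ (I.sup A' ≤ x ∨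
      ∃ i ∈ I, x ⊓ I.sup A' ≤ e' i ⊔ (I.erase i).sup A') := by
  classical
  set J := I.filter (fun i => ¬ B (e i ⊓ x) (A i ⊓ x)) with hJ
  have hJI : J ⊆ I := Finset.filter_subset _ _
  set A0 : ℕ → M := fun j => if j ∈ J then A j else A j ⊓ x with hA0
  set e0 : ℕ → M := fun j => if j ∈ J then e j else e j ⊓ x with he0
  have hU0 : Upd B I A e A0 e0 := by
    intro j hj
    by_cases hjJ : j ∈ J
    · simp only [hA0, he0, if_pos hjJ]
      exact ⟨le_rfl, inf_le_left, (hO j hj).1, (hO j hj).2.1⟩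
    · simp only [hA0, he0, if_neg hjJ]
      refine ⟨inf_le_left, inf_le_inf_left _ inf_le_right, inf_le_inf_right _ (hO j hj).1, ?_⟩
      by_contra h
      exact hjJ (Finset.mem_filter.2 ⟨hj, h⟩)
  have hO0 := hU0.ok hO
  have hx : ∀ j ∈ I, j ∉ J → A0 j ≤ x := by
    intro j _ hjJ
    simp only [hA0, if_neg hjJ]
    exact inf_le_right
  rcases J.eq_empty_or_nonempty with hemp | hne
  · refine ⟨A0, e0, hU0, Or.inl ?_⟩
    exact Finset.sup_le fun j hj => hx j hj (by rw [hemp]; exact Finset.notMem_empty j)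
  · have hs : ∀ i ∈ J, ¬ B (e0 i ⊓ x) (A0 i ⊓ x) := by
      intro i hi
      simp only [hA0, he0, if_pos hi]
      exact (Finset.mem_filter.1 hi).2
    obtain ⟨A1, e1, hU1, i, hi, hle⟩ := lemmaD3 hB x J hne A0 e0 (hO0.mono hJI) hs
    set A2 : ℕ → M := fun j => if j ∈ J then A1 j else A0 j with hA2
    set e2 : ℕ → M := fun j => if j ∈ J then e1 j else e0 j with he2
    have hU2 : Upd B I A0 e0 A2 e2 := by
      intro j hj
      by_cases hjJ : j ∈ J
      · simp only [hA2, he2, if_pos hjJ]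
        exact hU1 j hjJ
      · simp only [hA2, he2, if_neg hjJ]
        exact ⟨le_rfl, inf_le_left, (hO0 j hj).1, (hO0 j hj).2.1⟩
    refine ⟨A2, e2, hU0.trans hU2, Or.inr ⟨i, hJI hi, ?_⟩⟩
    have hsJ : J.sup A2 = J.sup A1 :=
      Finset.sup_congr rfl fun j hj => by simp only [hA2, if_pos hj]
    have hsJ2 : (J.erase i).sup A2 = (J.erase i).sup A1 :=
      Finset.sup_congr rfl fun j hj => by
        simp only [hA2, if_pos (Finset.mem_of_mem_erase hj)]
    have hrest : (I \ J).sup A2 ≤ x := by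
      refine Finset.sup_le fun j hj => ?_
      rw [Finset.mem_sdiff] at hj
      simp only [hA2, if_neg hj.2]
      exact hx j hj.1 hj.2
    have hIJ : I.sup A2 = (I \ J).sup A2 ⊔ J.sup A2 := by
      rw [← Finset.sup_union, Finset.sdiff_union_of_subset hJI]
    have hIJ2 : (I \ J).sup A2 ⊔ (J.erase i).sup A2 ≤ (I.erase i).sup A2 := by
      rw [← Finset.sup_union]
      refine Finset.sup_mono ?_
      intro j hj
      rw [Finset.mem_union, Finset.mem_sdiff, Finset.mem_erase] at hj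
      rw [Finset.mem_erase]
      rcases hj with hj | hj
      · exact ⟨fun h => hj.2 (h ▸ hi), hj.1⟩
      · exact ⟨hj.1, hJI hj.2⟩
    rw [hIJ, inf_comm, sup_inf_assoc_of_le _ hrest, inf_comm _ x, hsJ]
    have he2i : e2 i = e1 i := by simp only [he2, if_pos hi]
    rw [he2i]
    refine sup_le ?_ (hle.trans ?_)
    · exact le_sup_left.trans (hIJ2.trans le_sup_right)
    · refine sup_le_sup_left ?_ _
      rw [← hsJ2]
      exact le_sup_right.trans hIJ2

/-! ### States and refinements -/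

/-- Non-empty independent families of big intervals. -/
structure St (B : M → M → Prop) where
  I : Finset ℕ
  A : ℕ → M
  e : ℕ → M
  ne : I.Nonempty
  ok : Ok B I A e

/-- The join of the family. -/
def St.d (s : St B) : M := s.I.sup s.A

/-- The elements `b i`. -/
def St.b (s : St B) (i : ℕ) : M := s.e i ⊔ (s.I.erase i).sup s.A

/-- Refinements. -/
structure Ref (s s' : St B) : Prop where
  below : ∀ j ∈ s'.I, ∃ i ∈ s.I, s'.A j ≤ s.A i
  b : ∀ i ∈ s.I, ∃ j ∈ s'.I, s.b i ⊓ s'.d ≤ s'.b j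
  d : s'.d ≤ s.d

theorem Ref.refl (s : St B) : Ref s s :=
  ⟨fun j hj => ⟨j, hj, le_rfl⟩, fun i hi => ⟨i, hi, inf_le_left⟩, le_rfl⟩

theorem Ref.trans {s s' s'' : St B} (h : Ref s s') (h' : Ref s' s'') : Ref s s'' := by
  refine ⟨?_, ?_, h'.d.trans h.d⟩
  · intro k hk
    obtain ⟨j, hj, hkj⟩ := h'.below k hk
    obtain ⟨i, hi, hji⟩ := h.below j hj
    exact ⟨i, hi, hkj.trans hji⟩
  · intro i hi
    obtain ⟨j, hj, hij⟩ := h.b i hi
    obtain ⟨k, hk, hjk⟩ := h'.b j hj
    refine ⟨k, hk, le_trans ?_ hjk⟩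
    exact le_inf (le_trans (inf_le_inf_left _ h'.d) hij) inf_le_right

/-- The updated state. -/
def St.upd (s : St B) {A' e' : ℕ → M} (h : Upd B s.I s.A s.e A' e') : St B :=
  ⟨s.I, A', e', s.ne, h.ok s.ok⟩

theorem St.ref_upd (s : St B) {A' e' : ℕ → M} (h : Upd B s.I s.A s.e A' e') :
    Ref s (s.upd h) :=
  ⟨fun j hj => ⟨j, hj, (h j hj).1⟩, fun i hi => ⟨i, hi, h.b_inf s.ok hi⟩,
    sup_mono_of fun j hj => (h j hj).1⟩

theorem St.not_le (hB : BigRel B) (s : St B) {i : ℕ} (hi : i ∈ s.I) : ¬ s.d ≤ s.b i :=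
  s.ok.not_le hB hi

/-- Lemma S: splitting an index. -/
theorem St.split (hB : BigRel B) (s : St B) {i : ℕ} (hi : i ∈ s.I) :
    ∃ s' : St B, Ref s s' ∧ ∃ y₁ y₂ : M, s.b i ≤ y₁ ∧ s.b i ≤ y₂ ∧
      (∃ j ∈ s'.I, y₁ ≤ s'.b j) ∧ (∃ j ∈ s'.I, y₂ ≤ s'.b j) ∧
      ∀ j ∈ s'.I, s'.A j ≤ y₁ ∨ s'.A j ≤ y₂ := by
  classical
  obtain ⟨p1, p2, p3⟩ := s.ok i hi
  obtain ⟨c1, c2, hc1, hc1', hc2, hc2', hb1, hb2⟩ := hB.split _ _ p2
  obtain ⟨m, hm⟩ := Infinite.exists_notMem_finset s.I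
  have hmi : m ≠ i := fun h => hm (h ▸ hi)
  set O := (s.I.erase i).sup s.A with hOdef
  set A' : ℕ → M := fun j => if j = m then c2 else if j = i then c1 else s.A j with hA'
  set e' : ℕ → M := fun j => if j = m then c1 ⊓ c2 else if j = i then c1 ⊓ c2 else s.e j
    with he'
  have hA'm : A' m = c2 := by simp [hA']
  have hA'i : A' i = c1 := by simp [hA', hmi.symm]
  have hA'j : ∀ j, j ≠ m → j ≠ i → A' j = s.A j := by
    intro j h1 h2
    simp [hA', h1, h2]
  have he'm : e' m = c1 ⊓ c2 := by simp [he']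
  have he'i : e' i = c1 ⊓ c2 := by simp [he', hmi.symm]
  have he'j : ∀ j, j ≠ m → j ≠ i → e' j = s.e j := by
    intro j h1 h2
    simp [he', h1, h2]
  have hnm : ∀ j ∈ s.I, j ≠ m := fun j hj h => hm (h ▸ hj)
  -- suprema
  have hsO : (s.I.erase i).sup A' = O :=
    Finset.sup_congr rfl fun j hj =>
      hA'j j (hnm j (Finset.mem_of_mem_erase hj)) (Finset.ne_of_mem_erase hj)
  have hsi : ((insert m s.I).erase i).sup A' = c2 ⊔ O := by
    rw [Finset.erase_insert_of_ne hmi, Finset.sup_insert, hA'm, hsO]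
  have hsm : ((insert m s.I).erase m).sup A' = c1 ⊔ O := by
    rw [Finset.erase_insert hm, sup_erase hi, hA'i, hsO]
  have hcO : ∀ c c' : M, s.e i ≤ c' → c ≤ s.A i → c' ≤ s.A i → c ⊓ (c' ⊔ O) ≤ c' := by
    intro c c' h1 h2 h3
    calc c ⊓ (c' ⊔ O) ≤ (c' ⊔ O) ⊓ s.A i := le_inf inf_le_right (inf_le_left.trans h2)
      _ = c' ⊔ O ⊓ s.A i := sup_inf_assoc_of_le O h3
      _ ≤ c' := sup_le le_rfl ((by rw [inf_comm]; exact p3 : O ⊓ s.A i ≤ s.e i).trans h1)
  have hsj : ∀ j ∈ s.I, j ≠ i →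
      ((insert m s.I).erase j).sup A' ≤ (s.I.erase j).sup s.A ∧
      (insert m s.I).sup A' ≤ s.A j ⊔ ((insert m s.I).erase j).sup A' := by
    intro j hj hji
    constructor
    · refine Finset.sup_le fun k hk => ?_
      rw [Finset.mem_erase, Finset.mem_insert] at hk
      by_cases hkm : k = m
      · rw [hkm, hA'm]
        exact hc2'.trans (Finset.le_sup (f := s.A) (Finset.mem_erase.2 ⟨hji.symm, hi⟩))
      · have hkI := hk.2.resolve_left hkm
        by_cases hki : k = i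
        · rw [hki, hA'i]
          exact hc1'.trans (Finset.le_sup (f := s.A) (Finset.mem_erase.2 ⟨hji.symm, hi⟩))
        · rw [hA'j k hkm hki]
          exact Finset.le_sup (f := s.A) (Finset.mem_erase.2 ⟨hk.1, hkI⟩)
    · rw [sup_erase (Finset.mem_insert_of_mem hj) A', hA'j j (hnm j hj) hji]
  have hok : Ok B (insert m s.I) A' e' := by
    intro j hj
    by_cases hjm : j = m
    · subst hjm
      rw [hA'm, he'm, hsm]
      exact ⟨inf_le_right, hb2, le_inf (hcO _ _ hc1 hc2' hc1') inf_le_left⟩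
    · have hjI := (Finset.mem_insert.1 hj).resolve_left hjm
      by_cases hji : j = i
      · subst hji
        rw [hA'i, he'i, hsi]
        exact ⟨inf_le_left, hb1, le_inf inf_le_left (hcO _ _ hc2 hc1' hc2')⟩
      · obtain ⟨q1, q2, q3⟩ := s.ok j hjI
        refine ⟨?_, ?_, ?_⟩
        · rw [hA'j j hjm hji, he'j j hjm hji]; exact q1
        · rw [hA'j j hjm hji, he'j j hjm hji]; exact q2
        · rw [he'j j hjm hji, hA'j j hjm hji]
          exact le_trans (inf_le_inf_left _ (hsj j hjI hji).1) q3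
  set s' : St B := ⟨insert m s.I, A', e', ⟨m, Finset.mem_insert_self m s.I⟩, hok⟩ with hs'
  have hbi : s'.b i = (c1 ⊓ c2) ⊔ (c2 ⊔ O) := by
    show e' i ⊔ ((insert m s.I).erase i).sup A' = _
    rw [he'i, hsi]
  have hbm : s'.b m = (c1 ⊓ c2) ⊔ (c1 ⊔ O) := by
    show e' m ⊔ ((insert m s.I).erase m).sup A' = _
    rw [he'm, hsm]
  have hmI : m ∈ s'.I := Finset.mem_insert_self m s.I
  have hiI : i ∈ s'.I := Finset.mem_insert_of_mem hi
  have hle1 : s.b i ≤ s'.b i := by
    rw [hbi]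
    exact sup_le ((le_inf hc1 hc2).trans le_sup_left) (le_sup_right.trans le_sup_right)
  have hle2 : s.b i ≤ s'.b m := by
    rw [hbm]
    exact sup_le ((le_inf hc1 hc2).trans le_sup_left) (le_sup_right.trans le_sup_right)
  refine ⟨s', ⟨?_, ?_, ?_⟩, s'.b i, s'.b m, hle1, hle2, ⟨i, hiI, le_rfl⟩, ⟨m, hmI, le_rfl⟩, ?_⟩
  · intro j hj
    have hj' : j ∈ insert m s.I := hj
    by_cases hjm : j = m
    · refine ⟨i, hi, ?_⟩
      show A' j ≤ _
      rw [hjm, hA'm]
      exact hc2'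
    · have hjI := (Finset.mem_insert.1 hj').resolve_left hjm
      by_cases hji : j = i
      · refine ⟨i, hi, ?_⟩
        show A' j ≤ _
        rw [hji, hA'i]
        exact hc1'
      · refine ⟨j, hjI, ?_⟩
        show A' j ≤ _
        rw [hA'j j hjm hji]
  · intro j hj
    by_cases hji : j = i
    · subst hji
      exact ⟨j, hiI, inf_le_left.trans hle1⟩
    · refine ⟨j, Finset.mem_insert_of_mem hj, ?_⟩
      obtain ⟨q1, q2, q3⟩ := s.ok j hj
      obtain ⟨r1, r2⟩ := hsj j hj hji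
      show (s.e j ⊔ (s.I.erase j).sup s.A) ⊓ (insert m s.I).sup A' ≤
        e' j ⊔ ((insert m s.I).erase j).sup A'
      rw [he'j j (hnm j hj) hji]
      set O' := ((insert m s.I).erase j).sup A' with hO'
      refine le_trans (inf_le_inf_left _ r2) ?_
      rw [inf_comm, sup_comm (s.A j), sup_inf_assoc_of_le _ (r1.trans le_sup_right),
        inf_b q1 q3, sup_comm]
  · show (insert m s.I).sup A' ≤ s.I.sup s.A
    refine Finset.sup_le fun j hj => ?_
    by_cases hjm : j = m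
    · rw [hjm, hA'm]
      exact hc2'.trans (Finset.le_sup (f := s.A) hi)
    · have hjI := (Finset.mem_insert.1 hj).resolve_left hjm
      by_cases hji : j = i
      · rw [hji, hA'i]
        exact hc1'.trans (Finset.le_sup (f := s.A) hi)
      · rw [hA'j j hjm hji]
        exact Finset.le_sup (f := s.A) hjI
  · intro j hj
    have hj' : j ∈ insert m s.I := hj
    by_cases hji : j = i
    · right
      rw [hbm, hji]
      show A' i ≤ _
      rw [hA'i]
      exact le_sup_left.trans le_sup_right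
    · left
      show A' j ≤ e' i ⊔ ((insert m s.I).erase i).sup A'
      exact (Finset.le_sup (f := A') (Finset.mem_erase.2 ⟨hji, hj'⟩)).trans le_sup_right

/-- One step of the construction. -/
theorem St.step (hB : BigRel B) (s : St B) (x : M) :
    ∃ s' : St B, Ref s s' ∧ (s'.d ≤ x ∨ ∃ c y₁ y₂ : M, s'.d ≤ c ∧ x ⊓ c ≤ y₁ ∧ x ⊓ c ≤ y₂ ∧
      (∃ j ∈ s'.I, y₁ ≤ s'.b j) ∧ (∃ j ∈ s'.I, y₂ ≤ s'.b j) ∧
      ∀ j ∈ s'.I, s'.A j ≤ y₁ ∨ s'.A j ≤ y₂) := by
  obtain ⟨A', e', hU, h⟩ := lemmaD hB x s.I s.A s.e s.ok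
  rcases h with h | ⟨i, hi, h⟩
  · exact ⟨s.upd hU, s.ref_upd hU, Or.inl h⟩
  · obtain ⟨s', hR, y₁, y₂, h1, h2, h3, h4, h5⟩ := (s.upd hU).split hB (i := i) hi
    have h' : x ⊓ (s.upd hU).d ≤ (s.upd hU).b i := h
    exact ⟨s', (s.ref_upd hU).trans hR, Or.inr ⟨(s.upd hU).d, y₁, y₂, hR.d, h'.trans h1,
      h'.trans h2, h3, h4, h5⟩⟩

end LatAux

open LatAux in
/-- Filter version. -/
theorem generic_filter {M : Type u} [Lattice M] [IsModularLattice M] [OrderBot M] [Countable M]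
    {B : M → M → Prop} (hB : BigRel B) {z t : M} (h : B z t) :
    ∃ p : Set M, (∀ x y, x ∈ p → x ≤ y → y ∈ p) ∧ (∀ x y, x ∈ p → y ∈ p → x ⊓ y ∈ p) ∧
      t ∈ p ∧ z ∉ p ∧ ∀ x, x ∉ p → ∃ y₁ y₂, y₁ ∉ p ∧ y₂ ∉ p ∧
        (∃ c ∈ p, x ⊓ c ≤ y₁ ∧ x ⊓ c ≤ y₂) ∧ ∀ c ∈ p, (y₁ ⊓ c) ⊔ (y₂ ⊓ c) ∈ p := by
  classical
  have : Nonempty M := ⟨z⟩
  obtain ⟨x, hx⟩ := exists_surjective_nat M
  -- initial state
  let s0 : St B := ⟨{0}, fun _ => t, fun _ => z, Finset.singleton_nonempty 0, by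
    intro i hi
    rw [Finset.mem_singleton] at hi
    subst hi
    refine ⟨(hB.lt _ _ h).le, h, ?_⟩
    have : (({0} : Finset ℕ).erase 0) = ∅ := by simp
    rw [this, Finset.sup_empty, inf_bot_eq]
    exact bot_le⟩
  have hs0d : s0.d = t := Finset.sup_singleton
  have hs0b : s0.b 0 = z := by
    show z ⊔ (({0} : Finset ℕ).erase 0).sup (fun _ => t) = z
    have : (({0} : Finset ℕ).erase 0) = ∅ := by simp
    rw [this, Finset.sup_empty, sup_bot_eq]
  let σ : ℕ → St B := fun n => Nat.rec s0 (fun n s => (s.step hB (x n)).choose) n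
  have hσ : ∀ n, Ref (σ n) (σ (n + 1)) ∧ ((σ (n + 1)).d ≤ x n ∨ ∃ c y₁ y₂ : M,
      (σ (n + 1)).d ≤ c ∧ x n ⊓ c ≤ y₁ ∧ x n ⊓ c ≤ y₂ ∧
      (∃ j ∈ (σ (n + 1)).I, y₁ ≤ (σ (n + 1)).b j) ∧ (∃ j ∈ (σ (n + 1)).I, y₂ ≤ (σ (n + 1)).b j) ∧
      ∀ j ∈ (σ (n + 1)).I, (σ (n + 1)).A j ≤ y₁ ∨ (σ (n + 1)).A j ≤ y₂) := fun n =>
    ((σ n).step hB (x n)).choose_spec
  have hmono : ∀ m n, m ≤ n → Ref (σ m) (σ n) := by
    intro m n hmn
    induction n, hmn using Nat.le_induction with
    | base => exact Ref.refl _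
    | succ n _ ih => exact ih.trans (hσ n).1
  set p : Set M := {y | ∃ n, (σ n).d ≤ y} with hp
  -- elements which are not in `p`
  have hnot : ∀ (y : M) (n i : ℕ), i ∈ (σ n).I → y ⊓ (σ n).d ≤ (σ n).b i → y ∉ p := by
    rintro y n i hi hy ⟨m, hm⟩
    have hm' : (σ (max m n)).d ≤ y := (hmono m _ (le_max_left m n)).d.trans hm
    have hR := hmono n _ (le_max_right m n)
    obtain ⟨j, hj, hij⟩ := hR.b i hi
    refine (σ (max m n)).not_le hB hj (le_trans ?_ hij)
    exact le_inf (le_trans (le_inf hm' hR.d) hy) le_rfl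
  refine ⟨p, ?_, ?_, ⟨0, hs0d.le⟩, ?_, ?_⟩
  · rintro y w ⟨n, hn⟩ hyw
    exact ⟨n, hn.trans hyw⟩
  · rintro y w ⟨n, hn⟩ ⟨m, hm⟩
    exact ⟨max n m, le_inf ((hmono n _ (le_max_left n m)).d.trans hn)
      ((hmono m _ (le_max_right n m)).d.trans hm)⟩
  · refine hnot z 0 0 (Finset.mem_singleton_self 0) ?_
    show z ⊓ s0.d ≤ s0.b 0
    rw [hs0b]
    exact inf_le_left
  · intro y hy
    obtain ⟨n, rfl⟩ := hx y
    obtain ⟨hR, hn⟩ := hσ n
    rcases hn with hn | ⟨c, y₁, y₂, hc, h1, h2, ⟨i, hi, h3⟩, ⟨j, hj, h4⟩, h5⟩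
    · exact absurd ⟨n + 1, hn⟩ hy
    · refine ⟨y₁, y₂, hnot y₁ (n + 1) i hi (inf_le_left.trans h3),
        hnot y₂ (n + 1) j hj (inf_le_left.trans h4), ⟨c, ⟨n + 1, hc⟩, h1, h2⟩, ?_⟩
      rintro c' ⟨k, hk⟩
      refine ⟨max k (n + 1), ?_⟩
      have hR1 := hmono k _ (le_max_left k (n + 1))
      have hR2 := hmono (n + 1) _ (le_max_right k (n + 1))
      refine Finset.sup_le fun l hl => ?_
      obtain ⟨i', hi', hl'⟩ := hR2.below l hl
      have hlc : (σ (max k (n + 1))).A l ≤ c' :=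
        (Finset.le_sup (f := (σ (max k (n + 1))).A) hl).trans (hR1.d.trans hk)
      rcases h5 i' hi' with h6 | h6
      · exact (le_inf (hl'.trans h6) hlc).trans le_sup_left
      · exact (le_inf (hl'.trans h6) hlc).trans le_sup_right

/-- Ideal version: `generic_filter` in the dual lattice. -/
theorem generic_ideal {L : Type u} [Lattice L] [IsModularLattice L] [OrderTop L] [Countable L]
    {B : L → L → Prop} (hB : BigRel B) {a b : L} (h : B a b) :
    ∃ f : Set L, (∀ x y, y ∈ f → x ≤ y → x ∈ f) ∧ (∀ x y, x ∈ f → y ∈ f → x ⊔ y ∈ f) ∧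
      a ∈ f ∧ b ∉ f ∧ ∀ x, x ∉ f → ∃ y₁ y₂, y₁ ∉ f ∧ y₂ ∉ f ∧
        (∃ c ∈ f, y₁ ≤ x ⊔ c ∧ y₂ ≤ x ⊔ c) ∧ ∀ c ∈ f, (y₁ ⊔ c) ⊓ (y₂ ⊔ c) ∈ f := by
  have hB' : BigRel (fun x y : Lᵒᵈ => B (OrderDual.ofDual y) (OrderDual.ofDual x)) := by
    refine ⟨?_, ?_, ?_, ?_, ?_⟩
    · intro x y hxy
      exact hB.lt _ _ hxy
    · intro x y c h1 h2 h3
      exact (hB.cut _ _ (OrderDual.ofDual c) h2 h1 h3).symm
    · intro x y
      show B (OrderDual.ofDual x) (OrderDual.ofDual x ⊔ OrderDual.ofDual y) ↔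
        B (OrderDual.ofDual x ⊓ OrderDual.ofDual y) (OrderDual.ofDual y)
      rw [inf_comm, hB.proj, sup_comm]
    · intro x y hxy
      obtain ⟨c1, c2, h1, h2, h3, h4, h5, h6⟩ := hB.split _ _ hxy
      refine ⟨OrderDual.toDual c1, OrderDual.toDual c2, h2, h1, h4, h3, ?_, ?_⟩
      · show B c1 (c1 ⊔ c2)
        rw [inf_comm, hB.proj, sup_comm] at h6
        exact h6
      · show B c2 (c1 ⊔ c2)
        rw [hB.proj] at h5
        exact h5
    · intro x y x' y' h1 h2 h3
      exact hB.mono _ _ _ _ h2 h1 h3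
  have : Countable Lᵒᵈ := OrderDual.ofDual.injective.countable
  obtain ⟨p, h1, h2, h3, h4, h5⟩ := generic_filter hB' (z := OrderDual.toDual b)
    (t := OrderDual.toDual a) h
  refine ⟨{x | OrderDual.toDual x ∈ p}, ?_, ?_, h3, h4, ?_⟩
  · intro x y hy hxy
    exact h1 _ _ hy hxy
  · intro x y hx hy
    exact h2 _ _ hx hy
  · intro x hx
    obtain ⟨y₁, y₂, g1, g2, ⟨c, hc, g3, g4⟩, g5⟩ := h5 _ hx
    exact ⟨OrderDual.ofDual y₁, OrderDual.ofDual y₂, g1, g2, ⟨OrderDual.ofDual c, hc, g3, g4⟩,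
      fun c hc => g5 _ hc⟩

end Pool.Agent.H35SD
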