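import Pool.Agent.Helper35.SD.QuoCore
import Pool.Agent.Helper35.SD.Lat

namespace Pool.Agent.H35SD

universe u v

theorem exists_quotient {Λ C : Type u} {T : Type v} [Ring Λ] [AddCommGroup C] [Module Λ C]
    [Countable C]
    (hcoh : ∀ K K' : Submodule Λ C, K.FG → K'.FG → (K ⊓ K').FG)
    [Preorder T] {J : T → T → T → Prop} (hT : Branching J) {a b : T} (hab : a < b)
    (μ : T → Submodule Λ C) (hμ : Good J μ a b) (hfg : ∀ x, (μ x).FG) :
    ∃ (X : Submodule Λ C) (F : Submodule Λ X), Nontrivial (X ⧸ F) ∧ NoUnif Λ (X ⧸ F) :=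
  quo_exists (fun hB _ _ h => generic_ideal hB h) hcoh hT hab μ hμ hfg

end Pool.Agent.H35SD
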