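import Pool.Agent.Helper35.SD.Defs

namespace Pool.Agent.H35SD

universe u v

section wide

/-- the wide condition for one pair and seven, resp. six, witnesses -/
def wdCond {S : Type u} [Ring S] (φ ψ : PP S) (t : Fin 6 → PP S) : Prop :=
  (¬ (t 0).le (t 1) ∧ ¬ (t 1).le (t 0)) ∧
  (ψ.Lt (t 0) ∧ (t 0).Lt φ) ∧ (ψ.Lt (t 1) ∧ (t 1).Lt φ) ∧
  ((t 2).LeJoin (t 0) (t 1) ∧ (t 0).Lt (t 2) ∧ (t 3).Lt (t 0) ∧ PP.MeetLe (t 0) (t 1) (t 3)) ∧
  ((t 4).LeJoin (t 0) (t 1) ∧ (t 1).Lt (t 4) ∧ (t 5).Lt (t 1) ∧ PP.MeetLe (t 0) (t 1) (t 5))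

/-- one closure step -/
def wdStep {S : Type u} (g : PP S → PP S → Fin 6 → PP S) (A : Set (PP S)) : Set (PP S) :=
  A ∪ ⋃ φ ∈ A, ⋃ ψ ∈ A, Set.range (g φ ψ)

theorem wdStep_countable {S : Type u} (g : PP S → PP S → Fin 6 → PP S) {A : Set (PP S)}
    (hA : A.Countable) : (wdStep g A).Countable := by
  refine hA.union (hA.biUnion fun φ _ => hA.biUnion fun ψ _ => Set.countable_range _)

end wide

/-- A wide subposet contains a countable wide subposet. -/
theorem exists_countable_wide {S : Type u} [Ring S] {P : Set (PP S)} (hP : IsWide P) :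
    ∃ P' ⊆ P, P'.Countable ∧ IsWide P' := by
  classical
  obtain ⟨⟨φ₀, hφ₀, ψ₀, hψ₀, h0⟩, hw⟩ := hP
  have key : ∀ φ ψ : PP S, ∃ t : Fin 6 → PP S, (φ ∈ P → ψ ∈ P → ∀ i, t i ∈ P) ∧
      (φ ∈ P → ψ ∈ P → ψ.Lt φ → wdCond φ ψ t) := by
    intro φ ψ
    by_cases h : φ ∈ P ∧ ψ ∈ P ∧ ψ.Lt φ
    · obtain ⟨t₁, h1, t₂, h2, t₁₁, h3, t₁₂, h4, t₂₁, h5, t₂₂, h6, hc⟩ :=
        hw φ h.1 ψ h.2.1 h.2.2
      refine ⟨![t₁, t₂, t₁₁, t₁₂, t₂₁, t₂₂], fun _ _ i => ?_, fun _ _ _ => ?_⟩
      · fin_cases i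
        exacts [h1, h2, h3, h4, h5, h6]
      · exact hc
    · exact ⟨fun _ => φ, fun h1 _ _ => h1, fun h1 h2 h3 => (h ⟨h1, h2, h3⟩).elim⟩
  choose g hg1 hg2 using key
  let A : ℕ → Set (PP S) := fun n => (wdStep g)^[n] {φ₀, ψ₀}
  have hA0 : A 0 = {φ₀, ψ₀} := rfl
  have hAs : ∀ n, A (n + 1) = wdStep g (A n) := fun n => Function.iterate_succ_apply' _ _ _
  have hAP : ∀ n, A n ⊆ P := by
    intro n
    induction n with
    | zero =>
      rw [hA0]
      rintro x (rfl | rfl)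
      exacts [hφ₀, hψ₀]
    | succ n ih =>
      rw [hAs]
      intro x hx
      rcases hx with hx | hx
      · exact ih hx
      · simp only [Set.mem_iUnion] at hx
        obtain ⟨φ, hφ, ψ, hψ, ⟨i, rfl⟩⟩ := hx
        exact hg1 φ ψ (ih hφ) (ih hψ) i
  have hAc : ∀ n, (A n).Countable := by
    intro n
    induction n with
    | zero => rw [hA0]; exact (Set.toFinite _).countable
    | succ n ih => rw [hAs]; exact wdStep_countable g ih
  have hmono : Monotone A := monotone_nat_of_le_succ fun n => by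
    rw [hAs]
    exact Set.subset_union_left
  refine ⟨⋃ n, A n, Set.iUnion_subset hAP, Set.countable_iUnion hAc, ?_, ?_⟩
  · refine ⟨φ₀, Set.mem_iUnion.2 ⟨0, ?_⟩, ψ₀, Set.mem_iUnion.2 ⟨0, ?_⟩, h0⟩
    · rw [hA0]; exact Or.inl rfl
    · rw [hA0]; exact Or.inr rfl
  · intro φ hφ ψ hψ hlt
    obtain ⟨n, hn⟩ := Set.mem_iUnion.1 hφ
    obtain ⟨m, hm⟩ := Set.mem_iUnion.1 hψ
    have hn' : φ ∈ A (max n m) := hmono (le_max_left _ _) hn
    have hm' : ψ ∈ A (max n m) := hmono (le_max_right _ _) hm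
    have hmem : ∀ i, g φ ψ i ∈ ⋃ n, A n := by
      intro i
      refine Set.mem_iUnion.2 ⟨max n m + 1, ?_⟩
      rw [hAs]
      refine Or.inr ?_
      simp only [Set.mem_iUnion]
      exact ⟨φ, hn', ψ, hm', i, rfl⟩
    have hc := hg2 φ ψ (hAP _ hn') (hAP _ hm') hlt
    exact ⟨g φ ψ 0, hmem 0, g φ ψ 1, hmem 1, g φ ψ 2, hmem 2, g φ ψ 3, hmem 3, g φ ψ 4, hmem 4,
      g φ ψ 5, hmem 5, hc⟩

/-- Transport of the conclusion along a ring isomorphism. -/
theorem transport {S S' : Type u} [Ring S] [Ring S'] (e : S ≃+* S')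
    (h : ∃ (N : Type u) (_ : AddCommGroup N) (_ : Module S N),
      PureInjective S N ∧ Superdecomposable S N) :
    ∃ (N : Type u) (_ : AddCommGroup N) (_ : Module S' N),
      PureInjective S' N ∧ Superdecomposable S' N := by
  obtain ⟨N, iN, mN, hpi, hnt, hsd⟩ := h
  let mN' : Module S' N := Module.compHom N e.symm.toRingHom
  have hsm : ∀ (s : S') (x : N), s • x = e.symm s • x := fun s x => rfl
  refine ⟨N, iN, mN', ?_, hnt, ?_⟩
  · intro A B iA iB mA mB f hf g
    let mA' : Module S A := Module.compHom A e.toRingHom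
    let mB' : Module S B := Module.compHom B e.toRingHom
    have hsA : ∀ (s : S) (x : A), s • x = e s • x := fun s x => rfl
    have hsB : ∀ (s : S) (x : B), s • x = e s • x := fun s x => rfl
    let f' : A →ₗ[S] B :=
      { toFun := f
        map_add' := f.map_add
        map_smul' := fun s x => by
          rw [hsA, f.map_smul]; rfl }
    let g' : A →ₗ[S] N :=
      { toFun := g
        map_add' := g.map_add
        map_smul' := fun s x => by
          rw [hsA, g.map_smul, hsm, RingEquiv.symm_apply_apply]; rfl }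
    have hf' : PureEmb f' := by
      refine ⟨hf.1, ?_⟩
      rintro m n r a ⟨y, hy⟩
      obtain ⟨x, hx⟩ := hf.2 m n (fun i j => e (r i j)) a ⟨y, hy⟩
      exact ⟨x, hx⟩
    obtain ⟨h', hh'⟩ := hpi A B f' hf' g'
    refine ⟨{ toFun := h', map_add' := h'.map_add, map_smul' := fun s x => ?_ }, hh'⟩
    change h' (s • x) = s • h' x
    have h1 : s • x = (e.symm s) • x := by rw [hsB, RingEquiv.apply_symm_apply]
    rw [h1, h'.map_smul, hsm]
  · intro X Y hXY hX
    -- translate submodules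
    let F : Submodule S' N → Submodule S N := fun Z =>
      { carrier := Z
        add_mem' := fun ha hb => Z.add_mem ha hb
        zero_mem' := Z.zero_mem
        smul_mem' := fun s x hx => by
          have : s • x = e s • x := by rw [hsm, RingEquiv.symm_apply_apply]
          change s • x ∈ Z
          rw [this]
          exact Z.smul_mem _ hx }
    let G : Submodule S N → Submodule S' N := fun Z =>
      { carrier := Z
        add_mem' := fun ha hb => Z.add_mem ha hb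
        zero_mem' := Z.zero_mem
        smul_mem' := fun s x hx => by
          change s • x ∈ Z
          rw [hsm]
          exact Z.smul_mem _ hx }
    let Φ : Submodule S' N ≃o Submodule S N :=
      { toFun := F
        invFun := G
        left_inv := fun Z => rfl
        right_inv := fun Z => rfl
        map_rel_iff' := Iff.rfl }
    have h1 : IsCompl (Φ X) (Φ Y) := (OrderIso.isCompl_iff Φ).1 hXY
    have h2 : Φ X ≠ ⊥ := fun h0 => hX ((map_eq_bot_iff Φ).1 h0)
    obtain ⟨X₁, X₂, a1, a2, a3, a4⟩ := hsd _ _ h1 h2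
    refine ⟨Φ.symm X₁, Φ.symm X₂, ?_, ?_, ?_, ?_⟩
    · exact fun h0 => a1 ((map_eq_bot_iff Φ.symm).1 h0)
    · exact fun h0 => a2 ((map_eq_bot_iff Φ.symm).1 h0)
    · rw [← map_inf, a3, map_bot]
    · rw [← map_sup, a4, OrderIso.symm_apply_apply]

end Pool.Agent.H35SD
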