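import Pool.Agent.Helper35.SD.BaseChange
import Pool.Agent.Helper35.SD.Cmod
import Pool.Agent.Helper35.SD.Coh
import Pool.Agent.Helper35.SD.CornerBC
import Pool.Agent.Helper35.SD.Dual
import Pool.Agent.Helper35.SD.Form
import Pool.Agent.Helper35.SD.Inj
import Pool.Agent.Helper35.SD.Quo
import Pool.Agent.Helper35.SD.Wide

/-!
Superdecomposable pure-injective modules over algebras of countable dimension over a field.
-/

open scoped TensorProduct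

namespace Pool.Agent.H35SD

universe u v

theorem main_tensor {k₀ k S₀ : Type u} {T : Type v} [Field k₀] [Field k] [Algebra k₀ k]
    (hEC : EC k₀ k) [Ring S₀] [Algebra k₀ S₀] [Countable S₀] [Preorder T]
    {J : T → T → T → Prop} (hT : Branching J) {a b : T} (hab : a < b)
    (μ : T → Submodule (Module.End S₀ᵐᵒᵖ (CC S₀ᵐᵒᵖ)) (CC S₀ᵐᵒᵖ)) (hμ : Good J μ a b)
    (hfg : ∀ x, (μ x).FG) :
    ∃ (N : Type u) (_ : AddCommGroup N) (_ : Module (k ⊗[k₀] S₀) N),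
      PureInjective (k ⊗[k₀] S₀) N ∧ Superdecomposable (k ⊗[k₀] S₀) N := by
  have : Countable S₀ᵐᵒᵖ := MulOpposite.opEquiv.symm.countable_iff.mpr inferInstance
  have := CC_countable S₀ᵐᵒᵖ
  obtain ⟨X, F, hnt, hnu⟩ := exists_quotient (CC_coherent S₀ᵐᵒᵖ) hT hab μ hμ hfg
  have hε : ∀ q : X ⧸ F, q ≠ 0 → ∃ j, pr S₀ᵐᵒᵖ j • q ≠ 0 := by
    intro q hq
    obtain ⟨x, rfl⟩ := Submodule.Quotient.mk_surjective F q
    by_contra hcon
    push Not at hcon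
    apply hq
    obtain ⟨F', hF'⟩ := CC_sum S₀ᵐᵒᵖ (x : CC S₀ᵐᵒᵖ)
    have h1 : x = ∑ j ∈ F', pr S₀ᵐᵒᵖ j • x := by
      apply Subtype.ext
      rw [hF' F' subset_rfl, Submodule.coe_sum]
      rfl
    rw [h1]
    change (Submodule.mkQ F) _ = 0
    rw [map_sum]
    refine Finset.sum_eq_zero fun j _ => ?_
    rw [map_smul]
    exact hcon j
  obtain ⟨Q, i1, i2, hQn, hQ, hQε⟩ := baseChange_noUnif (k := k) hEC hnu (pr S₀ᵐᵒᵖ) hε
  let th' : S₀ →ₗ[k₀] Module.End S₀ᵐᵒᵖ (CC S₀ᵐᵒᵖ) :=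
    { toFun := th S₀
      map_add' := (CC_corner S₀).add
      map_smul' := by
        intro c s
        have h3 : ∀ f : Fin 1 → S₀ᵐᵒᵖ,
            rmul S₀ (c • s) f = algebraMap k₀ S₀ᵐᵒᵖ c • rmul S₀ s f := by
          intro f
          ext i
          change f i * MulOpposite.op (c • s) = algebraMap k₀ S₀ᵐᵒᵖ c * (f i * MulOpposite.op s)
          rw [← Algebra.smul_def, MulOpposite.op_smul, mul_smul_comm]
        have h2 : ∀ y : Md S₀ᵐᵒᵖ (j0 S₀ᵐᵒᵖ),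
            rmulQ S₀ (c • s) y = algebraMap k₀ S₀ᵐᵒᵖ c • rmulQ S₀ s y := by
          intro y
          obtain ⟨f, rfl⟩ := Submodule.mkQ_surjective _ y
          exact congrArg (Submodule.mkQ (⊥ : Submodule S₀ᵐᵒᵖ (Fin 1 → S₀ᵐᵒᵖ))) (h3 f)
        apply LinearMap.ext
        intro x
        change inc S₀ᵐᵒᵖ (j0 S₀ᵐᵒᵖ) (rmulQ S₀ (c • s) (cmp S₀ᵐᵒᵖ (j0 S₀ᵐᵒᵖ) x)) =
          c • inc S₀ᵐᵒᵖ (j0 S₀ᵐᵒᵖ) (rmulQ S₀ s (cmp S₀ᵐᵒᵖ (j0 S₀ᵐᵒᵖ) x))
        rw [h2, map_smul, algebraMap_smul] }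
  have hc : Corner th' (pr S₀ᵐᵒᵖ) := CC_corner S₀
  exact exists_sd (corner_baseChange (k := k) th' hc) Q hQ hQε

/-- The subset of coefficients of a pp condition. -/
def PP.coeffs {S : Type u} (φ : PP S) : Set S :=
  Set.range φ.r ∪ Set.range (fun p : Fin φ.e × Fin φ.m => φ.s p.1 p.2)

lemma PP.coeffs_countable {S : Type u} (φ : PP S) : φ.coeffs.Countable :=
  (Set.countable_range _).union (Set.countable_range _)

theorem countable_dimension {k S : Type u} [Field k] [Ring S] [Algebra k S]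
    (hS : ∃ A : Set S, A.Countable ∧ Submodule.span k A = ⊤) (hw : WidthUndefined S) :
    ∃ (N : Type u) (_ : AddCommGroup N) (_ : Module S N),
      PureInjective S N ∧ Superdecomposable S N := by
  obtain ⟨P₀, hP₀⟩ := hw
  obtain ⟨P, -, hPc, hP⟩ := exists_countable_wide hP₀
  obtain ⟨k₀, S₀, hk₀, hEC, hS₀, hA, e, he⟩ := exists_form hS (⋃ φ ∈ P, φ.coeffs)
    (hPc.biUnion fun φ _ => φ.coeffs_countable)
  -- the poset, with the reversed order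
  let T : Type u := P
  let _ : Preorder T :=
    { le := fun x y => y.1.le x.1
      le_refl := fun x M _ _ v hv => hv
      le_trans := fun x y z hxy hyz M _ _ v hv => hxy M v (hyz M v hv) }
  have hlt : ∀ x y : T, x < y ↔ y.1.Lt x.1 := fun x y => Iff.rfl
  let J : T → T → T → Prop := fun t₁ t₂ w => PP.MeetLe t₁.1 t₂.1 w.1
  have hT : Branching J := by
    intro a b hab
    obtain ⟨θ₁, h1, θ₂, h2, θ₁₁, h11, θ₁₂, h12, θ₂₁, h21, θ₂₂, h22, -, ⟨ha1, ha2⟩, ⟨hb1, hb2⟩,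
      ⟨-, -, hc1, hc2⟩, ⟨-, -, hd1, hd2⟩⟩ := hP.2 a.1 a.2 b.1 b.2 hab
    exact ⟨⟨θ₁, h1⟩, ⟨θ₂, h2⟩, ⟨θ₁₂, h12⟩, ⟨θ₂₂, h22⟩, ha2.1, hb2.1, hc1, hd1,
      hc2 _ ha1.1 hb1.1, hd2 _ ha1.1 hb1.1, hc2, hd2⟩
  obtain ⟨φ, hφ, ψ, hψ, hφψ⟩ := hP.1
  -- lifting the coefficients
  have hr : ∀ (x : T) (j : Fin x.1.e), x.1.r j ∈ S₀ := fun x j =>
    hA (Set.mem_biUnion x.2 (Or.inl ⟨j, rfl⟩))
  have hs : ∀ (x : T) (j : Fin x.1.e) (l : Fin x.1.m), x.1.s j l ∈ S₀ := fun x j l =>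
    hA (Set.mem_biUnion x.2 (Or.inr ⟨(j, l), rfl⟩))
  let lift : T → PP S₀ := fun x =>
    { m := x.1.m
      e := x.1.e
      r := fun j => ⟨x.1.r j, hr x j⟩
      s := fun j l => ⟨x.1.s j l, hs x j l⟩ }
  let f : S₀ →+* S := (S₀.val : S₀ →+* S)
  have hlift : ∀ x : T, (lift x).map f = x.1 := fun x => rfl
  obtain ⟨τ₀, hτ₁, hτ₂⟩ := exists_retraction (k₀ := k₀) (k := k) (S₀ := S₀)
  let τ : S →+ S₀ := τ₀.comp (e.symm : S ≃+* k ⊗[k₀] S₀).toAddEquiv.toAddMonoidHom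
  have hef : ∀ a : S₀, e.symm (f a) = 1 ⊗ₜ[k₀] a := by
    intro a
    rw [RingEquiv.symm_apply_eq, he, one_smul]
    rfl
  have hτ : ∀ a x b, τ (f a * x * f b) = a * τ x * b := by
    intro a x b
    change τ₀ (e.symm (f a * x * f b)) = a * τ₀ (e.symm x) * b
    rw [show e.symm (f a * x * f b) = e.symm (f a) * e.symm x * e.symm (f b) by
      rw [map_mul, map_mul], hef, hef, hτ₂]
  have hτ1 : τ 1 = 1 := by
    change τ₀ (e.symm 1) = 1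
    rw [map_one, hτ₁]
  let μ : T → Submodule (Module.End S₀ᵐᵒᵖ (CC S₀ᵐᵒᵖ)) (CC S₀ᵐᵒᵖ) :=
    fun x => (lift x).dual (CC S₀ᵐᵒᵖ)
  have hmono : ∀ x y : T, x ≤ y → μ x ≤ μ y := by
    intro x y hxy
    refine dual_le_of_le f τ hτ hτ1 (lift y) (lift x) ?_ _
    rw [hlift, hlift]
    exact hxy
  have hμ : ∀ a b : T, Good J μ a b := by
    intro a b
    refine ⟨fun x y _ hxy _ => hmono x y hxy, fun x y _ hxy _ => ?_, ?_⟩
    · refine lt_of_le_not_ge (hmono x y hxy.le) fun h1 => ?_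
      have h2 := le_of_dual_le f (lift x) (lift y) h1
      rw [hlift, hlift] at h2
      exact hxy.2 h2
    · intro t₁ t₂ w _ _ _ _ _ _ hJ
      have h1 : ((lift t₁).inf (lift t₂)).dual (CC S₀ᵐᵒᵖ) = μ t₁ ⊔ μ t₂ := dual_inf _ _ _
      rw [← h1]
      refine dual_le_of_le f τ hτ hτ1 _ (lift w) ?_ _
      rw [hlift, map_inf, hlift, hlift]
      exact hJ _ (inf_le_left _ _) (inf_le_right _ _)
  have hab : (⟨φ, hφ⟩ : T) < ⟨ψ, hψ⟩ := hφψ
  exact transport e (main_tensor hEC hT hab μ (hμ _ _) fun x => dual_fg (lift x))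

end Pool.Agent.H35SD
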