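import Pool.Agent.Helper35.SD.BigLem

namespace Pool.Agent.H35SD

universe u v

/-! QUO block: the generic quotient of a coherent countable module. -/

/-- The finitely generated submodules of `C` below `X`. -/
def QuoL {Λ C : Type u} [Ring Λ] [AddCommGroup C] [Module Λ C] (X : Submodule Λ C) : Type u :=
  {K : Submodule Λ C // K.FG ∧ K ≤ X}

@[reducible] def quoLattice {Λ C : Type u} [Ring Λ] [AddCommGroup C] [Module Λ C]
    (X : Submodule Λ C) (hcoh : ∀ K K' : Submodule Λ C, K.FG → K'.FG → (K ⊓ K').FG) :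
    Lattice (QuoL X) :=
  Subtype.lattice (P := fun K : Submodule Λ C => K.FG ∧ K ≤ X)
    (fun {_ _} h1 h2 => ⟨h1.1.sup h2.1, sup_le h1.2 h2.2⟩)
    (fun {_ _} h1 h2 => ⟨hcoh _ _ h1.1 h2.1, inf_le_of_left_le h1.2⟩)

theorem quo_countable {Λ C : Type u} [Ring Λ] [AddCommGroup C] [Module Λ C] [Countable C]
    (X : Submodule Λ C) : Countable (QuoL X) := by
  have h1 : ∀ K : QuoL X, ∃ S : Finset C, Submodule.span Λ (S : Set C) = K.1 := fun K => K.2.1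
  choose g hg using h1
  refine Function.Injective.countable (f := g) fun K K' h => Subtype.ext ?_
  rw [← hg K, ← hg K', h]

/-- The key lemma, in terms of an ideal of finitely generated submodules. -/
theorem quo_noUnif {Λ C : Type u} [Ring Λ] [AddCommGroup C] [Module Λ C]
    (X : Submodule Λ C) (hXfg : X.FG) (f : Set (Submodule Λ C))
    (hfX : ∀ K ∈ f, K ≤ X)
    (hlow : ∀ x y : Submodule Λ C, x.FG → y ∈ f → x ≤ y → x ∈ f)
    (hsup : ∀ x y, x ∈ f → y ∈ f → x ⊔ y ∈ f)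
    (a : Submodule Λ C) (ha : a ∈ f) (hb : X ∉ f)
    (hsplit : ∀ x : Submodule Λ C, x.FG → x ≤ X → x ∉ f →
      ∃ y₁ y₂ : Submodule Λ C, y₁.FG ∧ y₂.FG ∧ y₁ ≤ X ∧ y₂ ≤ X ∧ y₁ ∉ f ∧ y₂ ∉ f ∧
        (∃ c ∈ f, y₁ ≤ x ⊔ c ∧ y₂ ≤ x ⊔ c) ∧ ∀ c ∈ f, (y₁ ⊔ c) ⊓ (y₂ ⊔ c) ∈ f) :
    ∃ (F : Submodule Λ X), Nontrivial (X ⧸ F) ∧ NoUnif Λ (X ⧸ F) := by
  -- the ideal as a submodule
  let F : Submodule Λ X :=
    { carrier := {x | ∃ K ∈ f, x.1 ∈ K}
      zero_mem' := ⟨a, ha, a.zero_mem⟩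
      add_mem' := by
        rintro x y ⟨K, hK, hx⟩ ⟨K', hK', hy⟩
        exact ⟨K ⊔ K', hsup _ _ hK hK',
          (K ⊔ K').add_mem ((le_sup_left : K ≤ K ⊔ K') hx) ((le_sup_right : K' ≤ K ⊔ K') hy)⟩
      smul_mem' := by
        rintro r x ⟨K, hK, hx⟩
        exact ⟨K, hK, K.smul_mem r hx⟩ }
  have memF : ∀ x : X, x ∈ F ↔ ∃ K ∈ f, x.1 ∈ K := fun x => Iff.rfl
  -- finitely generated submodules inside F belong to f
  have key : ∀ K : Submodule Λ C, K.FG → (∀ x ∈ K, ∃ K' ∈ f, x ∈ K') → K ∈ f := by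
    intro K hK hKf
    obtain ⟨S, hS⟩ := hK
    have hfin : ∀ S' : Finset C, S' ⊆ S → ∃ K' ∈ f, ∀ x ∈ S', x ∈ K' := by
      classical
      intro S'
      induction S' using Finset.induction_on with
      | empty => exact fun _ => ⟨a, ha, fun x hx => absurd hx (Finset.notMem_empty x)⟩
      | insert y S'' hy ih =>
        intro hsub
        obtain ⟨K1, hK1, h1⟩ := ih (fun z hz => hsub (Finset.mem_insert_of_mem hz))
        have hyK : y ∈ K := by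
          rw [← hS]
          exact Submodule.subset_span (hsub (Finset.mem_insert_self y S''))
        obtain ⟨K2, hK2, h2⟩ := hKf y hyK
        refine ⟨K1 ⊔ K2, hsup _ _ hK1 hK2, fun z hz => ?_⟩
        rcases Finset.mem_insert.1 hz with rfl | hz
        · exact (le_sup_right : K2 ≤ K1 ⊔ K2) h2
        · exact (le_sup_left : K1 ≤ K1 ⊔ K2) (h1 z hz)
    obtain ⟨K', hK', h'⟩ := hfin S subset_rfl
    refine hlow K K' ⟨S, hS⟩ hK' ?_
    rw [← hS, Submodule.span_le]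
    exact fun z hz => h' z hz
  refine ⟨F, ?_, ?_⟩
  · rw [Submodule.Quotient.nontrivial_iff]
    intro hF
    apply hb
    refine key X hXfg fun x hx => ?_
    have : (⟨x, hx⟩ : X) ∈ F := by rw [hF]; trivial
    exact this
  · intro V hV
    obtain ⟨v, hvV, hv0⟩ := (Submodule.ne_bot_iff V).1 hV
    obtain ⟨x, rfl⟩ := Submodule.Quotient.mk_surjective F v
    have hxF : x ∉ F := fun h => hv0 ((Submodule.Quotient.mk_eq_zero F).2 h)
    have hspan : Submodule.span Λ {x.1} ∉ f := fun h =>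
      hxF ⟨_, h, Submodule.mem_span_singleton_self x.1⟩
    obtain ⟨y₁, y₂, hy1fg, hy2fg, hy1X, hy2X, hy1, hy2, ⟨c, hc, hc1, hc2⟩, hmeet⟩ :=
      hsplit _ (Submodule.fg_span_singleton x.1)
        ((Submodule.span_singleton_le_iff_mem _ _).2 x.2) hspan
    have hle : ∀ y : Submodule Λ C, y ≤ Submodule.span Λ {x.1} ⊔ c →
        (y.comap X.subtype).map F.mkQ ≤ V := by
      intro y hy
      rintro _ ⟨z, hz, rfl⟩
      have hz' : z.1 ∈ Submodule.span Λ {x.1} ⊔ c := hy hz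
      obtain ⟨s, hs, t, ht, hst⟩ := Submodule.mem_sup.1 hz'
      obtain ⟨r, rfl⟩ := Submodule.mem_span_singleton.1 hs
      have htX : t ∈ X := hfX c hc ht
      have hzeq : z = r • x + ⟨t, htX⟩ := Subtype.ext (by simpa using hst.symm)
      have htF : F.mkQ (⟨t, htX⟩ : X) = 0 := by
        rw [Submodule.mkQ_apply, Submodule.Quotient.mk_eq_zero]
        exact ⟨c, hc, ht⟩
      rw [hzeq, map_add, map_smul, htF, add_zero]
      exact V.smul_mem r hvV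
    have hne : ∀ y : Submodule Λ C, y.FG → y ≤ X → y ∉ f →
        (y.comap X.subtype).map F.mkQ ≠ ⊥ := by
      intro y hyfg hyX hyf hbot
      apply hyf
      refine key y hyfg fun z hz => ?_
      have h1 : F.mkQ (⟨z, hyX hz⟩ : X) ∈ (y.comap X.subtype).map F.mkQ :=
        Submodule.mem_map_of_mem (by exact hz)
      rw [hbot, Submodule.mem_bot, Submodule.mkQ_apply, Submodule.Quotient.mk_eq_zero] at h1
      exact h1
    refine ⟨(y₁.comap X.subtype).map F.mkQ, (y₂.comap X.subtype).map F.mkQ, hle _ hc1, hle _ hc2,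
      hne _ hy1fg hy1X hy1, hne _ hy2fg hy2X hy2, ?_⟩
    rw [eq_bot_iff]
    rintro z ⟨⟨p, hp, hpz⟩, ⟨q, hq, hqz⟩⟩
    have hpq : p - q ∈ F := by
      rw [← Submodule.Quotient.eq]
      exact hpz.trans hqz.symm
    obtain ⟨K, hK, hpqK⟩ := hpq
    have hpF : p ∈ F := by
      refine ⟨(y₁ ⊔ K) ⊓ (y₂ ⊔ K), hmeet K hK, ?_, ?_⟩
      · exact (le_sup_left : y₁ ≤ y₁ ⊔ K) hp
      · have h1 : p.1 = q.1 + (p - q).1 := by simp
        rw [h1]
        exact (y₂ ⊔ K).add_mem ((le_sup_left : y₂ ≤ y₂ ⊔ K) hq)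
          ((le_sup_right : K ≤ y₂ ⊔ K) hpqK)
    rw [Submodule.mem_bot, ← hpz, Submodule.mkQ_apply, Submodule.Quotient.mk_eq_zero]
    exact hpF

/-- `exists_quotient` with the statement of `generic_ideal` as a hypothesis. -/
theorem quo_exists
    (hgen : ∀ {L : Type u} [Lattice L] [IsModularLattice L] [OrderTop L] [Countable L]
      {B : L → L → Prop} (_ : BigRel B) {a b : L} (_ : B a b),
      ∃ f : Set L, (∀ x y, y ∈ f → x ≤ y → x ∈ f) ∧ (∀ x y, x ∈ f → y ∈ f → x ⊔ y ∈ f) ∧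
        a ∈ f ∧ b ∉ f ∧ ∀ x, x ∉ f → ∃ y₁ y₂, y₁ ∉ f ∧ y₂ ∉ f ∧
          (∃ c ∈ f, y₁ ≤ x ⊔ c ∧ y₂ ≤ x ⊔ c) ∧ ∀ c ∈ f, (y₁ ⊔ c) ⊓ (y₂ ⊔ c) ∈ f)
    {Λ C : Type u} {T : Type v} [Ring Λ] [AddCommGroup C] [Module Λ C] [Countable C]
    (hcoh : ∀ K K' : Submodule Λ C, K.FG → K'.FG → (K ⊓ K').FG)
    [Preorder T] {J : T → T → T → Prop} (hT : Branching J) {a b : T} (hab : a < b)
    (μ : T → Submodule Λ C) (hμ : Good J μ a b) (hfg : ∀ x, (μ x).FG) :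
    ∃ (X : Submodule Λ C) (F : Submodule Λ X), Nontrivial (X ⧸ F) ∧ NoUnif Λ (X ⧸ F) := by
  refine ⟨μ b, ?_⟩
  let _ : Lattice (QuoL (μ b)) := quoLattice (μ b) hcoh
  have hle : ∀ x y : QuoL (μ b), x ≤ y ↔ x.1 ≤ y.1 := fun x y => Iff.rfl
  have hlt : ∀ x y : QuoL (μ b), x < y ↔ x.1 < y.1 := fun x y => Iff.rfl
  have hsup : ∀ x y : QuoL (μ b), (x ⊔ y).1 = x.1 ⊔ y.1 := fun x y => rfl
  have hinf : ∀ x y : QuoL (μ b), (x ⊓ y).1 = x.1 ⊓ y.1 := fun x y => rfl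
  have _ : IsModularLattice (QuoL (μ b)) := ⟨by
    intro x y z hxz
    rw [hle, hinf, hsup, hsup, hinf]
    exact IsModularLattice.sup_inf_le_assoc_of_le y.1 hxz⟩
  let _ : OrderTop (QuoL (μ b)) :=
    { top := ⟨μ b, hfg b, le_rfl⟩
      le_top := fun x => x.2.2 }
  have _ : Countable (QuoL (μ b)) := quo_countable (μ b)
  let ν : T → QuoL (μ b) := fun x => ⟨μ x ⊓ μ b, hcoh _ _ (hfg x) (hfg b), inf_le_right⟩
  have hν : ∀ x, a ≤ x → x ≤ b → (ν x).1 = μ x := fun x hax hxb =>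
    inf_eq_left.2 (hμ.mono x b hax hxb le_rfl)
  have hgood : Good J ν a b := by
    refine ⟨fun x y hax hxy hyb => ?_, fun x y hax hxy hyb => ?_,
      fun t₁ t₂ w h1 h2 h3 h4 h5 h6 hJ => ?_⟩
    · rw [hle, hν x hax (hxy.trans hyb), hν y (hax.trans hxy) hyb]
      exact hμ.mono x y hax hxy hyb
    · rw [hlt, hν x hax (hxy.le.trans hyb), hν y (hax.trans hxy.le) hyb]
      exact hμ.strict x y hax hxy hyb
    · rw [hle, hsup, hν w h5 h6, hν t₁ h1 h2, hν t₂ h3 h4]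
      exact hμ.join t₁ t₂ w h1 h2 h3 h4 h5 h6 hJ
  have hbig : Big J (ν a) (ν b) := ⟨a, b, hab, ν, hgood, le_rfl, le_rfl⟩
  obtain ⟨f, f1, f2, f3, f4, f5⟩ := hgen (big_rel hT) hbig
  have hνb : (ν b).1 = μ b := hν b hab.le le_rfl
  -- transfer the ideal to a set of submodules
  refine quo_noUnif (μ b) (hfg b) (Subtype.val '' f) ?_ ?_ ?_ (ν a).1 ⟨ν a, f3, rfl⟩ ?_ ?_
  · rintro _ ⟨K, -, rfl⟩
    exact K.2.2
  · rintro x _ hx ⟨y, hy, rfl⟩ hxy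
    exact ⟨⟨x, hx, hxy.trans y.2.2⟩, f1 _ _ hy hxy, rfl⟩
  · rintro _ _ ⟨x, hx, rfl⟩ ⟨y, hy, rfl⟩
    exact ⟨_, f2 _ _ hx hy, rfl⟩
  · rintro ⟨K, hK, hK'⟩
    apply f4
    have : K = ν b := Subtype.ext (hK'.trans hνb.symm)
    rwa [← this]
  · intro x hx hxX hxf
    have hxf' : (⟨x, hx, hxX⟩ : QuoL (μ b)) ∉ f := fun h => hxf ⟨_, h, rfl⟩
    obtain ⟨y₁, y₂, h1, h2, ⟨c, hc, hc1, hc2⟩, h3⟩ := f5 _ hxf'
    have hnot : ∀ y : QuoL (μ b), y ∉ f → y.1 ∉ Subtype.val '' f := by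
      rintro y hy ⟨y', hy', he⟩
      exact hy (Subtype.ext he ▸ hy')
    refine ⟨y₁.1, y₂.1, y₁.2.1, y₂.2.1, y₁.2.2, y₂.2.2, hnot _ h1, hnot _ h2,
      ⟨c.1, ⟨c, hc, rfl⟩, hc1, hc2⟩, ?_⟩
    rintro _ ⟨c', hc', rfl⟩
    exact ⟨_, h3 c' hc', rfl⟩

end Pool.Agent.H35SD
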